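import Mathlib
import Pool.Agent.Lib.MP_ae5b4e_an_NB1.Defs

/-!
# MP_ae5b4e_an, NB_1, Lemma (4.1): definitions

`AA`: formal power series in two variables; `Ord n f`: the coefficients of degree `< n` vanish;
`E k`: the partial derivatives; `IsTS`: a Taylor homomorphism; `evU`: evaluation of elements of
`RU U` at a point; `cder`: the coefficientwise extension of a derivation.
-/

noncomputable section

namespace Pool.Agent.MP_ae5b4e_an_NB1C

open Pool.Agent.MP_ae5b4e_an_NB1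
open TopologicalSpace (Opens)
open MvPowerSeries (constantCoeff coeff)

/-- formal power series in two variables -/
abbrev AA := MvPowerSeries (Fin 2) ℂ

/-- partial derivatives -/
abbrev E (k : Fin 2) : Derivation ℂ AA AA := MvPowerSeries.pderiv ℂ k

/-- all coefficients of degree `< n` vanish -/
def Ord (n : ℕ) (f : AA) : Prop := ∀ m : Fin 2 →₀ ℕ, m 0 + m 1 < n → coeff m f = 0

lemma coeff_E (k : Fin 2) (f : AA) (m : Fin 2 →₀ ℕ) :
    coeff m (E k f) = coeff (m + Finsupp.single k 1) f * (m k + 1) :=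
  MvPowerSeries.coeff_pderiv f m

lemma Ord.zero (n : ℕ) : Ord n 0 := fun _ _ => map_zero _

lemma ord_zero (f : AA) : Ord 0 f := fun _ hm => absurd hm (Nat.not_lt_zero _)

lemma Ord.add {n : ℕ} {f g : AA} (hf : Ord n f) (hg : Ord n g) : Ord n (f + g) := fun m hm => by
  rw [map_add, hf m hm, hg m hm, add_zero]

lemma Ord.neg {n : ℕ} {f : AA} (hf : Ord n f) : Ord n (-f) := fun m hm => by
  rw [map_neg, hf m hm, neg_zero]

lemma Ord.sub {n : ℕ} {f g : AA} (hf : Ord n f) (hg : Ord n g) : Ord n (f - g) := fun m hm => by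
  rw [map_sub, hf m hm, hg m hm, sub_zero]

lemma Ord.sum {n : ℕ} {ι : Type*} {s : Finset ι} {f : ι → AA} (hf : ∀ i ∈ s, Ord n (f i)) :
    Ord n (∑ i ∈ s, f i) := fun m hm => by
  rw [map_sum]
  exact Finset.sum_eq_zero fun i hi => hf i hi m hm

lemma Ord.mul_right {n : ℕ} {f : AA} (hf : Ord n f) (g : AA) : Ord n (f * g) := fun m hm => by
  rw [MvPowerSeries.coeff_mul]
  refine Finset.sum_eq_zero fun p hp => ?_
  have h := Finset.HasAntidiagonal.mem_antidiagonal.1 hp
  rw [hf p.1 ?_, zero_mul]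
  have h0 : p.1 0 + p.2 0 = m 0 := by rw [← h]; rfl
  have h1 : p.1 1 + p.2 1 = m 1 := by rw [← h]; rfl
  omega

lemma Ord.mul_left {n : ℕ} {f : AA} (hf : Ord n f) (g : AA) : Ord n (g * f) := by
  rw [mul_comm]
  exact hf.mul_right g

lemma Ord.mono {n k : ℕ} (h : k ≤ n) {f : AA} (hf : Ord n f) : Ord k f := fun m hm =>
  hf m (lt_of_lt_of_le hm h)

lemma Ord.eq_zero {f : AA} (hf : ∀ n, Ord n f) : f = 0 := by
  ext m
  rw [hf (m 0 + m 1 + 1) m (Nat.lt_succ_self _), map_zero]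

lemma Ord.const {n : ℕ} {f : AA} (hf : Ord (n + 1) f) : constantCoeff f = 0 := by
  rw [← MvPowerSeries.coeff_zero_eq_constantCoeff_apply]
  exact hf 0 (by simp)

lemma Ord.deriv {n : ℕ} {f : AA} (hf : Ord (n + 1) f) (k : Fin 2) : Ord n (E k f) := fun m hm => by
  rw [coeff_E, hf _ ?_, zero_mul]
  rw [Finsupp.add_apply, Finsupp.add_apply]
  fin_cases k
  · simp
    omega
  · simp
    omega

lemma Ord.of_deriv {n : ℕ} {f : AA} (h0 : constantCoeff f = 0) (hf : ∀ k, Ord n (E k f)) :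
    Ord (n + 1) f := by
  intro m hm
  by_cases hm0 : m = 0
  · rw [hm0, MvPowerSeries.coeff_zero_eq_constantCoeff_apply, h0]
  obtain ⟨k, hk⟩ : ∃ k, m k ≠ 0 := by
    by_contra hcon
    push Not at hcon
    exact hm0 (Finsupp.ext hcon)
  have hle : Finsupp.single k 1 ≤ m := by
    rw [Finsupp.single_le_iff]
    exact Nat.one_le_iff_ne_zero.2 hk
  obtain ⟨m', hm'⟩ : ∃ m', m = m' + Finsupp.single k 1 :=
    ⟨m - Finsupp.single k 1, (tsub_add_cancel_of_le hle).symm⟩
  have h4 : m 0 = m' 0 + (Finsupp.single k 1 : Fin 2 →₀ ℕ) 0 := by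
    rw [hm', Finsupp.add_apply]
  have h5 : m 1 = m' 1 + (Finsupp.single k 1 : Fin 2 →₀ ℕ) 1 := by
    rw [hm', Finsupp.add_apply]
  have h6 : (Finsupp.single k 1 : Fin 2 →₀ ℕ) 0 + (Finsupp.single k 1 : Fin 2 →₀ ℕ) 1 = 1 := by
    fin_cases k <;> simp
  have h2 := hf k m' (by omega)
  rw [coeff_E, ← hm'] at h2
  rcases mul_eq_zero.1 h2 with h3 | h3
  · exact h3
  · exact absurd h3 (Nat.cast_add_one_ne_zero _)

/-- Taylor homomorphism -/
structure IsTS {S : Type*} [CommRing S] [Algebra ℂ S] (D1 D2 : Derivation ℂ S S) (ev : S →ₐ[ℂ] ℂ)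
    (ts : S →ₐ[ℂ] AA) : Prop where
  c0 : ∀ f, constantCoeff (ts f) = ev f
  p1 : ∀ f, E 0 (ts f) = ts (D1 f)
  p2 : ∀ f, E 1 (ts f) = ts (D2 f)

/-- evaluation at a point of `U` -/
def evU {U : Opens (ℂ × ℂ)} {q : ℂ × ℂ} (hq : q ∈ U) : RU U →ₐ[ℂ] ℂ :=
  (Pi.evalAlgHom ℂ (fun _ : U => ℂ) ⟨q, hq⟩).comp (RU U).val

lemma evU_apply {U : Opens (ℂ × ℂ)} {q : ℂ × ℂ} (hq : q ∈ U) (f : RU U) :
    evU hq f = fn f q := (ext0_apply f.1 hq).symm

/-- coefficientwise extension of a derivation -/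
def cder {σ R : Type*} [CommRing R] (D : Derivation ℤ R R) :
    Derivation ℤ (MvPowerSeries σ R) (MvPowerSeries σ R) :=
  Derivation.mk' ((AddMonoidHom.mk' (fun f m => D (coeff m f) : MvPowerSeries σ R → _)
    (fun f g => by
      ext m
      change D (coeff m (f + g)) = D (coeff m f) + D (coeff m g)
      rw [map_add, map_add])).toIntLinearMap) (fun f g => by
      classical
      ext m
      change D (coeff m (f * g)) = coeff m (f * _ + g * _)
      rw [map_add, MvPowerSeries.coeff_mul, MvPowerSeries.coeff_mul, mul_comm g,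
        MvPowerSeries.coeff_mul, map_sum, ← Finset.sum_add_distrib]
      refine Finset.sum_congr rfl fun p _ => ?_
      rw [Derivation.leibniz]
      change _ = coeff p.1 f * D (coeff p.2 g) + D (coeff p.1 f) * coeff p.2 g
      simp only [smul_eq_mul]
      ring)

lemma coeff_cder {σ R : Type*} [CommRing R] (D : Derivation ℤ R R) (f : MvPowerSeries σ R)
    (m : σ →₀ ℕ) : coeff m (cder D f) = D (coeff m f) := rfl

lemma cder_E (D : Derivation ℤ ℂ ℂ) (k : Fin 2) (f : AA) : cder D (E k f) = E k (cder D f) := by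
  ext m
  rw [coeff_cder, coeff_E, coeff_E, coeff_cder, Derivation.leibniz]
  have : D ((m k : ℂ) + 1) = 0 := by
    rw [map_add, Derivation.map_one_eq_zero, Derivation.map_natCast, add_zero]
  rw [this]
  simp only [smul_eq_mul]
  ring

/-- the field generated by the values at `q` of all derivatives of the ends -/
def kq {U : Opens (ℂ × ℂ)} (D1 D2 : Derivation ℂ (RU U) (RU U)) (M : ℕ) (x : ℕ → RU U)
    (q : ℂ × ℂ) : Subfield ℂ :=
  Subfield.closure {c | ∃ a b j : ℕ, (j = 0 ∨ j = 1 ∨ j = M + 1 ∨ j = M + 2) ∧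
    c = fn (D1^[a] (D2^[b] (x j))) q}

end Pool.Agent.MP_ae5b4e_an_NB1C
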