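import Mathlib
import Pool.Agent.Lib.MP_ae5b4e_an_NB1C.ADefs

/-!
# MP_ae5b4e_an, NB_1, Lemma (4.1): the ring of analytic functions is a domain
-/

noncomputable section

namespace Pool.Agent.MP_ae5b4e_an_NB1C

open Pool.Agent.MP_ae5b4e_an_NB1
open TopologicalSpace (Opens)
open MvPowerSeries (constantCoeff coeff)

lemma domu_mul {U : Opens (ℂ × ℂ)} (f g : RU U) {q : ℂ × ℂ} (hq : q ∈ U) :
    fn (f * g) q = fn f q * fn g q := by
  rw [← evU_apply hq, ← evU_apply hq, ← evU_apply hq, map_mul]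

lemma domu_cont {U : Opens (ℂ × ℂ)} (f : RU U) : ContinuousOn (fn f) U :=
  (fn_an f).continuousOn

lemma domu_ext {U : Opens (ℂ × ℂ)} {f : RU U} (h : ∀ q ∈ U, fn f q = 0) : f = 0 := by
  apply Subtype.ext
  funext q
  have h1 := h q.1 q.2
  unfold fn at h1
  rw [ext0_apply _ q.2] at h1
  exact h1

/-- identity theorem for elements of `RU U` -/
theorem ru_eq_zero {U : Opens (ℂ × ℂ)} (hU : IsPreconnected (U : Set (ℂ × ℂ))) {f : RU U}
    {V : Set (ℂ × ℂ)} (hV : IsOpen V) (hVU : V ⊆ U) (hVne : V.Nonempty)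
    (hf : ∀ q ∈ V, fn f q = 0) : f = 0 := by
  obtain ⟨q₀, hq₀⟩ := hVne
  have h1 : fn f =ᶠ[nhds q₀] 0 := by
    filter_upwards [hV.mem_nhds hq₀] with q hq
    exact hf q hq
  exact domu_ext fun q hq =>
    (fn_an f).eqOn_zero_of_preconnected_of_eventuallyEq_zero hU (hVU hq₀) h1 hq

lemma domu_exists {U : Opens (ℂ × ℂ)} {f : RU U} (hf : f ≠ 0) :
    ∃ V : Set (ℂ × ℂ), IsOpen V ∧ V ⊆ U ∧ V.Nonempty ∧ ∀ q ∈ V, fn f q ≠ 0 := by
  have h1 : ∃ q ∈ U, fn f q ≠ 0 := by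
    by_contra hcon
    push Not at hcon
    exact hf (domu_ext hcon)
  obtain ⟨q, hq, hfq⟩ := h1
  refine ⟨(U : Set (ℂ × ℂ)) ∩ fn f ⁻¹' {0}ᶜ, ?_, Set.inter_subset_left, ⟨q, hq, hfq⟩,
    fun p hp => hp.2⟩
  exact (domu_cont f).isOpen_inter_preimage U.isOpen isOpen_compl_singleton

/-- `RU U` is a domain -/
theorem isDomain_ru {U : Opens (ℂ × ℂ)} (hU : IsPreconnected (U : Set (ℂ × ℂ)))
    (hne : (U : Set (ℂ × ℂ)).Nonempty) : IsDomain (RU U) := by
  obtain ⟨q₀, hq₀⟩ := hne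
  have hnt : Nontrivial (RU U) := by
    refine ⟨⟨1, 0, fun h => ?_⟩⟩
    have h1 : evU (U := U) hq₀ 1 = evU (U := U) hq₀ 0 := by rw [h]
    rw [map_one, map_zero] at h1
    exact one_ne_zero h1
  have hnz : NoZeroDivisors (RU U) := by
    refine ⟨fun {f g} hfg => ?_⟩
    by_cases hf : f = 0
    · exact Or.inl hf
    · right
      obtain ⟨V, hV, hVU, hVne, hVf⟩ := domu_exists hf
      refine ru_eq_zero hU hV hVU hVne fun q hq => ?_
      have h1 := domu_mul f g (hVU hq)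
      rw [hfg] at h1
      have h2 : fn (0 : RU U) q = 0 := by
        rw [← evU_apply (hVU hq), map_zero]
      rw [h2] at h1
      rcases mul_eq_zero.mp h1.symm with h | h
      · exact absurd h (hVf q hq)
      · exact h
  exact NoZeroDivisors.to_isDomain _

/-- finitely many nonzero elements do not vanish at the points of a nonempty open set -/
theorem exists_open_ne {U : Opens (ℂ × ℂ)} (hU : IsPreconnected (U : Set (ℂ × ℂ)))
    (hne : (U : Set (ℂ × ℂ)).Nonempty) {ι : Type*} (s : Finset ι) {f : ι → RU U}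
    (hf : ∀ i ∈ s, f i ≠ 0) :
    ∃ V : Set (ℂ × ℂ), IsOpen V ∧ V ⊆ U ∧ V.Nonempty ∧ ∀ q ∈ V, ∀ i ∈ s, fn (f i) q ≠ 0 := by
  have hD := isDomain_ru hU hne
  have hprod : ∏ i ∈ s, f i ≠ 0 := Finset.prod_ne_zero_iff.mpr hf
  obtain ⟨V, hV, hVU, hVne, hVf⟩ := domu_exists hprod
  refine ⟨V, hV, hVU, hVne, fun q hq i hi h => ?_⟩
  apply hVf q hq
  rw [← evU_apply (hVU hq), map_prod]
  exact Finset.prod_eq_zero hi (by rw [evU_apply]; exact h)

end Pool.Agent.MP_ae5b4e_an_NB1C
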