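import Mathlib
import Pool.Agent.Lib.MP_ae5b4e_an_NB1C.ADefs
import Pool.Agent.Lib.MP_ae5b4e_an_NB1C.DomU

/-!
# MP_ae5b4e_an, NB_1, Lemma (4.1): from pointwise algebraic to algebraic
-/

noncomputable section

namespace Pool.Agent.MP_ae5b4e_an_NB1C

open Pool.Agent.MP_ae5b4e_an_NB1
open TopologicalSpace (Opens)
open MvPowerSeries (constantCoeff coeff)

/-- algebraic over the field generated by the range of a ring homomorphism: there is a polynomial
over the source with nonzero image -/
lemma bai_clear {R : Type*} [CommRing R] (e : R →+* ℂ) {s : Set ℂ} (hs : s ⊆ e.range) {c : ℂ}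
    (hc : IsAlgebraic (Subfield.closure s) c) :
    ∃ P : Polynomial R, P.map e ≠ 0 ∧ (P.map e).eval c = 0 := by
  set L := Subfield.closure s with hL
  set L' := Subfield.closure ((e.range : Subring ℂ) : Set ℂ) with hL'
  -- enlarge the field
  have hLL : L ≤ L' := Subfield.closure_mono hs
  have hc' : IsAlgebraic L' c := by
    obtain ⟨P, hP, hPc⟩ := hc
    refine ⟨P.map (Subfield.inclusion hLL), ?_, ?_⟩
    · rwa [Polynomial.map_ne_zero_iff (Subfield.inclusion hLL).injective]
    · rw [Polynomial.aeval_def, Polynomial.eval₂_map]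
      rw [Polynomial.aeval_def] at hPc
      exact hPc
  set A : Subring ℂ := e.range with hA
  have hAL : A ≤ L'.toSubring := fun x hx => Subfield.subset_closure hx
  let _ : Algebra A L' := (Subring.inclusion hAL).toAlgebra
  have : IsScalarTower A L' ℂ := IsScalarTower.of_algebraMap_eq fun x => rfl
  have : Algebra.IsAlgebraic A L' := by
    refine ⟨fun x => ?_⟩
    obtain ⟨y, hy, z, hz, hyz⟩ := Subfield.mem_closure_iff.mp x.2
    rw [Subring.closure_eq] at hy hz
    have hx : x = algebraMap A L' ⟨y, hy⟩ * (algebraMap A L' ⟨z, hz⟩)⁻¹ := by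
      apply Subtype.ext
      rw [← hyz, div_eq_mul_inv]
      rfl
    rw [hx]
    exact (isAlgebraic_algebraMap _).mul (isAlgebraic_algebraMap _).inv
  have h1 : IsAlgebraic A c := hc'.restrictScalars A
  obtain ⟨Q, hQ, hQc⟩ := h1
  obtain ⟨P, hP⟩ := Polynomial.map_surjective e.rangeRestrict e.rangeRestrict_surjective Q
  have h2 : P.map e = Q.map (algebraMap A ℂ) := by
    rw [← hP, Polynomial.map_map]
    rfl
  refine ⟨P, ?_, ?_⟩
  · rw [h2]
    rwa [Polynomial.map_ne_zero_iff]
    exact Subtype.val_injective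
  · rw [h2, Polynomial.eval_map_algebraMap]
    exact hQc

/-- **Baire argument**: `T` countable; if at every point `q` of a nonempty open set the value `f q`
is algebraic over the field generated by the values `g q`, `g ∈ T`, then `f` is algebraic over
every subalgebra which contains `T`.  (Countably many polynomials `P ≠ 0` over the subring `B`
generated by `T`; the set of the `q` with `P(f) q = 0` is closed; one of them has an interior
point; identity theorem.) -/
theorem alg_of_pointwise {U : Opens (ℂ × ℂ)} (hU : IsPreconnected (U : Set (ℂ × ℂ)))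
    {V : Set (ℂ × ℂ)} (hV : IsOpen V) (hVU : V ⊆ U) (hVne : V.Nonempty) {T : Set (RU U)}
    (hT : T.Countable) {f : RU U}
    (hf : ∀ q ∈ V, IsAlgebraic (Subfield.closure ((fun g : RU U => fn g q) '' T)) (fn f q))
    {S₀ : Subalgebra ℂ (RU U)} (hS₀ : T ⊆ S₀) : IsAlgebraic S₀ f := by
  classical
  have : Countable T := hT.to_subtype
  set φ₀ : MvPolynomial T ℤ →+* S₀ :=
    MvPolynomial.eval₂Hom (Int.castRingHom S₀) (fun t : T => ⟨t.1, hS₀ t.2⟩) with hφ₀
  set φ : MvPolynomial T ℤ →+* RU U := (algebraMap S₀ (RU U)).comp φ₀ with hφ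
  have c1 : Countable (MvPolynomial T ℤ) := by
    rw [← Cardinal.mk_le_aleph0_iff]
    refine MvPolynomial.cardinalMk_le_max.trans (max_le (max_le ?_ ?_) le_rfl)
    · exact Cardinal.mk_le_aleph0
    · exact Cardinal.mk_le_aleph0
  have c2 : Countable (Polynomial (MvPolynomial T ℤ)) := by
    rw [← Cardinal.mk_le_aleph0_iff]
    exact Polynomial.cardinalMk_le_max.trans (max_le Cardinal.mk_le_aleph0 le_rfl)
  have : BaireSpace V := hV.baireSpace
  have : Nonempty V := hVne.to_subtype
  -- the closed sets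
  set ι := {P : Polynomial (MvPolynomial T ℤ) // P.map φ ≠ 0} with hι
  set Z : ι → Set V := fun P => {v | fn ((P.1.map φ).eval f) v.1 = 0} with hZ
  have hcl : ∀ P, IsClosed (Z P) := by
    intro P
    have hc : Continuous fun v : V => fn ((P.1.map φ).eval f) v.1 := by
      have h1 : ContinuousOn (fn ((P.1.map φ).eval f)) V :=
        ((fn_an _).continuousOn).mono hVU
      exact continuousOn_iff_continuous_domRestrict.mp h1
    exact isClosed_eq hc continuous_const
  have hun : (⋃ P, Z P) = Set.univ := by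
    rw [Set.eq_univ_iff_forall]
    intro v
    set ev : MvPolynomial T ℤ →+* ℂ := ((evU (hVU v.2)) : RU U →+* ℂ).comp φ with hev
    obtain ⟨P, hP, hPc⟩ := bai_clear ev (s := (fun g : RU U => fn g v.1) '' T) (by
      rintro _ ⟨g, hg, rfl⟩
      refine ⟨MvPolynomial.X ⟨g, hg⟩, ?_⟩
      rw [hev, RingHom.comp_apply, hφ, RingHom.comp_apply, hφ₀, MvPolynomial.coe_eval₂Hom,
        MvPolynomial.eval₂_X]
      exact evU_apply _ _) (hf v.1 v.2)
    rw [hev, ← Polynomial.map_map] at hP hPc
    refine Set.mem_iUnion.mpr ⟨⟨P, ?_⟩, ?_⟩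
    · intro h
      rw [h, Polynomial.map_zero] at hP
      exact hP rfl
    · show fn ((P.map φ).eval f) v.1 = 0
      rw [← evU_apply (hVU v.2)]
      have h1 : ((evU (hVU v.2)) : RU U →+* ℂ) f = fn f v.1 := evU_apply _ _
      rw [← h1, Polynomial.eval_map, Polynomial.eval₂_at_apply] at hPc
      exact hPc
  obtain ⟨P, v, hv⟩ := nonempty_interior_of_iUnion_of_closed hcl hun
  have hopen : IsOpen ((fun v : V => v.1) '' interior (Z P)) :=
    hV.isOpenMap_subtype_val _ isOpen_interior
  have hzero : (P.1.map φ).eval f = 0 := by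
    refine ru_eq_zero hU hopen ?_ ⟨v.1, v, hv, rfl⟩ ?_
    · rintro _ ⟨w, -, rfl⟩
      exact hVU w.2
    · rintro _ ⟨w, hw, rfl⟩
      have h1 : w ∈ Z P := interior_subset hw
      exact h1
  refine ⟨P.1.map φ₀, ?_, ?_⟩
  · intro h
    apply P.2
    have h1 : P.1.map φ = (P.1.map φ₀).map (algebraMap S₀ (RU U)) := by
      rw [Polynomial.map_map]
    rw [h1, h, Polynomial.map_zero]
  · rw [Polynomial.aeval_def, Polynomial.eval₂_map, ← hφ, ← Polynomial.eval_map]
    exact hzero

end Pool.Agent.MP_ae5b4e_an_NB1C
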