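import Mathlib

/-!
# MP_ae5b4e_an, NB_1: extension of derivations of fields of characteristic zero

`exists_ext_der`: a derivation `K → L` of a field `K` of characteristic zero into an extension
field `L` extends to a derivation of `L`.  `exists_der`: for `a` transcendental over a subfield
`k₀` there is a derivation over `k₀` with value `1` at `a`.
-/

noncomputable section

namespace Pool.Agent.MP_ae5b4e_an_NB1C

/-- every extension of fields of characteristic zero is formally smooth -/
theorem formallySmooth_field (K L : Type*) [Field K] [Field L] [Algebra K L] [CharZero K] :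
    Algebra.FormallySmooth K L := by
  obtain ⟨s, hs⟩ := exists_isTranscendenceBasis K L
  have h1 : Algebra.IsAlgebraic (IntermediateField.adjoin K (Set.range ((↑) : s → L))) L :=
    hs.isAlgebraic_field
  have h2 : CharZero (IntermediateField.adjoin K (Set.range ((↑) : s → L))) :=
    charZero_of_injective_algebraMap (algebraMap K _).injective
  exact Algebra.FormallySmooth.of_algebraicIndependent_of_isSeparable hs.1

/-- derivations extend along formally smooth algebras -/
theorem exists_ext_der_of_formallySmooth {A L : Type*} [CommRing A] [Field L] [Algebra A L]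
    [Algebra.FormallySmooth A L] (d : A →+ L)
    (hd : ∀ a b, d (a * b) = algebraMap A L a * d b + algebraMap A L b * d a) :
    ∃ D : Derivation ℤ L L, ∀ a, D (algebraMap A L a) = d a := by
  have hd1 : d 1 = 0 := by
    have h := hd 1 1
    simp only [mul_one, map_one, one_mul] at h
    exact left_eq_add.1 h
  let f : A →+* TrivSqZeroExt L L :=
    { toFun := fun a => TrivSqZeroExt.inl (algebraMap A L a) + TrivSqZeroExt.inr (d a)
      map_one' := by simp [hd1]
      map_zero' := by simp
      map_add' := fun a b => by
        ext <;> simp
      map_mul' := fun a b => by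
        ext
        · simp
        · simp [hd]
          ring }
  let _ : Algebra A (TrivSqZeroExt L L) := f.toAlgebra
  let g : TrivSqZeroExt L L →ₐ[A] L :=
    { (TrivSqZeroExt.fstHom L L L : TrivSqZeroExt L L →+* L) with
      commutes' := fun a => by
        change TrivSqZeroExt.fst (f a) = algebraMap A L a
        simp [f] }
  have hg : Function.Surjective g := fun x => ⟨(TrivSqZeroExt.inl x : TrivSqZeroExt L L), by
    change TrivSqZeroExt.fst (TrivSqZeroExt.inl x : TrivSqZeroExt L L) = x
    simp⟩
  have hker : IsNilpotent (RingHom.ker (g : TrivSqZeroExt L L →+* L)) := by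
    have h2 : RingHom.ker (g : TrivSqZeroExt L L →+* L) ^ 2 =
        RingHom.ker (g : TrivSqZeroExt L L →+* L) * RingHom.ker (g : TrivSqZeroExt L L →+* L) := by
      rw [Submodule.pow_succ, Submodule.pow_one]
    refine ⟨2, h2.trans (eq_bot_iff.2 (Ideal.mul_le.2 ?_))⟩
    intro x hx y hy
    have hx' : x.fst = 0 := hx
    have hy' : y.fst = 0 := hy
    rw [Ideal.mem_bot]
    ext
    · simp [hx']
    · simp [hx', hy']
  let φ := Algebra.FormallySmooth.liftOfSurjective (AlgHom.id A L) g hg hker
  have hφ : ∀ x, (φ x).fst = x := fun x =>
    Algebra.FormallySmooth.liftOfSurjective_apply (AlgHom.id A L) g hg hker x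
  refine ⟨Derivation.mk' ((AddMonoidHom.mk' (fun x => (φ x).snd) (fun x y => by
    rw [map_add]; simp)).toIntLinearMap) (fun x y => ?_), fun a => ?_⟩
  · change (φ (x * y)).snd = x • (φ y).snd + y • (φ x).snd
    rw [map_mul]
    simp only [TrivSqZeroExt.snd_mul, hφ, smul_eq_mul, MulOpposite.smul_eq_mul_unop,
      MulOpposite.unop_op]
    ring
  · change (φ (algebraMap A L a)).snd = d a
    rw [φ.commutes]
    change (f a).snd = d a
    simp [f]

theorem exists_ext_der {K L : Type*} [Field K] [Field L] [Algebra K L] [CharZero K] (d : K →+ L)
    (hd : ∀ a b, d (a * b) = algebraMap K L a * d b + algebraMap K L b * d a) :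
    ∃ D : Derivation ℤ L L, ∀ a, D (algebraMap K L a) = d a := by
  have := formallySmooth_field K L
  exact exists_ext_der_of_formallySmooth d hd

theorem exists_der {L : Type*} [Field L] [CharZero L] (k₀ : Subfield L) (a : L)
    (ha : Transcendental k₀ a) :
    ∃ D : Derivation ℤ L L, (∀ x ∈ k₀, D x = 0) ∧ D a = 1 := by
  let _ : Algebra (Polynomial k₀) L := (Polynomial.aeval a : Polynomial k₀ →ₐ[k₀] L).toRingHom.toAlgebra
  have hmap : ∀ p : Polynomial k₀, algebraMap (Polynomial k₀) L p = Polynomial.aeval a p :=
    fun _ => rfl
  have hinj : Function.Injective (algebraMap (Polynomial k₀) L) :=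
    transcendental_iff_injective.1 ha
  let K := FractionRing (Polynomial k₀)
  let _ : Algebra K L := (IsFractionRing.lift (K := K) hinj).toAlgebra
  have _i : IsScalarTower (Polynomial k₀) K L := IsScalarTower.of_algebraMap_eq fun p =>
    (IsFractionRing.lift_algebraMap (K := K) hinj p).symm
  have _i : CharZero K := charZero_of_injective_algebraMap
    ((algebraMap (Polynomial k₀) K).comp Polynomial.C).injective
  have _i : Algebra.FormallySmooth (Polynomial k₀) K :=
    Algebra.FormallySmooth.of_isLocalization (nonZeroDivisors _)
  have _i : Algebra.FormallySmooth K L := formallySmooth_field K L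
  have _i : Algebra.FormallySmooth (Polynomial k₀) L := Algebra.FormallySmooth.comp _ K _
  obtain ⟨D, hD⟩ := exists_ext_der_of_formallySmooth (A := Polynomial k₀) (L := L)
    (AddMonoidHom.mk' (fun p => Polynomial.aeval a (Polynomial.derivative p)) (fun p q => by
      rw [Polynomial.derivative_add, map_add])) (fun p q => by
      change Polynomial.aeval a (Polynomial.derivative (p * q)) = _
      rw [Polynomial.derivative_mul, map_add, map_mul, map_mul, hmap, hmap]
      change _ = Polynomial.aeval a p * Polynomial.aeval a (Polynomial.derivative q) +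
        Polynomial.aeval a q * Polynomial.aeval a (Polynomial.derivative p)
      ring)
  refine ⟨D, fun x hx => ?_, ?_⟩
  · have h := hD (Polynomial.C ⟨x, hx⟩)
    rw [hmap] at h
    have h1 : (Polynomial.aeval a) (Polynomial.C (⟨x, hx⟩ : k₀)) = x := by
      rw [Polynomial.aeval_C]
      rfl
    rw [h1] at h
    rw [h]
    change Polynomial.aeval a (Polynomial.derivative (Polynomial.C (⟨x, hx⟩ : k₀))) = 0
    simp
  · have h := hD Polynomial.X
    rw [hmap, Polynomial.aeval_X] at h
    rw [h]
    change Polynomial.aeval a (Polynomial.derivative Polynomial.X) = 1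
    simp

end Pool.Agent.MP_ae5b4e_an_NB1C
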