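import Mathlib
import Pool.Agent.Lib.MP_ae5b4e_an_NB1C.ADefs

/-!
# MP_ae5b4e_an, NB_1, Lemma (4.1): derivatives with respect to one function, formal relations
-/

noncomputable section

namespace Pool.Agent.MP_ae5b4e_an_NB1C

open Pool.Agent.MP_ae5b4e_an_NB1
open TopologicalSpace (Opens)
open MvPowerSeries (constantCoeff coeff)

/-- the partial derivatives commute -/
private lemma frela_comm (i j : Fin 2) (f : AA) : E i (E j f) = E j (E i f) := by
  by_cases hij : i = j
  · rw [hij]
  ext m
  rw [coeff_E, coeff_E, coeff_E, coeff_E, Finsupp.add_apply, Finsupp.add_apply,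
    Finsupp.single_eq_of_ne (Ne.symm hij), Finsupp.single_eq_of_ne hij, add_right_comm m]
  simp only [add_zero]
  ring

private lemma frela_leib (i : Fin 2) (f g : AA) : E i (f * g) = f * E i g + g * E i f := by
  rw [Derivation.leibniz, smul_eq_mul, smul_eq_mul]

/-- if `f` is a function of `X` then it has derivatives of all orders with respect to `X` -/
theorem exists_seq {f X : AA} (h : E 0 f * E 1 X = E 1 f * E 0 X) {k : Fin 2}
    (hX : constantCoeff (E k X) ≠ 0) :
    ∃ s : ℕ → AA, s 0 = f ∧ ∀ n i, E i (s n) = s (n + 1) * E i X := by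
  have hJ : E k X * (E k X)⁻¹ = 1 := MvPowerSeries.mul_inv_cancel _ hX
  let s : ℕ → AA := fun n => Nat.rec f (fun _ g => E k g * (E k X)⁻¹) n
  have hs : ∀ n, s (n + 1) = E k (s n) * (E k X)⁻¹ := fun n => rfl
  have h1 : ∀ g : AA, (∀ i j, E i g * E j X = E j g * E i X) →
      ∀ i, E i g = E k g * (E k X)⁻¹ * E i X := by
    intro g hg i
    calc E i g = E i g * (E k X * (E k X)⁻¹) := by rw [hJ, mul_one]
      _ = (E i g * E k X) * (E k X)⁻¹ := by ring
      _ = (E k g * E i X) * (E k X)⁻¹ := by rw [hg i k]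
      _ = _ := by ring
  have h2 : ∀ g g' : AA, (∀ i, E i g = g' * E i X) → ∀ i j, E i g' * E j X = E j g' * E i X := by
    intro g g' hg i j
    have h3 : E i (E j g) = g' * E i (E j X) + E j X * E i g' := by
      rw [hg j, frela_leib]
    have h4 : E j (E i g) = g' * E j (E i X) + E i X * E j g' := by
      rw [hg i, frela_leib]
    rw [frela_comm i j g, h4, frela_comm j i X] at h3
    have h5 := add_left_cancel h3
    rw [mul_comm (E i g'), mul_comm (E j g')]
    exact h5.symm
  have h3 : ∀ n, ∀ i j, E i (s n) * E j X = E j (s n) * E i X := by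
    intro n
    induction n with
    | zero =>
      intro i j
      change E i f * E j X = E j f * E i X
      fin_cases i <;> fin_cases j
      · rfl
      · exact h
      · exact h.symm
      · rfl
    | succ n ih =>
      rw [hs]
      exact h2 (s n) _ (h1 (s n) ih)
  exact ⟨s, rfl, fun n i => by rw [hs]; exact h1 (s n) (h3 n) i⟩

/-- the sequence `ψ n = D (s n) - s (n + 1) * D X` is of the same kind -/
theorem seq_der {D : Derivation ℤ ℂ ℂ} {X : AA} {s : ℕ → AA}
    (hs : ∀ n i, E i (s n) = s (n + 1) * E i X) (n : ℕ) (i : Fin 2) :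
    E i (cder D (s n) - s (n + 1) * cder D X) =
      (cder D (s (n + 1)) - s (n + 2) * cder D X) * E i X := by
  rw [map_sub, frela_leib, ← cder_E, ← cder_E, hs n i, hs (n + 1) i, Derivation.leibniz,
    smul_eq_mul, smul_eq_mul]
  ring

/-- the derivative of a polynomial in `Y` -/
private lemma frela_sum (i : Fin 2) (Y : AA) (a b : ℕ → ℂ) (n : ℕ)
    (hab : ∀ l, a (l + 1) * (l + 1) = b l) :
    E i (∑ l ∈ Finset.range (n + 1), MvPowerSeries.C (a l) * Y ^ l) =
      (∑ l ∈ Finset.range n, MvPowerSeries.C (b l) * Y ^ l) * E i Y := by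
  have hC : ∀ c : ℂ, E i (MvPowerSeries.C c : AA) = 0 := by
    intro c
    exact (E i).map_algebraMap c
  rw [map_sum, Finset.sum_range_succ', Finset.sum_mul, pow_zero, mul_one, hC, add_zero]
  refine Finset.sum_congr rfl fun l _ => ?_
  rw [frela_leib, hC, mul_zero, add_zero, Derivation.leibniz_pow, ← hab l]
  simp only [Nat.add_sub_cancel, smul_eq_mul, nsmul_eq_mul, map_mul, map_add, map_one,
    map_natCast, Nat.cast_add, Nat.cast_one]
  ring

private lemma frela_const {Y : AA} (hY : constantCoeff Y = 0) (a : ℕ → ℂ) (n : ℕ) :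
    constantCoeff (∑ l ∈ Finset.range (n + 1), MvPowerSeries.C (a l) * Y ^ l) = a 0 := by
  rw [map_sum, Finset.sum_range_succ', pow_zero, mul_one, MvPowerSeries.constantCoeff_C,
    Finset.sum_eq_zero, zero_add]
  intro l _
  rw [map_mul, map_pow, hY, zero_pow (Nat.succ_ne_zero l), mul_zero]

private lemma frela_approx {Y : AA} {ψ : ℕ → AA} (hY : constantCoeff Y = 0)
    (hψ : ∀ k i, E i (ψ k) = ψ (k + 1) * E i Y) (n : ℕ) : ∀ k, Ord n (ψ k -
      ∑ l ∈ Finset.range n, MvPowerSeries.C (constantCoeff (ψ (k + l)) / (l.factorial : ℂ)) *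
        Y ^ l) := by
  induction n with
  | zero => exact fun k => ord_zero _
  | succ n ih =>
    intro k
    refine Ord.of_deriv ?_ fun i => ?_
    · rw [map_sub, frela_const hY (fun l => constantCoeff (ψ (k + l)) / (l.factorial : ℂ)) n]
      simp
    · have h1 := frela_sum i Y (fun l => constantCoeff (ψ (k + l)) / (l.factorial : ℂ))
        (fun l => constantCoeff (ψ (k + 1 + l)) / (l.factorial : ℂ)) n (fun l => by
          have h2 : k + (l + 1) = k + 1 + l := by omega
          have h3 : ((l.factorial : ℕ) : ℂ) ≠ 0 := Nat.cast_ne_zero.2 (Nat.factorial_ne_zero l)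
          have h4 : ((l : ℂ) + 1) ≠ 0 := Nat.cast_add_one_ne_zero l
          simp only [h2, Nat.factorial_succ]
          push_cast
          field_simp)
      rw [map_sub, h1, hψ, ← sub_mul]
      exact (ih (k + 1)).mul_right _

/-- **Formal relations from sequences of derivatives**: the coefficient number `k + 1` of `φ j` is
`constantCoeff (ψ j k) / (k + 1)!`. -/
theorem exists_frel {M : ℕ} {Y : ℕ → AA} {ψ : ℕ → ℕ → AA}
    (hY : ∀ j ≤ M, constantCoeff (Y j) = 0)
    (hψ : ∀ j ≤ M, ∀ k i, E i (ψ j k) = ψ j (k + 1) * E i (Y j))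
    (hsum : ∀ i, ∑ j ∈ Finset.range (M + 1), ψ j 0 * E i (Y j) = 0) :
    ∃ φ : ℕ → PowerSeries ℂ, (∀ j, PowerSeries.constantCoeff (φ j) = 0) ∧
      (∀ n, Ord (n + 1) (∑ j ∈ Finset.range (M + 1),
        Polynomial.aeval (Y j) ((φ j).trunc (n + 1)))) ∧
      ∀ j ≤ M, φ j = 0 → ψ j 0 = 0 := by
  let a : ℕ → ℕ → ℂ := fun j n =>
    if n = 0 then 0 else constantCoeff (ψ j (n - 1)) / (n.factorial : ℂ)
  have ha0 : ∀ j, a j 0 = 0 := fun j => if_pos rfl
  have ha1 : ∀ j l, a j (l + 1) = constantCoeff (ψ j l) / ((l + 1).factorial : ℂ) := by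
    intro j l
    change (if l + 1 = 0 then 0 else _) = _
    rw [if_neg (Nat.succ_ne_zero l)]
    rfl
  have hf : ∀ l : ℕ, ((l.factorial : ℕ) : ℂ) ≠ 0 := fun l =>
    Nat.cast_ne_zero.2 (Nat.factorial_ne_zero l)
  have hae : ∀ j n, Polynomial.aeval (Y j) ((PowerSeries.mk (a j)).trunc (n + 1)) =
      ∑ l ∈ Finset.range (n + 1), MvPowerSeries.C (a j l) * Y j ^ l := by
    intro j n
    rw [Polynomial.aeval_eq_sum_range' (PowerSeries.natDegree_trunc_lt _ n)]
    refine Finset.sum_congr rfl fun l hl => ?_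
    rw [PowerSeries.coeff_trunc, if_pos (Finset.mem_range.1 hl), PowerSeries.coeff_mk,
      MvPowerSeries.smul_eq_C_mul]
  refine ⟨fun j => PowerSeries.mk (a j), fun j => ?_, fun n => ?_, fun j hj h0 => ?_⟩
  · rw [← PowerSeries.coeff_zero_eq_constantCoeff_apply, PowerSeries.coeff_mk, ha0]
  · have h1 : ∀ j ∈ Finset.range (M + 1), Polynomial.aeval (Y j)
        ((PowerSeries.mk (a j)).trunc (n + 1)) =
        ∑ l ∈ Finset.range (n + 1), MvPowerSeries.C (a j l) * Y j ^ l := fun j _ => hae j n
    rw [Finset.sum_congr rfl h1]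
    refine Ord.of_deriv ?_ fun i => ?_
    · rw [map_sum]
      refine Finset.sum_eq_zero fun j hj => ?_
      rw [frela_const (hY j (Nat.lt_succ_iff.1 (Finset.mem_range.1 hj))), ha0]
    · have h2 : E i (∑ j ∈ Finset.range (M + 1),
          ∑ l ∈ Finset.range (n + 1), MvPowerSeries.C (a j l) * Y j ^ l) =
          -∑ j ∈ Finset.range (M + 1), (ψ j 0 - ∑ l ∈ Finset.range n,
            MvPowerSeries.C (constantCoeff (ψ j (0 + l)) / (l.factorial : ℂ)) * Y j ^ l) *
              E i (Y j) := by
        have h3 : ∑ j ∈ Finset.range (M + 1), (ψ j 0 - ∑ l ∈ Finset.range n,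
            MvPowerSeries.C (constantCoeff (ψ j (0 + l)) / (l.factorial : ℂ)) * Y j ^ l) *
              E i (Y j) = ∑ j ∈ Finset.range (M + 1), ψ j 0 * E i (Y j) -
              ∑ j ∈ Finset.range (M + 1), (∑ l ∈ Finset.range n,
            MvPowerSeries.C (constantCoeff (ψ j (0 + l)) / (l.factorial : ℂ)) * Y j ^ l) *
              E i (Y j) := by
          rw [← Finset.sum_sub_distrib]
          exact Finset.sum_congr rfl fun j _ => sub_mul _ _ _
        rw [h3, hsum i, zero_sub, neg_neg, map_sum]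
        refine Finset.sum_congr rfl fun j _ => ?_
        refine frela_sum i (Y j) (a j) _ n fun l => ?_
        rw [ha1, zero_add, Nat.factorial_succ]
        have h4 : ((l : ℂ) + 1) ≠ 0 := Nat.cast_add_one_ne_zero l
        have h5 := hf l
        push_cast
        field_simp
      rw [h2]
      refine Ord.neg (Ord.sum fun j hj => Ord.mul_right ?_ _)
      have hj' : j ≤ M := Nat.lt_succ_iff.1 (Finset.mem_range.1 hj)
      exact frela_approx (hY j hj') (hψ j hj') n 0
  · have hc : ∀ l, constantCoeff (ψ j l) = 0 := by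
      intro l
      have h0' : PowerSeries.mk (a j) = 0 := h0
      have h1 : PowerSeries.coeff (l + 1) (PowerSeries.mk (a j)) = 0 := by
        rw [h0', map_zero]
      rw [PowerSeries.coeff_mk, ha1] at h1
      rcases div_eq_zero_iff.1 h1 with h2 | h2
      · exact h2
      · exact absurd h2 (hf _)
    refine Ord.eq_zero fun n => ?_
    have h1 := frela_approx (hY j hj) (hψ j hj) n 0
    have h2 : ∑ l ∈ Finset.range n, MvPowerSeries.C (constantCoeff (ψ j (0 + l)) /
        (l.factorial : ℂ)) * Y j ^ l = (0 : AA) := by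
      refine Finset.sum_eq_zero fun l _ => ?_
      rw [hc, zero_div, map_zero, zero_mul]
    rw [h2, sub_zero] at h1
    exact h1

end Pool.Agent.MP_ae5b4e_an_NB1C
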