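import Mathlib
import Pool.Agent.Lib.MP_ae5b4e_an_NB1C.ADefs

/-!
# MP_ae5b4e_an, NB_1, Lemma (4.1): the Taylor homomorphism
-/

noncomputable section

namespace Pool.Agent.MP_ae5b4e_an_NB1C

open Pool.Agent.MP_ae5b4e_an_NB1
open TopologicalSpace (Opens)
open MvPowerSeries (constantCoeff coeff)

section
variable {S : Type*} [CommRing S] [Algebra ℂ S] (D1 D2 : Derivation ℂ S S) (ev : S →ₐ[ℂ] ℂ)

/-- the Taylor series -/
private def tays_fun (f : S) : AA :=
  fun m => ev (D1^[m 0] (D2^[m 1] f)) / (((m 0).factorial : ℂ) * ((m 1).factorial : ℂ))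

private lemma tays_coeff (f : S) (m : Fin 2 →₀ ℕ) : coeff m (tays_fun D1 D2 ev f) =
    ev (D1^[m 0] (D2^[m 1] f)) / (((m 0).factorial : ℂ) * ((m 1).factorial : ℂ)) := rfl

private lemma tays_iter_add (D : Derivation ℂ S S) (n : ℕ) (a b : S) :
    D^[n] (a + b) = D^[n] a + D^[n] b := by
  induction n generalizing a b with
  | zero => rfl
  | succ n ih => rw [Function.iterate_succ_apply, Function.iterate_succ_apply,
      Function.iterate_succ_apply, map_add, ih]

private lemma tays_iter_smul (D : Derivation ℂ S S) (n : ℕ) (c : ℂ) (a : S) :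
    D^[n] (c • a) = c • D^[n] a := by
  induction n generalizing a with
  | zero => rfl
  | succ n ih => rw [Function.iterate_succ_apply, Function.iterate_succ_apply,
      D.map_smul, ih]

private lemma tays_add (f g : S) : tays_fun D1 D2 ev (f + g) =
    tays_fun D1 D2 ev f + tays_fun D1 D2 ev g := by
  ext m
  rw [map_add, tays_coeff, tays_coeff, tays_coeff, tays_iter_add, tays_iter_add, map_add,
    add_div]

private lemma tays_smul (c : ℂ) (f : S) : tays_fun D1 D2 ev (c • f) =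
    c • tays_fun D1 D2 ev f := by
  ext m
  rw [MvPowerSeries.coeff_smul, tays_coeff, tays_coeff, tays_iter_smul, tays_iter_smul,
    map_smul, smul_eq_mul, mul_div_assoc]

private lemma tays_c0 (f : S) : constantCoeff (tays_fun D1 D2 ev f) = ev f := by
  rw [← MvPowerSeries.coeff_zero_eq_constantCoeff_apply, tays_coeff]
  simp

private lemma tays_p1 (hcomm : ∀ a, D1 (D2 a) = D2 (D1 a)) (f : S) :
    E 0 (tays_fun D1 D2 ev f) = tays_fun D1 D2 ev (D1 f) := by
  ext m
  have h0 : (m + Finsupp.single 0 1 : Fin 2 →₀ ℕ) 0 = m 0 + 1 := by simp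
  have h1 : (m + Finsupp.single 0 1 : Fin 2 →₀ ℕ) 1 = m 1 := by simp
  have hc : D2^[m 1] (D1 f) = D1 (D2^[m 1] f) := by
    have hC : Function.Commute (D1 : S → S) (D2 : S → S) := hcomm
    exact ((hC.iterate_right (m 1)) f).symm
  rw [coeff_E, tays_coeff, tays_coeff, h0, h1, hc, Function.iterate_succ_apply,
    Nat.factorial_succ]
  have h2 : ((m 0 : ℂ) + 1) ≠ 0 := Nat.cast_add_one_ne_zero _
  have h3 : ((m 0).factorial : ℂ) ≠ 0 := Nat.cast_ne_zero.2 (Nat.factorial_ne_zero _)
  have h4 : ((m 1).factorial : ℂ) ≠ 0 := Nat.cast_ne_zero.2 (Nat.factorial_ne_zero _)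
  push_cast
  field_simp

private lemma tays_p2 (f : S) :
    E 1 (tays_fun D1 D2 ev f) = tays_fun D1 D2 ev (D2 f) := by
  ext m
  have h0 : (m + Finsupp.single 1 1 : Fin 2 →₀ ℕ) 0 = m 0 := by simp
  have h1 : (m + Finsupp.single 1 1 : Fin 2 →₀ ℕ) 1 = m 1 + 1 := by simp
  rw [coeff_E, tays_coeff, tays_coeff, h0, h1, Function.iterate_succ_apply,
    Nat.factorial_succ]
  have h2 : ((m 1 : ℂ) + 1) ≠ 0 := Nat.cast_add_one_ne_zero _
  have h3 : ((m 0).factorial : ℂ) ≠ 0 := Nat.cast_ne_zero.2 (Nat.factorial_ne_zero _)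
  have h4 : ((m 1).factorial : ℂ) ≠ 0 := Nat.cast_ne_zero.2 (Nat.factorial_ne_zero _)
  push_cast
  field_simp

private lemma tays_zero : tays_fun D1 D2 ev 0 = 0 := by
  have h := tays_smul D1 D2 ev 0 0
  rwa [zero_smul, zero_smul] at h

private lemma tays_one (hcomm : ∀ a, D1 (D2 a) = D2 (D1 a)) : tays_fun D1 D2 ev 1 = 1 := by
  rw [← sub_eq_zero]
  refine Ord.eq_zero fun n => ?_
  cases n with
  | zero => exact ord_zero _
  | succ n =>
    refine Ord.of_deriv ?_ fun k => ?_
    · rw [map_sub, tays_c0, map_one, map_one, sub_self]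
    · have hk : E k (tays_fun D1 D2 ev 1 - 1) = 0 := by
        rw [map_sub, Derivation.map_one_eq_zero, sub_zero]
        fin_cases k
        · change E 0 (tays_fun D1 D2 ev 1) = 0
          rw [tays_p1 D1 D2 ev hcomm, Derivation.map_one_eq_zero, tays_zero]
        · change E 1 (tays_fun D1 D2 ev 1) = 0
          rw [tays_p2 D1 D2 ev, Derivation.map_one_eq_zero, tays_zero]
      rw [hk]
      exact Ord.zero n

private lemma tays_ord_mul (hcomm : ∀ a, D1 (D2 a) = D2 (D1 a)) (n : ℕ) : ∀ f g : S,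
    Ord n (tays_fun D1 D2 ev (f * g) - tays_fun D1 D2 ev f * tays_fun D1 D2 ev g) := by
  induction n with
  | zero => exact fun f g => ord_zero _
  | succ n ih =>
    intro f g
    have key : ∀ (k : Fin 2) (D : Derivation ℂ S S),
        (∀ a, E k (tays_fun D1 D2 ev a) = tays_fun D1 D2 ev (D a)) →
        Ord n (E k (tays_fun D1 D2 ev (f * g) -
          tays_fun D1 D2 ev f * tays_fun D1 D2 ev g)) := by
      intro k D hD
      have h1 : E k (tays_fun D1 D2 ev (f * g) -
          tays_fun D1 D2 ev f * tays_fun D1 D2 ev g) =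
          (tays_fun D1 D2 ev (f * D g) - tays_fun D1 D2 ev f * tays_fun D1 D2 ev (D g)) +
          (tays_fun D1 D2 ev (g * D f) - tays_fun D1 D2 ev g * tays_fun D1 D2 ev (D f)) := by
        rw [map_sub, hD, Derivation.leibniz, Derivation.leibniz, hD, hD, smul_eq_mul,
          smul_eq_mul, smul_eq_mul, smul_eq_mul, tays_add]
        ring
      rw [h1]
      exact (ih f (D g)).add (ih g (D f))
    refine Ord.of_deriv ?_ fun k => ?_
    · rw [map_sub, map_mul, tays_c0, tays_c0, tays_c0, map_mul, sub_self]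
    · fin_cases k
      · exact key 0 D1 (tays_p1 D1 D2 ev hcomm)
      · exact key 1 D2 (tays_p2 D1 D2 ev)

private lemma tays_mul (hcomm : ∀ a, D1 (D2 a) = D2 (D1 a)) (f g : S) :
    tays_fun D1 D2 ev (f * g) = tays_fun D1 D2 ev f * tays_fun D1 D2 ev g := by
  rw [← sub_eq_zero]
  exact Ord.eq_zero fun n => tays_ord_mul D1 D2 ev hcomm n f g

end

/-- **Taylor homomorphism** with respect to two commuting derivations.  The coefficient number `m`
of `ts f` is `ev (D1^[m 0] (D2^[m 1] f)) / ((m 0)! * (m 1)!)`. -/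
theorem exists_ts {S : Type*} [CommRing S] [Algebra ℂ S] (D1 D2 : Derivation ℂ S S)
    (hcomm : ∀ a, D1 (D2 a) = D2 (D1 a)) (ev : S →ₐ[ℂ] ℂ) :
    ∃ ts : S →ₐ[ℂ] AA, IsTS D1 D2 ev ts := by
  let L : S →ₗ[ℂ] AA :=
    { toFun := tays_fun D1 D2 ev
      map_add' := tays_add D1 D2 ev
      map_smul' := tays_smul D1 D2 ev }
  exact ⟨AlgHom.ofLinearMap L (tays_one D1 D2 ev hcomm) (tays_mul D1 D2 ev hcomm),
    { c0 := tays_c0 D1 D2 ev
      p1 := tays_p1 D1 D2 ev hcomm
      p2 := tays_p2 D1 D2 ev }⟩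

end Pool.Agent.MP_ae5b4e_an_NB1C
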