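import Mathlib
import Pool.Agent.Lib.MP_ae5b4e_an_NB1C.ADefs

/-!
# MP_ae5b4e_an, NB_1, Lemma (4.1): telescoping
-/

noncomputable section

namespace Pool.Agent.MP_ae5b4e_an_NB1C

open Pool.Agent.MP_ae5b4e_an_NB1
open TopologicalSpace (Opens)
open MvPowerSeries (constantCoeff coeff)

/-- one step of the telescoping, for two derivations -/
private theorem tel_step {A k k' : Type*} [CommRing A] [CommRing k] [Algebra k A] [CommRing k']
    [Algebra k' A] (E : Derivation k A A) (D : Derivation k' A A) {x0 x1 x2 K : A}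
    (hrel : (x1 - x0) - (x2 - x1) = K * (x2 - x1) * (x1 - x0)) :
    (x1 - x0) ^ 2 * (D x1 * E x2 - D x2 * E x1) =
      (x2 - x1) ^ 2 * (D x0 * E x1 - D x1 * E x0) +
        (D K * E x1 - E K * D x1) * ((x1 - x0) ^ 2 * (x2 - x1) ^ 2) := by
  have hE := congrArg E hrel
  have hD := congrArg D hrel
  simp only [map_sub, Derivation.leibniz, smul_eq_mul] at hE hD
  linear_combination (-((x1 - x0) * (x2 - x1))) * (D x1 * hE - E x1 * hD) +
    ((D x1 * E x2 - D x2 * E x1) * (x1 - x0) + (x2 - x1) * (D x0 * E x1 - D x1 * E x0)) * hrel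

/-- **Telescoping**: with `ψ i = D (K i) - K' i * D (x (i + 1))` and
`η i = (D (x i) * E (x (i + 1)) - D (x (i + 1)) * E (x i)) / (x (i + 1) - x i) ^ 2` one has
`η (i + 1) - η i = ψ i * E (x (i + 1))`. -/
theorem tel {A k k' : Type*} [CommRing A] [IsDomain A] [CommRing k] [Algebra k A] [CommRing k']
    [Algebra k' A] {E : Derivation k A A} {D : Derivation k' A A} {M : ℕ} {x K K' : ℕ → A}
    (hne : ∀ i ≤ M + 1, x (i + 1) ≠ x i)
    (hrel : ∀ i ≤ M, (x (i + 1) - x i) - (x (i + 2) - x (i + 1)) =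
      K i * (x (i + 2) - x (i + 1)) * (x (i + 1) - x i))
    (hK : ∀ i ≤ M, E (K i) = K' i * E (x (i + 1)))
    (hD0 : D (x 0) = 0) (hD1 : D (x 1) = 0) (hDM : D (x (M + 1)) = 0)
    (hDM' : D (x (M + 2)) = 0) :
    ∑ i ∈ Finset.range (M + 1), (D (K i) - K' i * D (x (i + 1))) * E (x (i + 1)) = 0 := by
  have key : ∀ j ≤ M + 1,
      (∑ i ∈ Finset.range j, (D (K i) - K' i * D (x (i + 1))) * E (x (i + 1))) *
        (x (j + 1) - x j) ^ 2 = D (x j) * E (x (j + 1)) - D (x (j + 1)) * E (x j) := by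
    intro j
    induction j with
    | zero => intro _; simp [hD0, hD1]
    | succ j ih =>
      intro hj
      have h1 := ih (by omega)
      have h2 := tel_step E D (hrel j (by omega))
      have h3 := hK j (by omega)
      have h4 : (x (j + 1) - x j) ^ 2 ≠ 0 := pow_ne_zero 2 (sub_ne_zero.2 (hne j (by omega)))
      rw [Finset.sum_range_succ]
      apply mul_left_cancel₀ h4
      rw [← h1, h3] at h2
      linear_combination (-1 : A) * h2
  have h1 := key (M + 1) le_rfl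
  have h2 : (x (M + 1 + 1) - x (M + 1)) ^ 2 ≠ 0 :=
    pow_ne_zero 2 (sub_ne_zero.2 (hne (M + 1) le_rfl))
  have h3 : D (x (M + 1 + 1)) = 0 := hDM'
  rw [hDM, h3, zero_mul, zero_mul, sub_zero] at h1
  exact (mul_eq_zero.1 h1).resolve_right h2

/-- if all `ψ i` vanish then all `D (x i)` vanish -/
theorem tel_zero {A k k' : Type*} [CommRing A] [IsDomain A] [CommRing k] [Algebra k A]
    [CommRing k'] [Algebra k' A] {E : Fin 2 → Derivation k A A} {D : Derivation k' A A} {M : ℕ}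
    {x K K' : ℕ → A} (hne : ∀ i ≤ M + 1, x (i + 1) ≠ x i)
    (hrel : ∀ i ≤ M, (x (i + 1) - x i) - (x (i + 2) - x (i + 1)) =
      K i * (x (i + 2) - x (i + 1)) * (x (i + 1) - x i))
    (hK : ∀ k, ∀ i ≤ M, E k (K i) = K' i * E k (x (i + 1)))
    (hD0 : D (x 0) = 0) (hD1 : D (x 1) = 0)
    (hψ : ∀ i ≤ M, D (K i) = K' i * D (x (i + 1)))
    (hE : ∀ i ≤ M + 1, ∃ k, E k (x i) ≠ 0) :
    ∀ i ≤ M + 2, D (x i) = 0 := by
  have key : ∀ k, ∀ j ≤ M + 1, D (x j) * E k (x (j + 1)) - D (x (j + 1)) * E k (x j) = 0 := by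
    intro k j
    induction j with
    | zero => intro _; simp [hD0, hD1]
    | succ j ih =>
      intro hj
      have h1 := ih (by omega)
      have h2 := tel_step (E k) D (hrel j (by omega))
      have h4 : (x (j + 1) - x j) ^ 2 ≠ 0 := pow_ne_zero 2 (sub_ne_zero.2 (hne j (by omega)))
      rw [h1, hK k j (by omega), hψ j (by omega)] at h2
      have h5 : (x (j + 1) - x j) ^ 2 *
          (D (x (j + 1)) * E k (x (j + 1 + 1)) - D (x (j + 1 + 1)) * E k (x (j + 1))) = 0 := by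
        linear_combination h2
      exact (mul_eq_zero.1 h5).resolve_left h4
  intro i
  induction i with
  | zero => intro _; exact hD0
  | succ i ih =>
    intro hi
    obtain ⟨k, hk⟩ := hE i (by omega)
    have h1 := key k i (by omega)
    rw [ih (by omega), zero_mul, zero_sub, neg_eq_zero] at h1
    exact (mul_eq_zero.1 h1).resolve_right hk

/-- the Jacobian of `x i`, `x (i + 1)` -/
theorem jac_id {A k : Type*} [CommRing A] [IsDomain A] [CommRing k] [Algebra k A]
    {D1 D2 : Derivation k A A} {M : ℕ} {x K : ℕ → A}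
    (hne : ∀ i ≤ M + 1, x (i + 1) ≠ x i)
    (hrel : ∀ i ≤ M, (x (i + 1) - x i) - (x (i + 2) - x (i + 1)) =
      K i * (x (i + 2) - x (i + 1)) * (x (i + 1) - x i))
    (hwr : ∀ i ≤ M, D1 (K i) * D2 (x (i + 1)) = D2 (K i) * D1 (x (i + 1))) :
    ∀ i ≤ M + 1, (x 1 - x 0) ^ 2 * (D1 (x i) * D2 (x (i + 1)) - D2 (x i) * D1 (x (i + 1))) =
      (x (i + 1) - x i) ^ 2 * (D1 (x 0) * D2 (x 1) - D2 (x 0) * D1 (x 1)) := by
  intro i
  induction i with
  | zero => intro _; rfl
  | succ i ih =>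
    intro hi
    have h1 := ih (by omega)
    have h2 := tel_step D2 D1 (hrel i (by omega))
    have h3 := hwr i (by omega)
    have h4 : (x (i + 1) - x i) ^ 2 ≠ 0 := pow_ne_zero 2 (sub_ne_zero.2 (hne i (by omega)))
    apply mul_left_cancel₀ h4
    linear_combination (x 1 - x 0) ^ 2 * h2 + (x (i + 2) - x (i + 1)) ^ 2 * h1 +
      ((x 1 - x 0) ^ 2 * ((x (i + 1) - x i) ^ 2 * (x (i + 2) - x (i + 1)) ^ 2)) * h3

end Pool.Agent.MP_ae5b4e_an_NB1C
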