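import Mathlib
import Pool.Agent.Lib.MP_ae5b4e_an_NB1C.ADefs

/-!
# MP_ae5b4e_an, NB_1, Lemma (4.1): vanishing order
-/

noncomputable section

namespace Pool.Agent.MP_ae5b4e_an_NB1C

open Pool.Agent.MP_ae5b4e_an_NB1
open TopologicalSpace (Opens)
open MvPowerSeries (constantCoeff coeff)

/-- **Vanishing order**: if the coefficients of degree `< n` of the Taylor series vanish then the
function vanishes to the order `n` (induction on `n`: mean value inequality and `Coord.fd`). -/
theorem van_of_ord {U : Opens (ℂ × ℂ)} {D1 D2 : Derivation ℂ (RU U) (RU U)} {x u : RU U}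
    (hC : Coord D1 D2 x u) {q : ℂ × ℂ} (hq : q ∈ U) {ts : RU U →ₐ[ℂ] AA}
    (hts : IsTS D1 D2 (evU hq) ts) {n : ℕ} {f : RU U} (hf : Ord n (ts f)) : Van (fn f) q n := by
  induction n generalizing f with
  | zero =>
    have h1 : ContinuousAt (fn f) q := (fn_an f q hq).continuousAt
    refine ⟨‖fn f q‖ + 1, ?_⟩
    filter_upwards [h1.norm.eventually_lt continuousAt_const (lt_add_one ‖fn f q‖)] with y hy
    rw [pow_zero, mul_one]
    exact hy.le
  | succ n ih =>
    have h0 : fn f q = 0 := by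
      rw [← evU_apply hq, ← hts.c0]
      exact hf.const
    have hO1 : Ord n (ts (D1 f)) := by
      rw [← hts.p1]; exact hf.deriv 0
    have hO2 : Ord n (ts (D2 f)) := by
      rw [← hts.p2]; exact hf.deriv 1
    obtain ⟨C1, hC1⟩ := ih hO1
    obtain ⟨C2, hC2⟩ := ih hO2
    -- bounds for the derivatives of the coordinates
    have hbx : ∀ g : RU U, ∃ B : ℝ, ∀ᶠ y in nhds q, ‖fderiv ℂ (fn g) y‖ ≤ B := by
      intro g
      have h1 : ContinuousAt (fderiv ℂ (fn g)) q := (fn_an g q hq).fderiv.continuousAt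
      refine ⟨‖fderiv ℂ (fn g) q‖ + 1, ?_⟩
      filter_upwards [h1.norm.eventually_lt continuousAt_const
        (lt_add_one ‖fderiv ℂ (fn g) q‖)] with y hy using hy.le
    obtain ⟨Bx, hBx⟩ := hbx x
    obtain ⟨Bu, hBu⟩ := hbx u
    have hev : ∀ᶠ y in nhds q, ‖fn (D1 f) y‖ ≤ C1 * dist y q ^ n ∧ ‖fn (D2 f) y‖ ≤ C2 * dist y q ^ n ∧
        ‖fderiv ℂ (fn x) y‖ ≤ Bx ∧ ‖fderiv ℂ (fn u) y‖ ≤ Bu ∧ y ∈ U :=
      hC1.and (hC2.and (hBx.and (hBu.and (U.isOpen.mem_nhds hq))))
    obtain ⟨r, hr, hball⟩ := Metric.eventually_nhds_iff_ball.mp hev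
    have hBx0 : 0 ≤ Bx := (norm_nonneg _).trans (hball q (Metric.mem_ball_self hr)).2.2.1
    have hBu0 : 0 ≤ Bu := (norm_nonneg _).trans (hball q (Metric.mem_ball_self hr)).2.2.2.1
    set C : ℝ := |C1| * Bx + |C2| * Bu with hCdef
    have hC0 : 0 ≤ C := by positivity
    refine ⟨C, ?_⟩
    filter_upwards [Metric.ball_mem_nhds q hr] with y hy
    -- the segment from q to y
    have hseg : ∀ z ∈ segment ℝ q y, z ∈ Metric.ball q r ∧ dist z q ≤ dist y q := by
      intro z hz
      have h1 : z ∈ Metric.closedBall q (dist y q) :=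
        (convex_closedBall q (dist y q)).segment_subset
          (Metric.mem_closedBall_self dist_nonneg) (Metric.mem_closedBall.mpr le_rfl) hz
      rw [Metric.mem_closedBall] at h1
      exact ⟨Metric.mem_ball.mpr (h1.trans_lt (Metric.mem_ball.mp hy)), h1⟩
    have hfd : ∀ z ∈ segment ℝ q y, ‖fderiv ℂ (fn f) z‖ ≤ C * dist y q ^ n := by
      intro z hz
      obtain ⟨hz1, hz2⟩ := hseg z hz
      obtain ⟨a1, a2, a3, a4, a5⟩ := hball z hz1
      rw [hC.fd f z a5]
      have hp : dist z q ^ n ≤ dist y q ^ n := pow_le_pow_left₀ dist_nonneg hz2 n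
      have b1 : ‖fn (D1 f) z‖ ≤ |C1| * dist y q ^ n :=
        a1.trans ((mul_le_mul_of_nonneg_right (le_abs_self C1) (by positivity)).trans
          (mul_le_mul_of_nonneg_left hp (abs_nonneg _)))
      have b2 : ‖fn (D2 f) z‖ ≤ |C2| * dist y q ^ n :=
        a2.trans ((mul_le_mul_of_nonneg_right (le_abs_self C2) (by positivity)).trans
          (mul_le_mul_of_nonneg_left hp (abs_nonneg _)))
      calc ‖fn (D1 f) z • fderiv ℂ (fn x) z + fn (D2 f) z • fderiv ℂ (fn u) z‖
          ≤ ‖fn (D1 f) z‖ * ‖fderiv ℂ (fn x) z‖ + ‖fn (D2 f) z‖ * ‖fderiv ℂ (fn u) z‖ := by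
            refine (norm_add_le _ _).trans (add_le_add ?_ ?_)
            · exact norm_smul_le (fn (D1 f) z) (fderiv ℂ (fn x) z)
            · exact norm_smul_le (fn (D2 f) z) (fderiv ℂ (fn u) z)
        _ ≤ |C1| * dist y q ^ n * Bx + |C2| * dist y q ^ n * Bu :=
            add_le_add (mul_le_mul b1 a3 (norm_nonneg _) (by positivity))
              (mul_le_mul b2 a4 (norm_nonneg _) (by positivity))
        _ = C * dist y q ^ n := by rw [hCdef]; ring
    have hdiff : ∀ z ∈ segment ℝ q y, DifferentiableAt ℂ (fn f) z := fun z hz =>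
      (fn_an f z (hball z (hseg z hz).1).2.2.2.2).differentiableAt
    have hmv := (convex_segment q y).norm_image_sub_le_of_norm_fderiv_le (𝕜 := ℂ) hdiff hfd
      (left_mem_segment ℝ q y) (right_mem_segment ℝ q y)
    rw [h0, sub_zero, ← dist_eq_norm] at hmv
    calc ‖fn f y‖ ≤ C * dist y q ^ n * dist y q := hmv
      _ = C * dist y q ^ (n + 1) := by rw [pow_succ]; ring

end Pool.Agent.MP_ae5b4e_an_NB1C
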