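import Mathlib
import Pool.Agent.Lib.MP_ae5b4e_an_NB1C.ADefs
import Pool.Agent.Lib.MP_ae5b4e_an_NB1C.DerC
import Pool.Agent.Lib.MP_ae5b4e_an_NB1C.TayS
import Pool.Agent.Lib.MP_ae5b4e_an_NB1C.Tel
import Pool.Agent.Lib.MP_ae5b4e_an_NB1C.FRelA
import Pool.Agent.Lib.MP_ae5b4e_an_NB1C.VanA
import Pool.Agent.Lib.MP_ae5b4e_an_NB1C.DomU
import Pool.Agent.Lib.MP_ae5b4e_an_NB1C.Bai

/-!
# MP_ae5b4e_an, NB_1, Lemma (4.1): assembly
-/

noncomputable section

namespace Pool.Agent.MP_ae5b4e_an_NB1C

open Pool.Agent.MP_ae5b4e_an_NB1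
open TopologicalSpace (Opens)
open MvPowerSeries (constantCoeff coeff)

/-- Lemma (4.1) at one point -/
theorem alg_at {U : Opens (ℂ × ℂ)} (hU : IsPreconnected (U : Set (ℂ × ℂ)))
    (hne : (U : Set (ℂ × ℂ)).Nonempty) {D1 D2 : Derivation ℂ (RU U) (RU U)} {M : ℕ}
    {x K : ℕ → RU U} (hC : Coord D1 D2 (x 1) (x 1 - x 0)) (hP : Poly D1 D2 M x K)
    {q : ℂ × ℂ} (hq : q ∈ U) (hgen : ∀ i ≤ M + 1, fn (x (i + 1)) q ≠ fn (x i) q)
    (hno : ∀ φ : ℕ → PowerSeries ℂ, FRel M (fun j => fn (x (j + 1))) q φ → ∀ j ≤ M, φ j = 0) :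
    ∀ i ≤ M + 2, IsAlgebraic (kq D1 D2 M x q) (fn (x i) q) := by
  classical
  intro i₀ hi₀
  by_contra htr
  obtain ⟨D, hD0, hD1⟩ := exists_der (kq D1 D2 M x q) (fn (x i₀) q) htr
  obtain ⟨ts, hts⟩ := exists_ts D1 D2 hC.comm (evU hq)
  have hdom : IsDomain (RU U) := isDomain_ru hU hne
  have hdomA : IsDomain AA := NoZeroDivisors.to_isDomain _
  -- the jacobians
  have hjac := jac_id (D1 := D1) (D2 := D2) hP.ne hP.rel hP.wr
  have e10 : D1 (x 0) = 1 := by
    have h := hP.u1
    rw [map_sub, hP.x1, sub_eq_zero] at h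
    exact h.symm
  have e20 : D2 (x 0) = -1 := by
    have h := hP.u2
    rw [map_sub, hP.x2, zero_sub] at h
    rw [← h, neg_neg]
  -- at `q` one of the derivatives of `x i` does not vanish
  have hEx : ∀ i ≤ M + 2, ∃ k, constantCoeff (E k (ts (x i))) ≠ 0 := by
    have key : ∀ i ≤ M + 1, (constantCoeff (E 0 (ts (x i))) * constantCoeff (E 1 (ts (x (i + 1)))) -
        constantCoeff (E 1 (ts (x i))) * constantCoeff (E 0 (ts (x (i + 1))))) ≠ 0 := by
      intro i hi h0
      have h1 := congrArg (evU hq) (hjac i hi)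
      rw [map_mul, map_sub, map_mul, map_mul, ← hts.c0 (D1 (x i)), ← hts.p1,
        ← hts.c0 (D2 (x (i + 1))), ← hts.p2, ← hts.c0 (D2 (x i)), ← hts.p2,
        ← hts.c0 (D1 (x (i + 1))), ← hts.p1, h0, mul_zero, map_mul, map_pow, map_sub, map_sub,
        map_mul, map_mul, e10, e20, hP.x1, hP.x2] at h1
      simp only [map_one, map_zero, map_neg] at h1
      have h2 := sub_ne_zero.2 (hgen i hi)
      rw [← evU_apply hq, ← evU_apply hq] at h2
      have h3 := pow_ne_zero 2 h2
      apply h3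
      rw [eq_comm] at h1
      simpa using h1
    intro i hi
    by_contra hcon
    push Not at hcon
    rcases Nat.lt_or_ge i (M + 2) with h | h
    · apply key i (by omega)
      rw [hcon 0, hcon 1]
      ring
    · obtain rfl : i = M + 1 + 1 := by omega
      apply key (M + 1) le_rfl
      rw [hcon 0, hcon 1]
      ring
  set X : ℕ → AA := fun i => ts (x i) with hX
  set KK : ℕ → AA := fun i => ts (K i) with hKK
  -- the sequences of derivatives
  have hseq : ∀ j, ∃ s : ℕ → AA, j ≤ M → s 0 = KK j ∧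
      ∀ n i, E i (s n) = s (n + 1) * E i (X (j + 1)) := by
    intro j
    by_cases hj : j ≤ M
    · obtain ⟨k, hk⟩ := hEx (j + 1) (by omega)
      obtain ⟨s, hs⟩ := exists_seq (f := KK j) (X := X (j + 1)) (k := k) (by
        rw [hX, hKK]
        simp only
        rw [hts.p1, hts.p2, hts.p2, hts.p1, ← map_mul, ← map_mul, hP.wr j hj]) hk
      exact ⟨s, fun _ => hs⟩
    · exact ⟨0, fun h => absurd h hj⟩
  choose s hs using hseq
  -- `D` kills the ends
  have hker : ∀ j : ℕ, (j = 0 ∨ j = 1 ∨ j = M + 1 ∨ j = M + 2) → cder D (X j) = 0 := by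
    intro j hj
    ext m
    rw [coeff_cder, map_zero]
    have hcoef : ∀ (a b : ℕ) (f : AA), ∃ c : ℂ, D c = 0 ∧ c ≠ 0 ∧
        c * coeff (Finsupp.single 0 a + Finsupp.single 1 b) f =
          constantCoeff ((E 0)^[a] ((E 1)^[b] f)) := by
      intro a b f
      -- first the `E 1`, then the `E 0`
      have hA : ∀ (k : Fin 2) (a : ℕ) (m : Fin 2 →₀ ℕ) (f : AA), ∃ c : ℂ, D c = 0 ∧ c ≠ 0 ∧
          coeff m ((E k)^[a] f) = c * coeff (m + Finsupp.single k a) f := by
        intro k a
        induction a with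
        | zero =>
          intro m f
          exact ⟨1, Derivation.map_one_eq_zero _, one_ne_zero, by simp⟩
        | succ a ih =>
          intro m f
          obtain ⟨c, hc0, hc1, hc⟩ := ih m (E k f)
          refine ⟨c * (((m + Finsupp.single k a) k : ℂ) + 1), ?_, ?_, ?_⟩
          · rw [Derivation.leibniz, hc0, smul_zero, add_zero, map_add,
              Derivation.map_natCast, Derivation.map_one_eq_zero, add_zero, smul_zero]
          · exact mul_ne_zero hc1 (Nat.cast_add_one_ne_zero _)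
          · rw [Function.iterate_succ_apply, hc, coeff_E, add_assoc, ← Finsupp.single_add]
            ring
      obtain ⟨c, hc0, hc1, hc⟩ := hA 0 a 0 ((E 1)^[b] f)
      obtain ⟨c', hc0', hc1', hc'⟩ := hA 1 b (0 + Finsupp.single 0 a) f
      refine ⟨c * c', ?_, mul_ne_zero hc1 hc1', ?_⟩
      · rw [Derivation.leibniz, hc0, hc0', smul_zero, smul_zero, add_zero]
      · rw [← MvPowerSeries.coeff_zero_eq_constantCoeff_apply, hc, hc', zero_add]
        ring
    have hit : ∀ (a b : ℕ) (f : RU U), (E 0)^[a] ((E 1)^[b] (ts f)) = ts (D1^[a] (D2^[b] f)) := by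
      intro a b f
      have h1 : ∀ (b : ℕ) (f : RU U), (E 1)^[b] (ts f) = ts (D2^[b] f) := by
        intro b
        induction b with
        | zero => intro f; rfl
        | succ b ih => intro f; rw [Function.iterate_succ_apply, Function.iterate_succ_apply,
            hts.p2, ih]
      have h0 : ∀ (b : ℕ) (f : RU U), (E 0)^[b] (ts f) = ts (D1^[b] f) := by
        intro b
        induction b with
        | zero => intro f; rfl
        | succ b ih => intro f; rw [Function.iterate_succ_apply, Function.iterate_succ_apply,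
            hts.p1, ih]
      rw [h1, h0]
    have hm : m = Finsupp.single 0 (m 0) + Finsupp.single 1 (m 1) := by
      ext k
      fin_cases k <;> simp
    obtain ⟨c, hc0, hc1, hc⟩ := hcoef (m 0) (m 1) (X j)
    rw [← hm] at hc
    have h3 : D (constantCoeff ((E 0)^[m 0] ((E 1)^[m 1] (X j)))) = 0 := by
      rw [hX]
      simp only
      rw [hit, hts.c0, evU_apply]
      exact hD0 _ (Subfield.subset_closure ⟨m 0, m 1, j, hj, rfl⟩)
    rw [← hc, Derivation.leibniz, hc0, smul_zero, add_zero, smul_eq_mul] at h3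
    exact (mul_eq_zero.1 h3).resolve_left hc1
  -- the relations in `AA`
  have hinj : ∀ i ≤ M + 1, X (i + 1) ≠ X i := by
    intro i hi h
    apply hgen i hi
    have h1 := congrArg constantCoeff h
    rw [hX] at h1
    simp only at h1
    rwa [hts.c0, hts.c0, evU_apply, evU_apply] at h1
  have hrelA : ∀ i ≤ M, (X (i + 1) - X i) - (X (i + 2) - X (i + 1)) =
      KK i * (X (i + 2) - X (i + 1)) * (X (i + 1) - X i) := by
    intro i hi
    rw [hX, hKK]
    simp only
    rw [← map_sub, ← map_sub, ← map_sub, ← map_mul, ← map_mul, hP.rel i hi]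
  set Y : ℕ → AA := fun j => X (j + 1) - MvPowerSeries.C (fn (x (j + 1)) q) with hY
  have hEY : ∀ i j, E i (Y j) = E i (X (j + 1)) := by
    intro i j
    rw [hY]
    simp only
    rw [map_sub]
    have : E i (MvPowerSeries.C (fn (x (j + 1)) q)) = 0 := by
      exact (E i).map_algebraMap (fn (x (j + 1)) q)
    rw [this, sub_zero]
  set ψ : ℕ → ℕ → AA := fun j n => cder D (s j n) - s j (n + 1) * cder D (X (j + 1)) with hψ
  have hψ1 : ∀ j ≤ M, ∀ n i, E i (ψ j n) = ψ j (n + 1) * E i (Y j) := by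
    intro j hj n i
    rw [hEY]
    exact seq_der (hs j hj).2 n i
  have hψ0 : ∀ i, ∑ j ∈ Finset.range (M + 1), ψ j 0 * E i (Y j) = 0 := by
    intro i
    have h := tel (E := E i) (D := cder D) (M := M) (x := X) (K := KK) (K' := fun j => s j 1)
      hinj hrelA (fun j hj => by
        have h := (hs j hj).2 0 i
        rwa [(hs j hj).1, zero_add] at h)
      (hker 0 (by omega)) (hker 1 (by omega)) (hker _ (by omega)) (hker _ (by omega))
    rw [← h]
    refine Finset.sum_congr rfl fun j hj => ?_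
    have hj' : j ≤ M := by
      have := Finset.mem_range.1 hj
      omega
    rw [hEY, hψ]
    simp only
    rw [(hs j hj').1, zero_add]
    rfl
  obtain ⟨φ, hφ0, hφ1, hφ2⟩ := exists_frel (M := M) (Y := Y) (ψ := ψ) (fun j _ => by
    rw [hY, hX]
    simp only
    rw [map_sub, hts.c0, evU_apply, MvPowerSeries.constantCoeff_C, sub_self]) hψ1 hψ0
  have hφ3 := hno φ ⟨fun j _ => hφ0 j, fun n => by
    have h1 : Ord (n + 1) (ts (∑ j ∈ Finset.range (M + 1),
        Polynomial.aeval (x (j + 1) - algebraMap ℂ (RU U) (fn (x (j + 1)) q))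
          ((φ j).trunc (n + 1)))) := by
      have h2 := hφ1 n
      rw [map_sum]
      refine (congrArg (Ord (n + 1)) (Finset.sum_congr rfl fun j _ => ?_)).mp h2
      rw [← Polynomial.aeval_algHom_apply, map_sub]
      congr 2
      rw [hY]
      simp only
      congr 1
      rw [ts.commutes]
      rfl
    have h2 := van_of_ord hC hq hts h1
    obtain ⟨C, hC'⟩ := h2
    refine ⟨C, ?_⟩
    filter_upwards [hC', U.isOpen.mem_nhds hq] with y hy hyU
    refine le_trans (le_of_eq (congrArg norm ?_)) hy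
    rw [← evU_apply hyU, map_sum]
    refine Finset.sum_congr rfl fun j _ => ?_
    rw [← Polynomial.aeval_algHom_apply, map_sub, AlgHom.commutes, evU_apply,
      Polynomial.coe_aeval_eq_eval]
    rfl⟩
  have hψ2 : ∀ j ≤ M, ψ j 0 = 0 := fun j hj => hφ2 j hj (hφ3 j hj)
  have hall := tel_zero (E := E) (D := cder D) (M := M) (x := X) (K := KK) (K' := fun j => s j 1)
    hinj hrelA (fun k j hj => by
      have h := (hs j hj).2 0 k
      rwa [(hs j hj).1, zero_add] at h) (hker 0 (by omega)) (hker 1 (by omega))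
    (fun j hj => by
      have h := hψ2 j hj
      rw [hψ] at h
      simp only at h
      rwa [(hs j hj).1, zero_add, sub_eq_zero] at h)
    (fun i hi => by
      obtain ⟨k, hk⟩ := hEx i (by omega)
      refine ⟨k, fun h => hk ?_⟩
      rw [show ts (x i) = X i from rfl, h, map_zero])
  have hlast : D (constantCoeff (ts (x i₀))) = 0 := by
    have h1 := congrArg (coeff (0 : Fin 2 →₀ ℕ)) (hall i₀ hi₀)
    exact h1
  rw [hts.c0, evU_apply, hD1] at hlast
  exact one_ne_zero hlast

end Pool.Agent.MP_ae5b4e_an_NB1C
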