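import Mathlib
import Pool.Agent.Lib.MP_ae5b4e_an_NB1C.AlgQ

/-!
# MP_ae5b4e_an, NB_1: Lemma (4.1)
-/

noncomputable section

namespace Pool.Agent.MP_ae5b4e_an_NB1C

open Pool.Agent.MP_ae5b4e_an_NB1
open TopologicalSpace (Opens)

/-- **Lemma (4.1)**: without formal relations all points are algebraic over the ends. -/
theorem alg41 {U : Opens (ℂ × ℂ)} (hU : IsPreconnected (U : Set (ℂ × ℂ)))
    (hne : (U : Set (ℂ × ℂ)).Nonempty) {D1 D2 : Derivation ℂ (RU U) (RU U)} {M : ℕ}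
    {x K : ℕ → RU U} (hM : 2 ≤ M) (hC : Coord D1 D2 (x 1) (x 1 - x 0)) (hP : Poly D1 D2 M x K)
    (hno : ∀ q ∈ U, ∀ φ : ℕ → PowerSeries ℂ, FRel M (fun j => fn (x (j + 1))) q φ →
      ∀ j ≤ M, φ j = 0)
    {S₀ : Subalgebra ℂ (RU U)} (hE : Ends D1 D2 M x S₀) :
    ∀ i ≤ M + 2, IsAlgebraic S₀ (x i) := by
  classical
  intro i hi
  obtain ⟨V, hV, hVU, hVne, hVgen⟩ := exists_open_ne hU hne (Finset.range (M + 2))
    (f := fun i => x (i + 1) - x i) (fun i hi => sub_ne_zero.2 (hP.ne i (by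
      have := Finset.mem_range.1 hi
      omega)))
  let T : Set (RU U) := {f | ∃ a b j : ℕ, (j = 0 ∨ j = 1 ∨ j = M + 1 ∨ j = M + 2) ∧
    f = D1^[a] (D2^[b] (x j))}
  have hT : T.Countable := by
    have : T ⊆ Set.range (fun p : ℕ × ℕ × ℕ => D1^[p.1] (D2^[p.2.1] (x p.2.2))) := by
      rintro f ⟨a, b, j, -, rfl⟩
      exact ⟨(a, b, j), rfl⟩
    exact (Set.countable_range _).mono this
  refine alg_of_pointwise hU hV hVU hVne hT (fun q hq => ?_) (S₀ := S₀) ?_
  · have hqU := hVU hq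
    have h := alg_at hU hne hC hP hqU (fun i hi => by
      have h := hVgen q hq i (Finset.mem_range.2 (by omega))
      rw [← evU_apply hqU, map_sub, evU_apply, evU_apply] at h
      exact sub_ne_zero.1 h) (hno q hqU) i hi
    have hset : kq D1 D2 M x q = Subfield.closure ((fun g : RU U => fn g q) '' T) := by
      rw [kq]
      congr 1
      ext c
      constructor
      · rintro ⟨a, b, j, hj, rfl⟩
        exact ⟨_, ⟨a, b, j, hj, rfl⟩, rfl⟩
      · rintro ⟨f, ⟨a, b, j, hj, rfl⟩, rfl⟩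
        exact ⟨a, b, j, hj, rfl⟩
    rw [← hset]
    exact h
  · rintro f ⟨a, b, j, hj, rfl⟩
    have hxj : x j ∈ S₀ := by
      rcases hj with rfl | rfl | rfl | rfl
      · exact hE.m0
      · exact hE.m1
      · exact hE.mM
      · exact hE.mM'
    have h2 : ∀ (b : ℕ) (f : RU U), f ∈ S₀ → D2^[b] f ∈ S₀ := by
      intro b
      induction b with
      | zero => intro f hf; exact hf
      | succ b ih => intro f hf; rw [Function.iterate_succ_apply]; exact ih _ (hE.d2 _ hf)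
    have h1 : ∀ (b : ℕ) (f : RU U), f ∈ S₀ → D1^[b] f ∈ S₀ := by
      intro b
      induction b with
      | zero => intro f hf; exact hf
      | succ b ih => intro f hf; rw [Function.iterate_succ_apply]; exact ih _ (hE.d1 _ hf)
    exact h1 a _ (h2 b _ hxj)

end Pool.Agent.MP_ae5b4e_an_NB1C
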