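import Mathlib
import Pool.Agent.Lib.MP_ae5b4e_an_NB1.Defs
import Pool.Agent.Lib.MP_ae5b4e_an_NB1C.ADefs

/-!
# MP_ae5b4e_an, NB_1, formal part of case I: definitions

`Dc d`: the coefficientwise extension of the derivation `d` to power series; `DF d Ω dX dU`: `Ω` is
a field which contains `R⟦X⟧` and `dX`, `dU` are derivations of `Ω` which extend `Dc d` and the
derivative; `KR R Ω`: the subfield of quotients of power series.
-/

noncomputable section

namespace Pool.Agent.MP_ae5b4e_an_NB1C

open Pool.Agent.MP_ae5b4e_an_NB1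
open PowerSeries (constantCoeff coeff derivative)

/-- coefficientwise extension of a derivation to power series -/
def Dc {R : Type*} [CommRing R] (d : Derivation ℤ R R) :
    Derivation ℤ (PowerSeries R) (PowerSeries R) := cder d

lemma coeff_Dc {R : Type*} [CommRing R] (d : Derivation ℤ R R) (f : PowerSeries R) (n : ℕ) :
    coeff n (Dc d f) = d (coeff n f) := rfl

/-- `Ω` is a field which contains `R⟦X⟧`, with two derivations -/
structure DF {R : Type*} [Field R] (d : Derivation ℤ R R) (Ω : Type*) [Field Ω]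
    [Algebra (PowerSeries R) Ω] (dX dU : Derivation ℤ Ω Ω) : Prop where
  inj : Function.Injective (algebraMap (PowerSeries R) Ω)
  hX : ∀ f : PowerSeries R, dX (algebraMap _ Ω f) = algebraMap _ Ω (Dc d f)
  hU : ∀ f : PowerSeries R, dU (algebraMap _ Ω f) = algebraMap _ Ω (derivative R f)

/-- the subfield of quotients of power series -/
def KR (R : Type*) [Field R] (Ω : Type*) [Field Ω] [Algebra (PowerSeries R) Ω] : Subfield Ω :=
  Subfield.closure (Set.range (algebraMap (PowerSeries R) Ω))

lemma mem_KR {R : Type*} [Field R] {Ω : Type*} [Field Ω] [Algebra (PowerSeries R) Ω] (y : Ω) :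
    y ∈ KR R Ω ↔ ∃ a b : PowerSeries R, y = algebraMap _ Ω a / algebraMap _ Ω b := by
  rw [KR, Subfield.mem_closure_iff]
  have h : Subring.closure (Set.range (algebraMap (PowerSeries R) Ω)) =
      (algebraMap (PowerSeries R) Ω).range := by
    rw [← RingHom.coe_range, Subring.closure_eq]
  rw [h]
  constructor
  · rintro ⟨_, ⟨a, rfl⟩, _, ⟨b, rfl⟩, rfl⟩
    exact ⟨a, b, rfl⟩
  · rintro ⟨a, b, rfl⟩
    exact ⟨_, ⟨a, rfl⟩, _, ⟨b, rfl⟩, rfl⟩

end Pool.Agent.MP_ae5b4e_an_NB1C
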