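import Mathlib
import Pool.Agent.Lib.MP_ae5b4e_an_NB1C.BDefs

/-!
# MP_ae5b4e_an, NB_1, formal part of case I: Taylor expansion
-/

noncomputable section

namespace Pool.Agent.MP_ae5b4e_an_NB1C

open Pool.Agent.MP_ae5b4e_an_NB1
open Pool.Agent.LAT (tay TChain)
open Pool.Agent.Lib.Puiseux (rot subst)
open PowerSeries (constantCoeff coeff derivative)

section aux

variable {R : Type*} [Field R]

private def tayr_a (d : Derivation ℤ R R) (m : ℕ) (f : R) : R :=
  (m.factorial : R)⁻¹ * (d^[m] f)

private def tayr_S (d : Derivation ℤ R R) (h : PowerSeries R) (N : ℕ) (f : R) : PowerSeries R :=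
  ∑ m ∈ Finset.range N, PowerSeries.C (tayr_a d m f) * h ^ m

private lemma tayr_pow {h : PowerSeries R} (hh : constantCoeff h = 0) {n m : ℕ} (hnm : n < m) :
    coeff n (h ^ m) = 0 := by
  have h1 : (PowerSeries.X : PowerSeries R) ∣ h := PowerSeries.X_dvd_iff.2 hh
  have h2 : (PowerSeries.X : PowerSeries R) ^ m ∣ h ^ m := pow_dvd_pow_of_dvd h1 m
  exact (PowerSeries.X_pow_dvd_iff.1 h2) n hnm

private lemma tayr_coeff (d : Derivation ℤ R R) {h : PowerSeries R} (hh : constantCoeff h = 0)
    (f : R) {n N : ℕ} (hN : n < N) : coeff n (tay d h f) = coeff n (tayr_S d h N f) := by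
  unfold tay tayr_S
  rw [PowerSeries.coeff_mk, map_sum]
  have h1 : ∀ m ∈ Finset.range N, coeff n (PowerSeries.C (tayr_a d m f) * h ^ m)
      = ((m.factorial : R)⁻¹ * (d^[m] f)) * coeff n (h ^ m) := by
    intro m _
    rw [PowerSeries.coeff_C_mul]
    rfl
  rw [Finset.sum_congr rfl h1]
  apply Finset.sum_subset
  · intro m hm
    rw [Finset.mem_range] at hm ⊢
    omega
  · intro m _ hm
    rw [Finset.mem_range] at hm
    rw [tayr_pow hh (by omega), mul_zero]

private lemma tayr_mul_congr {F G : PowerSeries R} (K : PowerSeries R) {n : ℕ}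
    (hFG : ∀ i ≤ n, coeff i F = coeff i G) : coeff n (F * K) = coeff n (G * K) := by
  rw [PowerSeries.coeff_mul, PowerSeries.coeff_mul]
  refine Finset.sum_congr rfl fun p hp => ?_
  have h := Finset.HasAntidiagonal.mem_antidiagonal.1 hp
  rw [hFG p.1 (by omega)]

private lemma tayr_a_succ [CharZero R] (d : Derivation ℤ R R) (m : ℕ) (f : R) :
    tayr_a d (m + 1) f * ((m : R) + 1) = tayr_a d m (d f) := by
  unfold tayr_a
  rw [Function.iterate_succ_apply, Nat.factorial_succ, Nat.cast_mul, Nat.cast_succ]
  have h1 : ((m : R) + 1) ≠ 0 := Nat.cast_add_one_ne_zero m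
  have h2 : (m.factorial : R) ≠ 0 := Nat.cast_ne_zero.2 (Nat.factorial_ne_zero m)
  field_simp

private lemma tayr_d_a (d : Derivation ℤ R R) (m : ℕ) (f : R) :
    d (tayr_a d m f) = tayr_a d m (d f) := by
  unfold tayr_a
  have h0 : d ((m.factorial : R)⁻¹) = 0 := by
    rw [Derivation.leibniz_inv, Derivation.map_natCast, smul_zero]
  have h1 : d (d^[m] f) = d^[m] (d f) :=
    (Function.iterate_succ_apply' (⇑d) m f).symm.trans (Function.iterate_succ_apply (⇑d) m f)
  rw [Derivation.leibniz, h0, smul_zero, add_zero, smul_eq_mul, h1]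

private lemma tayr_S_derivative [CharZero R] (d : Derivation ℤ R R) (h : PowerSeries R) (N : ℕ)
    (f : R) : derivative R (tayr_S d h (N + 1) f) = tayr_S d h N (d f) * derivative R h := by
  unfold tayr_S
  rw [map_sum, Finset.sum_range_succ', pow_zero, mul_one, PowerSeries.derivative_C, add_zero,
    Finset.sum_mul]
  refine Finset.sum_congr rfl fun m _ => ?_
  rw [Derivation.leibniz, PowerSeries.derivative_C, smul_zero, add_zero,
    PowerSeries.derivative_pow, ← tayr_a_succ, map_mul, smul_eq_mul, map_add, map_natCast, map_one,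
    Nat.add_sub_cancel, Nat.cast_succ]
  ring

private lemma tayr_S_Dc [CharZero R] (d : Derivation ℤ R R) (h : PowerSeries R) (N : ℕ)
    (f : R) : Dc d (tayr_S d h (N + 1) f) =
      tayr_S d h (N + 1) (d f) + tayr_S d h N (d f) * Dc d h := by
  have hC : ∀ a : R, Dc d (PowerSeries.C a) = PowerSeries.C (d a) := by
    intro a
    ext n
    rw [coeff_Dc, PowerSeries.coeff_C, PowerSeries.coeff_C]
    split_ifs
    · rfl
    · exact map_zero d
  have h1 : ∀ m, Dc d (PowerSeries.C (tayr_a d m f) * h ^ m) =
      PowerSeries.C (tayr_a d m (d f)) * h ^ m +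
        PowerSeries.C (tayr_a d m f) * ((m : PowerSeries R) * h ^ (m - 1) * Dc d h) := by
    intro m
    rw [Derivation.leibniz, hC, tayr_d_a, Derivation.leibniz_pow]
    simp only [smul_eq_mul, nsmul_eq_mul]
    ring
  unfold tayr_S
  rw [map_sum, Finset.sum_congr rfl (fun m _ => h1 m), Finset.sum_add_distrib]
  congr 1
  rw [Finset.sum_range_succ', Finset.sum_mul]
  simp only [Nat.cast_zero, zero_mul, mul_zero, add_zero]
  refine Finset.sum_congr rfl fun m _ => ?_
  rw [← tayr_a_succ, map_mul, map_add, map_natCast, map_one, Nat.add_sub_cancel, Nat.cast_succ]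
  ring

private lemma tayr_coeff_add (d : Derivation ℤ R R) {h : PowerSeries R} (f g : R) :
    tay d h (f + g) = tay d h f + tay d h g := by
  have hit : ∀ m : ℕ, d^[m] (f + g) = d^[m] f + d^[m] g := by
    intro m
    induction m with
    | zero => rfl
    | succ m ih => rw [Function.iterate_succ_apply', ih, map_add, Function.iterate_succ_apply',
        Function.iterate_succ_apply']
  ext n
  rw [map_add]
  unfold tay
  rw [PowerSeries.coeff_mk, PowerSeries.coeff_mk, PowerSeries.coeff_mk, ← Finset.sum_add_distrib]
  refine Finset.sum_congr rfl fun m _ => ?_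
  rw [hit]
  ring

private lemma tayr_zero_arg (d : Derivation ℤ R R) (h : PowerSeries R) : tay d h 0 = 0 := by
  have h1 := tayr_coeff_add d (h := h) 0 0
  rw [add_zero] at h1
  exact left_eq_add.1 h1

end aux

theorem tay_constantCoeff {R : Type*} [Field R] (d : Derivation ℤ R R) {h : PowerSeries R}
    (f : R) : constantCoeff (tay d h f) = f := by
  rw [← PowerSeries.coeff_zero_eq_constantCoeff_apply]
  unfold tay
  rw [PowerSeries.coeff_mk]
  simp

theorem tay_zero {R : Type*} [Field R] (d : Derivation ℤ R R) (f : R) :
    tay d 0 f = PowerSeries.C f := by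
  ext n
  unfold tay
  rw [PowerSeries.coeff_mk, Finset.sum_range_succ']
  have h1 : ∀ m ∈ Finset.range n, (((m + 1).factorial : R)⁻¹ * (d^[m + 1] f)) *
      coeff n ((0 : PowerSeries R) ^ (m + 1)) = 0 := by
    intro m _
    rw [zero_pow (Nat.succ_ne_zero m), map_zero, mul_zero]
  rw [Finset.sum_congr rfl h1, Finset.sum_const_zero, zero_add, pow_zero, PowerSeries.coeff_one,
    PowerSeries.coeff_C]
  simp

/-- chain rule for the derivative -/
theorem tay_derivative {R : Type*} [Field R] [CharZero R] (d : Derivation ℤ R R)
    {h : PowerSeries R} (hh : constantCoeff h = 0) (f : R) :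
    derivative R (tay d h f) = tay d h (d f) * derivative R h := by
  ext n
  rw [PowerSeries.coeff_derivative, tayr_coeff d hh f (n := n + 1) (N := n + 1 + 1) (by omega),
    ← PowerSeries.coeff_derivative, tayr_S_derivative]
  exact tayr_mul_congr _ fun i hi => (tayr_coeff d hh (d f) (by omega)).symm

/-- chain rule for the coefficientwise derivation -/
theorem tay_Dc {R : Type*} [Field R] [CharZero R] (d : Derivation ℤ R R)
    {h : PowerSeries R} (hh : constantCoeff h = 0) (f : R) :
    Dc d (tay d h f) = tay d h (d f) * (1 + Dc d h) := by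
  ext n
  rw [coeff_Dc, tayr_coeff d hh f (n := n) (N := n + 1 + 1) (by omega), ← coeff_Dc, tayr_S_Dc,
    mul_add, mul_one, map_add, map_add, ← tayr_coeff d hh (d f) (by omega)]
  congr 1
  exact tayr_mul_congr _ fun i hi => (tayr_coeff d hh (d f) (by omega)).symm

private lemma tayr_mul {R : Type*} [Field R] [CharZero R] (d : Derivation ℤ R R)
    {h : PowerSeries R} (hh : constantCoeff h = 0) (n : ℕ) :
    ∀ f g : R, ∀ m < n, coeff m (tay d h (f * g)) = coeff m (tay d h f * tay d h g) := by
  induction n with
  | zero =>
    intro f g m hm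
    omega
  | succ n ih =>
    intro f g m hm
    rcases m with _ | m
    · rw [PowerSeries.coeff_zero_eq_constantCoeff_apply,
        PowerSeries.coeff_zero_eq_constantCoeff_apply, map_mul, tay_constantCoeff,
        tay_constantCoeff, tay_constantCoeff]
    · have h1 : coeff m (derivative R (tay d h (f * g))) =
          coeff m (derivative R (tay d h f * tay d h g)) := by
        rw [tay_derivative d hh, Derivation.leibniz, Derivation.leibniz, tay_derivative d hh,
          tay_derivative d hh, tayr_coeff_add, add_mul, map_add, map_add, smul_eq_mul, smul_eq_mul,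
          smul_eq_mul, smul_eq_mul]
        have h2 : coeff m (tay d h (f * d g) * derivative R h) =
            coeff m (tay d h f * (tay d h (d g) * derivative R h)) := by
          rw [← mul_assoc]
          exact tayr_mul_congr _ fun i hi => ih f (d g) i (by omega)
        have h3 : coeff m (tay d h (g * d f) * derivative R h) =
            coeff m (tay d h g * (tay d h (d f) * derivative R h)) := by
          rw [← mul_assoc]
          exact tayr_mul_congr _ fun i hi => ih g (d f) i (by omega)
        rw [h2, h3]
      rw [PowerSeries.coeff_derivative, PowerSeries.coeff_derivative] at h1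
      exact mul_right_cancel₀ (Nat.cast_add_one_ne_zero m) h1

/-- **Taylor expansion is a ring homomorphism** (`h` without constant term). -/
theorem exists_tayHom {R : Type*} [Field R] [CharZero R] (d : Derivation ℤ R R)
    {h : PowerSeries R} (hh : constantCoeff h = 0) :
    ∃ T : R →+* PowerSeries R, ∀ f, T f = tay d h f := by
  have hone : tay d h 1 = 1 := by
    ext n
    rcases n with _ | n
    · rw [PowerSeries.coeff_zero_eq_constantCoeff_apply, tay_constantCoeff,
        PowerSeries.coeff_zero_eq_constantCoeff_apply, map_one]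
    · have h1 : coeff n (derivative R (tay d h 1)) = 0 := by
        rw [tay_derivative d hh, Derivation.map_one_eq_zero, tayr_zero_arg, zero_mul, map_zero]
      rw [PowerSeries.coeff_derivative] at h1
      rw [PowerSeries.coeff_one, if_neg (Nat.succ_ne_zero n)]
      rcases mul_eq_zero.1 h1 with h2 | h2
      · exact h2
      · exact absurd h2 (Nat.cast_add_one_ne_zero n)
  refine ⟨{ toFun := fun f => tay d h f
            map_one' := hone
            map_mul' := fun f g => ?_
            map_zero' := tayr_zero_arg d h
            map_add' := fun f g => tayr_coeff_add d f g }, fun f => rfl⟩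
  ext n
  exact tayr_mul d hh (n + 1) f g n (Nat.lt_succ_self n)

/-- naturality -/
theorem tay_map {R R' : Type*} [Field R] [Field R'] {d : Derivation ℤ R R}
    {d' : Derivation ℤ R' R'} (φ : R →+* R') (hφ : ∀ f, φ (d f) = d' (φ f)) (h : PowerSeries R)
    (f : R) : PowerSeries.map φ (tay d h f) = tay d' (PowerSeries.map φ h) (φ f) := by
  have hit : ∀ m : ℕ, φ (d^[m] f) = d'^[m] (φ f) := by
    intro m
    induction m with
    | zero => rfl
    | succ m ih => rw [Function.iterate_succ_apply', hφ, ih, Function.iterate_succ_apply']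
  ext n
  rw [PowerSeries.coeff_map]
  unfold tay
  rw [PowerSeries.coeff_mk, PowerSeries.coeff_mk, map_sum]
  refine Finset.sum_congr rfl fun m _ => ?_
  rw [map_mul, map_mul, map_inv₀, map_natCast, hit, ← map_pow, PowerSeries.coeff_map]

/-- **Uniqueness**: a power series which is a function of `z + h` is a Taylor expansion. -/
theorem eq_tay {R : Type*} [Field R] [CharZero R] {d : Derivation ℤ R R}
    {h : PowerSeries R} (hh : constantCoeff h = 0) {G : PowerSeries R}
    (hG : derivative R G * (1 + Dc d h) = Dc d G * derivative R h) :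
    G = tay d h (constantCoeff G) := by
  set H : PowerSeries R := G - tay d h (constantCoeff G) with hH
  have hlin : derivative R H * (1 + Dc d h) = Dc d H * derivative R h := by
    rw [hH, map_sub, map_sub, sub_mul, sub_mul, hG, tay_derivative d hh, tay_Dc d hh]
    ring
  have hz : ∀ n, coeff n H = 0 := by
    intro n
    induction n using Nat.strong_induction_on with
    | _ n ih =>
      rcases n with _ | k
      · rw [hH, map_sub, PowerSeries.coeff_zero_eq_constantCoeff_apply,
          PowerSeries.coeff_zero_eq_constantCoeff_apply, tay_constantCoeff, sub_self]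
      · have h1 := congrArg (coeff k) hlin
        have h2 : coeff k (Dc d H * derivative R h) = 0 := by
          rw [tayr_mul_congr (F := Dc d H) (G := 0), zero_mul, map_zero]
          intro i hi
          rw [coeff_Dc, ih i (by omega), map_zero, map_zero]
        have h3 : coeff k (derivative R H * Dc d h) = 0 := by
          rw [PowerSeries.coeff_mul]
          refine Finset.sum_eq_zero fun p hp => ?_
          have hp' := Finset.HasAntidiagonal.mem_antidiagonal.1 hp
          by_cases hpk : p.1 = k
          · have hp2 : p.2 = 0 := by omega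
            rw [hp2, coeff_Dc, PowerSeries.coeff_zero_eq_constantCoeff_apply, hh, map_zero,
              mul_zero]
          · rw [PowerSeries.coeff_derivative, ih (p.1 + 1) (by omega), zero_mul, zero_mul]
        rw [mul_add, mul_one, map_add, h3, add_zero, h2, PowerSeries.coeff_derivative] at h1
        rcases mul_eq_zero.1 h1 with h4 | h4
        · exact h4
        · exact absurd h4 (Nat.cast_add_one_ne_zero k)
  have hH0 : H = 0 := by
    ext n
    rw [hz n, map_zero]
  exact sub_eq_zero.1 hH0

end Pool.Agent.MP_ae5b4e_an_NB1C
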