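import Mathlib
import Pool.Agent.Lib.MP_ae5b4e_an_NB1C.BDefs
import Pool.Agent.Lib.MP_ae5b4e_an_NB1C.TayR

/-!
# MP_ae5b4e_an, NB_1, formal part of case I: formal chains
-/

noncomputable section

namespace Pool.Agent.MP_ae5b4e_an_NB1C

open Pool.Agent.MP_ae5b4e_an_NB1
open Pool.Agent.LAT (tay TChain)
open Pool.Agent.Lib.Puiseux (rot subst)
open PowerSeries (constantCoeff coeff derivative)

private def tchSeq {R : Type*} [Field R] (d : Derivation ℤ R R) (l : ℕ → R) :
    ℕ → PowerSeries R × PowerSeries R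
  | 0 => (0, PowerSeries.X)
  | i + 1 =>
    ((tchSeq d l i).1 + (tchSeq d l i).2 *
        (1 + tay d (tchSeq d l i).1 (l i) * (tchSeq d l i).2)⁻¹,
      (tchSeq d l i).2 * (1 + tay d (tchSeq d l i).1 (l i) * (tchSeq d l i).2)⁻¹)

private theorem tchSeq_const {R : Type*} [Field R] (d : Derivation ℤ R R) (l : ℕ → R) (i : ℕ) :
    constantCoeff (tchSeq d l i).2 = 0 := by
  induction i with
  | zero => simp [tchSeq]
  | succ i ih => simp [tchSeq, ih]

theorem exists_tchain {R : Type*} [Field R] (d : Derivation ℤ R R) (l : ℕ → R) (M : ℕ) :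
    ∃ h P : ℕ → PowerSeries R, TChain d l M h P := by
  refine ⟨fun i => (tchSeq d l i).1, fun i => (tchSeq d l i).2, rfl, rfl, ?_, ?_⟩
  · intro i _
    have h1 : constantCoeff (1 + tay d (tchSeq d l i).1 (l i) * (tchSeq d l i).2) ≠ 0 := by
      simp [tchSeq_const]
    change (tchSeq d l i).2 * (1 + tay d (tchSeq d l i).1 (l i) * (tchSeq d l i).2)⁻¹ *
      (1 + tay d (tchSeq d l i).1 (l i) * (tchSeq d l i).2) = (tchSeq d l i).2
    rw [mul_assoc, PowerSeries.inv_mul_cancel _ h1, mul_one]
  · intro i _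
    rfl

theorem tchain_const {R : Type*} [Field R] {d : Derivation ℤ R R} {l : ℕ → R} {M : ℕ}
    {h P : ℕ → PowerSeries R} (hT : TChain d l M h P) :
    (∀ i ≤ M, constantCoeff (h i) = 0) ∧ ∀ i ≤ M + 1, constantCoeff (P i) = 0 := by
  have hP : ∀ i ≤ M + 1, constantCoeff (P i) = 0 := by
    intro i
    induction i with
    | zero =>
      intro _
      rw [hT.P0]
      simp
    | succ i ih =>
      intro hi
      have h1 := congrArg constantCoeff (hT.stepP i (by omega))
      rw [map_mul, map_add, map_mul, ih (by omega), mul_zero, map_one, add_zero, mul_one] at h1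
      exact h1
  refine ⟨?_, hP⟩
  intro i
  induction i with
  | zero =>
    intro _
    rw [hT.h0]
    simp
  | succ i ih =>
    intro hi
    rw [hT.steph i (by omega), map_add, ih (by omega), hP (i + 1) (by omega), add_zero]

theorem tchain_unique {R : Type*} [Field R] {d : Derivation ℤ R R} {l : ℕ → R} {M : ℕ}
    {h P h' P' : ℕ → PowerSeries R} (hT : TChain d l M h P) (hT' : TChain d l M h' P') :
    (∀ i ≤ M, h i = h' i) ∧ ∀ i ≤ M + 1, P i = P' i := by
  have hc := (tchain_const hT).2
  have step : ∀ i ≤ M, h i = h' i → P i = P' i → P (i + 1) = P' (i + 1) := by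
    intro i hi e1 e2
    have h1 := hT.stepP i hi
    have h2 := hT'.stepP i hi
    rw [← e1, ← e2] at h2
    have h3 : constantCoeff (1 + tay d (h i) (l i) * P i) ≠ 0 := by
      simp [hc i (by omega)]
    have h4 : (1 + tay d (h i) (l i) * P i) ≠ 0 := by
      intro h0
      rw [h0, map_zero] at h3
      exact h3 rfl
    exact mul_right_cancel₀ h4 (h1.trans h2.symm)
  have key : ∀ i ≤ M, h i = h' i ∧ P i = P' i := by
    intro i
    induction i with
    | zero =>
      intro _
      exact ⟨hT.h0.trans hT'.h0.symm, hT.P0.trans hT'.P0.symm⟩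
    | succ i ih =>
      intro hi
      obtain ⟨e1, e2⟩ := ih (by omega)
      have e3 := step i (by omega) e1 e2
      exact ⟨by rw [hT.steph i (by omega), hT'.steph i (by omega), e1, e3], e3⟩
  refine ⟨fun i hi => (key i hi).1, fun i hi => ?_⟩
  rcases Nat.lt_or_ge M i with h1 | h1
  · obtain rfl : i = M + 1 := by omega
    exact step M le_rfl (key M le_rfl).1 (key M le_rfl).2
  · exact (key i h1).2

theorem tchain_map {R R' : Type*} [Field R] [Field R'] {d : Derivation ℤ R R}
    {d' : Derivation ℤ R' R'} (φ : R →+* R') (hφ : ∀ f, φ (d f) = d' (φ f)) {l : ℕ → R} {M : ℕ}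
    {h P : ℕ → PowerSeries R} (hT : TChain d l M h P) :
    TChain d' (fun i => φ (l i)) M (fun i => PowerSeries.map φ (h i))
      (fun i => PowerSeries.map φ (P i)) := by
  refine ⟨?_, ?_, ?_, ?_⟩
  · simp only [hT.h0, map_zero]
  · simp only [hT.P0, PowerSeries.map_X]
  · intro i hi
    have h1 := congrArg (PowerSeries.map φ) (hT.stepP i hi)
    rw [map_mul, map_add, map_mul, map_one, tay_map φ hφ] at h1
    exact h1
  · intro i hi
    simp only [hT.steph i hi, map_add]

end Pool.Agent.MP_ae5b4e_an_NB1C
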