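import Mathlib
import Pool.Agent.Lib.MP_ae5b4e_an_NB1C.BDefs
import Pool.Agent.Lib.MP_ae5b4e_an_NB1C.TayR
import Pool.Agent.Lib.MP_ae5b4e_an_NB1C.TCh

/-!
# MP_ae5b4e_an, NB_1, formal part of case I: the chain of the polygon
-/

noncomputable section

namespace Pool.Agent.MP_ae5b4e_an_NB1C

open Pool.Agent.MP_ae5b4e_an_NB1
open Pool.Agent.LAT (tay TChain)
open PowerSeries (constantCoeff coeff derivative)

/-- the expansion of the polygon, in terms of the coefficientwise derivation and the derivative -/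
structure PExp {L : Type*} [Field L] (d : Derivation ℤ L L) (M : ℕ) (X K : ℕ → PowerSeries L)
    (z κ : L) : Prop where
  ne : ∀ i ≤ M + 1, X (i + 1) ≠ X i
  rel : ∀ i ≤ M, (X (i + 1) - X i) - (X (i + 2) - X (i + 1)) =
    K i * (X (i + 2) - X (i + 1)) * (X (i + 1) - X i)
  wr : ∀ i ≤ M, Dc d (K i) * derivative L (X (i + 1)) = derivative L (K i) * Dc d (X (i + 1))
  x1 : X 1 = PowerSeries.C z
  u : X 1 - X 0 = PowerSeries.X
  K0 : ∀ i ≤ M, constantCoeff (K i) = κ

theorem PExp.const {L : Type*} [Field L] {d : Derivation ℤ L L} {M : ℕ}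
    {X K : ℕ → PowerSeries L} {z κ : L} (h : PExp d M X K z κ) :
    ∀ i ≤ M + 1, constantCoeff (X (i + 1) - X i) = 0 := by
  intro i
  induction i with
  | zero =>
    intro _
    rw [zero_add, h.u, PowerSeries.constantCoeff_X]
  | succ i ih =>
    intro hi
    have h1 := ih (by omega)
    have h2 := congrArg constantCoeff (h.rel i (by omega))
    rw [map_sub, h1, zero_sub, map_mul, map_mul, h1, mul_zero, neg_eq_zero] at h2
    exact h2

theorem PExp.const' {L : Type*} [Field L] {d : Derivation ℤ L L} {M : ℕ}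
    {X K : ℕ → PowerSeries L} {z κ : L} (h : PExp d M X K z κ) :
    ∀ i ≤ M + 1, constantCoeff (X (i + 1) - X 1) = 0 := by
  intro i
  induction i with
  | zero =>
    intro _
    rw [zero_add, sub_self, map_zero]
  | succ i ih =>
    intro hi
    have h1 := ih (by omega)
    have h2 := h.const (i + 1) (by omega)
    have h3 : X (i + 1 + 1) - X 1 = (X (i + 1 + 1) - X (i + 1)) + (X (i + 1) - X 1) := by ring
    rw [h3, map_add, h1, h2, add_zero]

/-- **The chain of the polygon** -/
theorem PExp.tchain {L : Type*} [Field L] [CharZero L] {d : Derivation ℤ L L} {M : ℕ}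
    {X K : ℕ → PowerSeries L} {z κ : L} (hz : d z = 1) (h : PExp d M X K z κ) :
    TChain d (fun _ => κ) M (fun i => X (i + 1) - X 1) (fun i => X (i + 1) - X i) := by
  have hDz : Dc d (X 1) = 1 := by
    rw [h.x1]
    ext n
    rw [coeff_Dc, PowerSeries.coeff_C, PowerSeries.coeff_one]
    split_ifs
    · exact hz
    · exact map_zero _
  have hUz : derivative L (X 1) = 0 := by
    rw [h.x1]
    exact PowerSeries.derivative_C
  refine ⟨sub_self _, by rw [zero_add]; exact h.u, fun i hi => ?_, fun i _ => by ring⟩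
  have hK : K i = tay d (X (i + 1) - X 1) κ := by
    rw [← h.K0 i hi]
    refine eq_tay (h.const' i (by omega)) ?_
    have hw := h.wr i hi
    rw [map_sub, map_sub, hDz, hUz, sub_zero, add_sub_cancel, ← hw]
  rw [← hK]
  have hr := h.rel i hi
  linear_combination -hr

end Pool.Agent.MP_ae5b4e_an_NB1C
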