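import Mathlib
import Pool.Agent.Lib.MP_ae5b4e_an_NB1C.BDefs
import Pool.Agent.Lib.MP_ae5b4e_an_NB1C.TayR

/-!
# MP_ae5b4e_an, NB_1, formal part of case I: quotients which are functions of one point
-/

noncomputable section

namespace Pool.Agent.MP_ae5b4e_an_NB1C

open Pool.Agent.MP_ae5b4e_an_NB1
open Pool.Agent.LAT (tay TChain)
open Pool.Agent.Lib.Puiseux (rot subst)
open PowerSeries (constantCoeff coeff derivative)

/-- a derivation commutes with the multiplication by a power of the variable -/
private theorem cst_Dc {R : Type*} [Field R] (d : Derivation ℤ R R) (p : ℕ) (f : PowerSeries R) :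
    Dc d (PowerSeries.X ^ p * f) = PowerSeries.X ^ p * Dc d f := by
  ext n
  rw [coeff_Dc, PowerSeries.coeff_X_pow_mul', PowerSeries.coeff_X_pow_mul']
  split_ifs with h
  · rw [coeff_Dc]
  · rw [map_zero]

private theorem cst_der {R : Type*} [Field R] (p : ℕ) (f : PowerSeries R) :
    PowerSeries.X * derivative R (PowerSeries.X ^ p * f) =
      PowerSeries.X ^ p * ((p : PowerSeries R) * f + PowerSeries.X * derivative R f) := by
  rw [Derivation.leibniz, PowerSeries.derivative_pow, PowerSeries.derivative_X]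
  simp only [smul_eq_mul]
  cases p with
  | zero => simp
  | succ k =>
    rw [Nat.add_sub_cancel]
    ring

private theorem cst_mul {R : Type*} [Field R] {Ω : Type*} [Field Ω]
    [Algebra (PowerSeries R) Ω] {D : Derivation ℤ Ω Ω}
    {E : PowerSeries R → PowerSeries R} (hD : ∀ f : PowerSeries R,
      D (algebraMap _ Ω f) = algebraMap _ Ω (E f)) {c : Ω} {a b : PowerSeries R}
    (hc : c * algebraMap _ Ω b = algebraMap _ Ω a) :
    D c * algebraMap _ Ω b ^ 2 = algebraMap _ Ω (E a * b - a * E b) := by
  have h := congrArg D hc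
  rw [Derivation.leibniz, hD, hD, smul_eq_mul, smul_eq_mul] at h
  rw [map_sub, map_mul, map_mul, ← hc, ← h]
  ring

/-- a quotient `c` of power series with `dX Y * dU c = dU Y * dX c`, `Y = z + h`, is the Taylor
expansion of an element of `R` -/
theorem cst {R : Type*} [Field R] [CharZero R] {d : Derivation ℤ R R} {z : R} (hz : d z = 1)
    {Ω : Type*} [Field Ω] [Algebra (PowerSeries R) Ω] {dX dU : Derivation ℤ Ω Ω}
    (hΩ : DF d Ω dX dU) {h : PowerSeries R} (hh : constantCoeff h = 0) {c : Ω} (hc : c ∈ KR R Ω)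
    (hcst : dX (algebraMap _ Ω (PowerSeries.C z + h)) * dU c =
      dU (algebraMap _ Ω (PowerSeries.C z + h)) * dX c) :
    ∃ f : R, c = algebraMap _ Ω (tay d h f) := by
  obtain ⟨a, b, hab⟩ := (mem_KR c).1 hc
  by_cases hc0 : c = 0
  · obtain ⟨T, hT⟩ := exists_tayHom d hh
    refine ⟨0, ?_⟩
    rw [← hT 0, map_zero, map_zero, hc0]
  have ha0 : a ≠ 0 := by
    rintro rfl
    apply hc0
    rw [hab, map_zero, zero_div]
  have hb0 : b ≠ 0 := by
    rintro rfl
    apply hc0
    rw [hab, map_zero, div_zero]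
  have hAne : ∀ f : PowerSeries R, f ≠ 0 → algebraMap _ Ω f ≠ 0 := by
    intro f hf h0
    apply hf
    apply hΩ.inj
    rw [h0, map_zero]
  have hcb : c * algebraMap _ Ω b = algebraMap _ Ω a := by
    rw [hab, div_mul_cancel₀ _ (hAne b hb0)]
  -- the identity in the ring of power series
  have hY1 : Dc d (PowerSeries.C z + h) = 1 + Dc d h := by
    rw [map_add]
    congr 1
    ext n
    rw [coeff_Dc, PowerSeries.coeff_C, PowerSeries.coeff_one]
    split_ifs with hn
    · exact hz
    · exact map_zero d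
  have hY2 : derivative R (PowerSeries.C z + h) = derivative R h := by
    rw [map_add, PowerSeries.derivative_C, zero_add]
  rw [hΩ.hX, hΩ.hU, hY1, hY2] at hcst
  have hX2 := cst_mul hΩ.hX hcb
  have hU2 := cst_mul hΩ.hU hcb
  have hid : (1 + Dc d h) * (derivative R a * b - a * derivative R b) =
      derivative R h * (Dc d a * b - a * Dc d b) := by
    apply hΩ.inj
    rw [map_mul, map_mul, ← hX2, ← hU2]
    linear_combination (algebraMap _ Ω b ^ 2) * hcst
  -- orders
  obtain ⟨p, a1, ha1, hpa⟩ : ∃ (p : ℕ) (a1 : PowerSeries R), constantCoeff a1 ≠ 0 ∧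
      a = PowerSeries.X ^ p * a1 :=
    ⟨a.order.toNat, a.divXPowOrder,
      fun h0 => ha0 (PowerSeries.constantCoeff_divXPowOrder_eq_zero_iff.1 h0),
      PowerSeries.X_pow_order_mul_divXPowOrder.symm⟩
  obtain ⟨q, b1, hb1, hqb⟩ : ∃ (q : ℕ) (b1 : PowerSeries R), constantCoeff b1 ≠ 0 ∧
      b = PowerSeries.X ^ q * b1 :=
    ⟨b.order.toNat, b.divXPowOrder,
      fun h0 => hb0 (PowerSeries.constantCoeff_divXPowOrder_eq_zero_iff.1 h0),
      PowerSeries.X_pow_order_mul_divXPowOrder.symm⟩
  have hXne : ∀ n : ℕ, (PowerSeries.X ^ n : PowerSeries R) ≠ 0 := fun n =>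
    pow_ne_zero n PowerSeries.X_ne_zero
  have hid2 : (1 + Dc d h) * (((p : PowerSeries R) * a1 + PowerSeries.X * derivative R a1) * b1 -
      a1 * ((q : PowerSeries R) * b1 + PowerSeries.X * derivative R b1)) =
      PowerSeries.X * (derivative R h * (Dc d a1 * b1 - a1 * Dc d b1)) := by
    apply mul_left_cancel₀ (hXne p)
    apply mul_left_cancel₀ (hXne q)
    have h1 := congrArg (fun f => PowerSeries.X * f) hid
    have h2 := cst_der p a1
    have h3 := cst_der q b1
    have h4 := cst_Dc d p a1
    have h5 := cst_Dc d q b1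
    rw [← hpa] at h2 h4
    rw [← hqb] at h3 h5
    rw [h4, h5] at h1
    calc _ = (1 + Dc d h) * ((PowerSeries.X ^ p * ((p : PowerSeries R) * a1 +
          PowerSeries.X * derivative R a1)) * (PowerSeries.X ^ q * b1) -
          (PowerSeries.X ^ p * a1) * (PowerSeries.X ^ q * ((q : PowerSeries R) * b1 +
          PowerSeries.X * derivative R b1))) := by ring
      _ = (1 + Dc d h) * ((PowerSeries.X * derivative R a) * b -
          a * (PowerSeries.X * derivative R b)) := by rw [h2, h3, ← hpa, ← hqb]
      _ = PowerSeries.X * ((1 + Dc d h) * (derivative R a * b - a * derivative R b)) := by ring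
      _ = PowerSeries.X * (derivative R h * (PowerSeries.X ^ p * Dc d a1 * b -
          a * (PowerSeries.X ^ q * Dc d b1))) := h1
      _ = _ := by
        rw [hpa, hqb]
        ring
  have hpq : p = q := by
    have h1 := congrArg constantCoeff hid2
    have h2 : constantCoeff (Dc d h) = 0 := by
      rw [← PowerSeries.coeff_zero_eq_constantCoeff_apply, coeff_Dc,
        PowerSeries.coeff_zero_eq_constantCoeff_apply, hh, map_zero]
    simp only [map_mul, map_add, map_sub, map_one, map_natCast, PowerSeries.constantCoeff_X, h2,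
      zero_mul, add_zero, one_mul] at h1
    have h3 : ((p : R) - q) * (constantCoeff a1 * constantCoeff b1) = 0 := by
      linear_combination h1
    rcases mul_eq_zero.1 h3 with h4 | h4
    · exact Nat.cast_injective (sub_eq_zero.1 h4)
    · exact absurd h4 (mul_ne_zero ha1 hb1)
  subst hpq
  have hid3 : (1 + Dc d h) * (derivative R a1 * b1 - a1 * derivative R b1) =
      derivative R h * (Dc d a1 * b1 - a1 * Dc d b1) := by
    apply mul_left_cancel₀ (PowerSeries.X_ne_zero (R := R))
    rw [← hid2]
    ring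
  -- the quotient
  have hG : (a1 * b1⁻¹) * b1 = a1 := by
    rw [mul_assoc, PowerSeries.inv_mul_cancel b1 hb1, mul_one]
  have hb1ne : b1 ≠ 0 := by
    rintro rfl
    exact hb1 (map_zero _)
  have hcG : c = algebraMap _ Ω (a1 * b1⁻¹) := by
    have h1 : algebraMap _ Ω (a1 * b1⁻¹) * algebraMap _ Ω b = algebraMap _ Ω a := by
      rw [← map_mul]
      congr 1
      rw [hpa, hqb, mul_left_comm, hG]
    exact mul_right_cancel₀ (hAne b hb0) (hcb.trans h1.symm)
  refine ⟨constantCoeff (a1 * b1⁻¹), ?_⟩
  rw [hcG]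
  congr 1
  apply eq_tay hh
  set G : PowerSeries R := a1 * b1⁻¹ with hGdef
  have e1 : derivative R a1 = derivative R G * b1 + G * derivative R b1 := by
    rw [← hG, Derivation.leibniz, smul_eq_mul, smul_eq_mul]
    ring
  have e2 : Dc d a1 = Dc d G * b1 + G * Dc d b1 := by
    rw [← hG, Derivation.leibniz, smul_eq_mul, smul_eq_mul]
    ring
  apply mul_left_cancel₀ (pow_ne_zero 2 hb1ne)
  have e3 := hid3
  rw [e1, e2] at e3
  linear_combination e3 - (1 + Dc d h) * (derivative R b1) * hG +
    (derivative R h) * (Dc d b1) * hG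

end Pool.Agent.MP_ae5b4e_an_NB1C
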