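import Mathlib
import Pool.Agent.Lib.MP_ae5b4e_an_NB1C.BDefs
import Pool.Agent.Lib.MP_ae5b4e_an_NB1C.DerC

/-!
# MP_ae5b4e_an, NB_1, formal part of case I: derivations and algebraic elements
-/

noncomputable section

namespace Pool.Agent.MP_ae5b4e_an_NB1C

open Pool.Agent.MP_ae5b4e_an_NB1
open Pool.Agent.LAT (tay TChain)
open Pool.Agent.Lib.Puiseux (rot subst)
open PowerSeries (constantCoeff coeff derivative)

universe u

private theorem minp_aeval {F E : Type*} [Field F] [Field E] [Algebra F E]
    (δ : Derivation ℤ E E) (a : E) (p : Polynomial F) :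
    δ (Polynomial.aeval a p) = (p.sum fun n c => δ (algebraMap F E c) * a ^ n) +
      Polynomial.aeval a (Polynomial.derivative p) * δ a := by
  induction p using Polynomial.induction_on' with
  | add p q hp hq =>
    rw [map_add, map_add, hp, hq, Polynomial.sum_add_index, Polynomial.derivative_add, map_add]
    · ring
    · intro i
      rw [map_zero, map_zero, zero_mul]
    · intro i x y
      rw [map_add, map_add, add_mul]
  | monomial n c =>
    rw [Polynomial.aeval_monomial, Derivation.leibniz, Polynomial.sum_monomial_index,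
      Polynomial.derivative_monomial, Polynomial.aeval_monomial, Derivation.leibniz_pow,
      map_mul, map_natCast]
    · simp only [smul_eq_mul, nsmul_eq_mul]
      ring
    · rw [map_zero, map_zero, zero_mul]

private theorem minp_sum {F E : Type*} [Field F] [Field E] [Algebra F E]
    (δ : Derivation ℤ E E) (a : E) (p : Polynomial F) (hm : p.Monic) :
    (p.sum fun n c => δ (algebraMap F E c) * a ^ n) =
      ∑ n ∈ Finset.range p.natDegree, δ (algebraMap F E (p.coeff n)) * a ^ n := by
  rw [Polynomial.sum_over_range, Finset.sum_range_succ, Polynomial.Monic.coeff_natDegree hm,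
    map_one, Derivation.map_one_eq_zero, zero_mul, add_zero]
  intro n
  rw [map_zero, map_zero, zero_mul]

private theorem minp_zero {F E : Type*} [Field F] [Field E] [Algebra F E]
    (δ : Derivation ℤ E E) {a : E} (ha : IsAlgebraic F a) :
    ∑ n ∈ Finset.range (minpoly F a).natDegree, δ (algebraMap F E ((minpoly F a).coeff n)) * a ^ n +
      Polynomial.aeval a (Polynomial.derivative (minpoly F a)) * δ a = 0 := by
  have h := minp_aeval δ a (minpoly F a)
  rw [minpoly.aeval, map_zero, minp_sum δ a _ (minpoly.monic ha.isIntegral)] at h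
  exact h.symm

private theorem minp_sep {F E : Type*} [Field F] [Field E] [Algebra F E] [CharZero F]
    {a : E} (ha : IsAlgebraic F a) :
    Polynomial.aeval a (Polynomial.derivative (minpoly F a)) ≠ 0 := by
  have hs : (minpoly F a).Separable := (minpoly.irreducible ha.isIntegral).separable
  exact hs.aeval_derivative_ne_zero (minpoly.aeval F a)

/-- a derivation which kills an algebraic element kills the coefficients of its minimal
polynomial -/
theorem minpoly_der {E : Type*} [Field E] {F : Subfield E} {δ : Derivation ℤ E E}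
    (hδ : ∀ y ∈ F, δ y ∈ F) {a : E} (ha : IsAlgebraic F a) (h0 : δ a = 0) (n : ℕ) :
    δ ((minpoly F a).coeff n : E) = 0 := by
  have hmon := minpoly.monic ha.isIntegral
  have h := minp_zero δ ha
  rw [h0, mul_zero, add_zero] at h
  let c : ℕ → F := fun n => ⟨δ ((minpoly F a).coeff n : E), hδ _ ((minpoly F a).coeff n).2⟩
  let q : Polynomial F := ∑ n ∈ Finset.range (minpoly F a).natDegree,
    Polynomial.C (c n) * Polynomial.X ^ n
  have hq0 : Polynomial.aeval a q = 0 := by
    rw [map_sum, ← h]
    refine Finset.sum_congr rfl fun n _ => ?_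
    rw [map_mul, Polynomial.aeval_C, map_pow, Polynomial.aeval_X]
    rfl
  have hqd : q.degree < (minpoly F a).degree := by
    rw [Polynomial.degree_eq_natDegree hmon.ne_zero]
    refine lt_of_le_of_lt (Polynomial.degree_sum_le _ _) ?_
    rw [Finset.sup_lt_iff (WithBot.bot_lt_coe _)]
    intro n hn
    refine lt_of_le_of_lt (Polynomial.degree_C_mul_X_pow_le _ _) ?_
    exact_mod_cast Finset.mem_range.1 hn
  have hq : q = 0 := by
    by_contra hne
    exact absurd (minpoly.degree_le_of_ne_zero F a hne hq0) (not_le.2 hqd)
  rcases lt_trichotomy n (minpoly F a).natDegree with hn | hn | hn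
  · have h1 : q.coeff n = c n := by
      simp only [q, Polynomial.finsetSum_coeff, Polynomial.coeff_C_mul_X_pow]
      rw [Finset.sum_ite_eq, if_pos (Finset.mem_range.2 hn)]
    rw [hq, Polynomial.coeff_zero] at h1
    exact (congrArg Subtype.val h1).symm
  · rw [hn, Polynomial.Monic.coeff_natDegree hmon]
    exact Derivation.map_one_eq_zero δ
  · rw [Polynomial.coeff_eq_zero_of_natDegree_lt hn]
    exact map_zero δ

/-- derivatives of algebraic elements are algebraic -/
theorem der_algebraic {E : Type*} [Field E] [CharZero E] {F : Subfield E} {δ : Derivation ℤ E E}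
    (hδ : ∀ y ∈ F, δ y ∈ F) {a : E} (ha : IsAlgebraic F a) : IsAlgebraic F (δ a) := by
  have h := minp_zero δ ha
  have hs := minp_sep ha
  have h1 : δ a = -(∑ n ∈ Finset.range (minpoly F a).natDegree,
      δ (algebraMap F E ((minpoly F a).coeff n)) * a ^ n) /
        Polynomial.aeval a (Polynomial.derivative (minpoly F a)) := by
    rw [eq_div_iff hs]
    linear_combination h
  have ha' : a ∈ algebraicClosure F E := mem_algebraicClosure_iff.2 ha
  have hF : ∀ y ∈ F, y ∈ algebraicClosure F E := fun y hy =>
    (algebraicClosure F E).algebraMap_mem ⟨y, hy⟩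
  rw [← mem_algebraicClosure_iff, h1]
  refine div_mem (neg_mem (sum_mem fun n _ => mul_mem ?_ (pow_mem ha' n))) ?_
  · exact hF _ (hδ _ ((minpoly F a).coeff n).2)
  · rw [Polynomial.aeval_eq_sum_range]
    refine sum_mem fun n _ => ?_
    exact (algebraicClosure F E).smul_mem (pow_mem ha' n)

/-- a homomorphism which commutes with derivations on `F` commutes with them on algebraic
extensions of `F` -/
theorem comm_der {F E Ω : Type*} [Field F] [Field E] [Field Ω] [Algebra F E] [CharZero F]
    [Algebra.IsAlgebraic F E] (σ : E →+* Ω) {δ : Derivation ℤ E E} {δ' : Derivation ℤ Ω Ω}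
    (h : ∀ y : F, σ (δ (algebraMap F E y)) = δ' (σ (algebraMap F E y))) (y : E) :
    σ (δ y) = δ' (σ y) := by
  have hy : IsAlgebraic F y := Algebra.IsAlgebraic.isAlgebraic y
  have hs := minp_sep hy
  have h1 := congrArg σ (minp_zero δ hy)
  let _ : Algebra F Ω := (σ.comp (algebraMap F E)).toAlgebra
  have hmap : ∀ c : F, algebraMap F Ω c = σ (algebraMap F E c) := fun _ => rfl
  have hev : ∀ p : Polynomial F, Polynomial.aeval (σ y) p = σ (Polynomial.aeval y p) := by
    intro p
    rw [Polynomial.aeval_def, Polynomial.aeval_def, Polynomial.hom_eval₂]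
    rfl
  have h2 := minp_aeval δ' (σ y) (minpoly F y)
  rw [hev, minpoly.aeval, map_zero, map_zero, minp_sum δ' _ _ (minpoly.monic hy.isIntegral),
    hev] at h2
  rw [map_add, map_mul, map_sum, map_zero] at h1
  have h3 : ∑ n ∈ Finset.range (minpoly F y).natDegree,
      σ (δ (algebraMap F E ((minpoly F y).coeff n)) * y ^ n) =
      ∑ n ∈ Finset.range (minpoly F y).natDegree,
        δ' (algebraMap F Ω ((minpoly F y).coeff n)) * σ y ^ n := by
    refine Finset.sum_congr rfl fun n _ => ?_
    rw [map_mul, map_pow, h, hmap]
  rw [h3] at h1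
  have h4 : σ (Polynomial.aeval y (Polynomial.derivative (minpoly F y))) * (σ (δ y) - δ' (σ y)) =
      0 := by
    linear_combination h1 + h2
  rcases mul_eq_zero.1 h4 with h5 | h5
  · exact absurd ((map_eq_zero σ).1 h5) hs
  · exact sub_eq_zero.1 h5

private theorem minp_DF {R : Type*} [Field R] [CharZero R] (d : Derivation ℤ R R) (K : Type*)
    [Field K] [Algebra (PowerSeries R) K] [IsFractionRing (PowerSeries R) K] (Ω : Type*) [Field Ω]
    [Algebra K Ω] [Algebra (PowerSeries R) Ω] [IsScalarTower (PowerSeries R) K Ω] :
    ∃ dX dU : Derivation ℤ Ω Ω, DF d Ω dX dU := by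
  have hK : Function.Injective (algebraMap (PowerSeries R) K) :=
    IsFractionRing.injective (PowerSeries R) K
  have hinj : Function.Injective (algebraMap (PowerSeries R) Ω) := by
    rw [IsScalarTower.algebraMap_eq (PowerSeries R) K Ω]
    exact (algebraMap K Ω).injective.comp hK
  have _i : CharZero K := by
    let _ : Algebra R K := ((algebraMap (PowerSeries R) K).comp (PowerSeries.C (R := R))).toAlgebra
    exact charZero_of_injective_algebraMap (algebraMap R K).injective
  have _i : Algebra.FormallySmooth (PowerSeries R) K :=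
    Algebra.FormallySmooth.of_isLocalization (nonZeroDivisors _)
  have _i : Algebra.FormallySmooth K Ω := formallySmooth_field K Ω
  have _i : Algebra.FormallySmooth (PowerSeries R) Ω := Algebra.FormallySmooth.comp _ K _
  obtain ⟨dX, hdX⟩ := exists_ext_der_of_formallySmooth (A := PowerSeries R) (L := Ω)
    (AddMonoidHom.mk' (fun f => algebraMap (PowerSeries R) Ω (Dc d f)) (fun p q => by
      rw [map_add, map_add])) (fun p q => by
      change algebraMap (PowerSeries R) Ω (Dc d (p * q)) = _
      rw [Derivation.leibniz, smul_eq_mul, smul_eq_mul, map_add, map_mul, map_mul]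
      rfl)
  obtain ⟨dU, hdU⟩ := exists_ext_der_of_formallySmooth (A := PowerSeries R) (L := Ω)
    (AddMonoidHom.mk' (fun f => algebraMap (PowerSeries R) Ω (derivative R f)) (fun p q => by
      rw [map_add, map_add])) (fun p q => by
      change algebraMap (PowerSeries R) Ω (derivative R (p * q)) = _
      rw [Derivation.leibniz, smul_eq_mul, smul_eq_mul, map_add, map_mul, map_mul]
      rfl)
  exact ⟨dX, dU, hinj, hdX, hdU⟩

/-- an algebraically closed field which contains `R⟦X⟧`, with its two derivations (take
`AlgebraicClosure (FractionRing R⟦X⟧)`) -/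
theorem exists_DF {R : Type u} [Field R] [CharZero R] (d : Derivation ℤ R R) :
    ∃ (Ω : Type u) (_ : Field Ω) (_ : IsAlgClosed Ω) (_ : Algebra (PowerSeries R) Ω)
      (dX dU : Derivation ℤ Ω Ω), DF d Ω dX dU := by
  obtain ⟨dX, dU, h⟩ := minp_DF d (FractionRing (PowerSeries R))
    (AlgebraicClosure (FractionRing (PowerSeries R)))
  exact ⟨AlgebraicClosure (FractionRing (PowerSeries R)), inferInstance, inferInstance,
    inferInstance, dX, dU, h⟩

end Pool.Agent.MP_ae5b4e_an_NB1C
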