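import Mathlib
import Pool.Agent.Lib.MP_ae5b4e_an_NB1C.BDefs
import Pool.Agent.Lib.MP_ae5b4e_an_NB1C.Cst
import Pool.Agent.Lib.MP_ae5b4e_an_NB1C.MinP
import Pool.Agent.Lib.MP_ae5b4e_an_NB1C.TayR

/-!
# MP_ae5b4e_an, NB_1, formal part of case I: one step of the chain
-/

noncomputable section

namespace Pool.Agent.MP_ae5b4e_an_NB1C

open Pool.Agent.MP_ae5b4e_an_NB1
open Pool.Agent.LAT (tay TChain)
open Pool.Agent.Lib.Puiseux (rot subst)
open PowerSeries (constantCoeff coeff derivative)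

private theorem step_stable {R : Type*} [Field R] {Ω : Type*} [Field Ω]
    [Algebra (PowerSeries R) Ω] {D : Derivation ℤ Ω Ω}
    (hD : ∀ f : PowerSeries R, D (algebraMap _ Ω f) ∈ KR R Ω) {y : Ω} (hy : y ∈ KR R Ω) :
    D y ∈ KR R Ω := by
  obtain ⟨a, b, rfl⟩ := (mem_KR y).1 hy
  have hmem : ∀ f : PowerSeries R, algebraMap _ Ω f ∈ KR R Ω := fun f =>
    Subfield.subset_closure ⟨f, rfl⟩
  rw [Derivation.leibniz_div]
  simp only [smul_eq_mul]
  exact mul_mem (pow_mem (inv_mem (hmem b)) 2)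
    (sub_mem (mul_mem (hmem b) (hD a)) (mul_mem (hmem a) (hD b)))

private theorem step_alg {E : Type*} [Field E] {F₁ F₂ : Subfield E} (hle : F₁ ≤ F₂) {K : E}
    (hK : IsAlgebraic F₁ K) : IsAlgebraic F₂ K := by
  obtain ⟨p, hp, hpK⟩ := hK
  refine ⟨p.map (Subfield.inclusion hle), ?_, ?_⟩
  · exact (Polynomial.map_ne_zero_iff (Subfield.inclusion hle).injective).2 hp
  · rw [Polynomial.aeval_def, Polynomial.eval₂_map]
    rw [Polynomial.aeval_def] at hpK
    exact hpK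

/-- **One step**: `E` is a field with two derivations, `σ : E → Ω` commutes with them, `K` is a
function of `x`, `σ x = z + h`, `K` algebraic over a field `F₁` with `σ F₁` contained in the field
of quotients of power series; then `σ K` is the Taylor expansion of an element of `R`. -/
theorem step {R : Type*} [Field R] [IsAlgClosed R] [CharZero R] {d : Derivation ℤ R R} {z : R}
    (hz : d z = 1) {Ω : Type*} [Field Ω] [Algebra (PowerSeries R) Ω] {dX dU : Derivation ℤ Ω Ω}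
    (hΩ : DF d Ω dX dU) {E : Type*} [Field E] {δX δU : Derivation ℤ E E} (σ : E →+* Ω)
    (hσX : ∀ y, σ (δX y) = dX (σ y)) (hσU : ∀ y, σ (δU y) = dU (σ y)) {h : PowerSeries R}
    (hh : constantCoeff h = 0) {x K : E} (hx : σ x = algebraMap _ Ω (PowerSeries.C z + h))
    (hwr : δX K * δU x = δU K * δX x) {F₁ : Subfield E} (hF₁ : ∀ y ∈ F₁, σ y ∈ KR R Ω)
    (hK : IsAlgebraic F₁ K) : ∃ l : R, σ K = algebraMap _ Ω (tay d h l) := by
  have hmem : ∀ f : PowerSeries R, algebraMap _ Ω f ∈ KR R Ω := fun f =>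
    Subfield.subset_closure ⟨f, rfl⟩
  have hXs : ∀ y ∈ KR R Ω, dX y ∈ KR R Ω := fun y hy =>
    step_stable (fun f => by rw [hΩ.hX]; exact hmem _) hy
  have hUs : ∀ y ∈ KR R Ω, dU y ∈ KR R Ω := fun y hy =>
    step_stable (fun f => by rw [hΩ.hU]; exact hmem _) hy
  obtain ⟨F', hF'⟩ : ∃ F' : Subfield E, F' = (KR R Ω).comap σ := ⟨_, rfl⟩
  have hF'm : ∀ y, y ∈ F' ↔ σ y ∈ KR R Ω := by
    intro y
    rw [hF', Subfield.mem_comap]
  have hle : F₁ ≤ F' := fun y hy => (hF'm y).2 (hF₁ y hy)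
  have hKF : IsAlgebraic F' K := step_alg hle hK
  have hxF : x ∈ F' := by
    rw [hF'm, hx]
    exact hmem _
  have hδX : ∀ y ∈ F', δX y ∈ F' := by
    intro y hy
    rw [hF'm] at hy ⊢
    rw [hσX]
    exact hXs _ hy
  have hδU : ∀ y ∈ F', δU y ∈ F' := by
    intro y hy
    rw [hF'm] at hy ⊢
    rw [hσU]
    exact hUs _ hy
  obtain ⟨δ, hδ⟩ : ∃ δ : Derivation ℤ E E, ∀ y, δ y = δU x * δX y - δX x * δU y := by
    refine ⟨δU x • δX - δX x • δU, fun y => ?_⟩
    rw [Derivation.sub_apply, Derivation.smul_apply, Derivation.smul_apply, smul_eq_mul,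
      smul_eq_mul]
  have hδs : ∀ y ∈ F', δ y ∈ F' := by
    intro y hy
    rw [hδ]
    exact sub_mem (mul_mem (hδU x hxF) (hδX y hy)) (mul_mem (hδX x hxF) (hδU y hy))
  have hδK : δ K = 0 := by
    rw [hδ]
    linear_combination hwr
  have hcoef : ∀ n, ∃ f : R, σ (((minpoly F' K).coeff n : F') : E) = algebraMap _ Ω (tay d h f) := by
    intro n
    have h1 := minpoly_der hδs hKF hδK n
    rw [hδ] at h1
    have h2 := congrArg σ h1
    rw [map_sub, map_mul, map_mul, map_zero, hσX, hσU, hσX, hσU, hx] at h2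
    refine cst hz hΩ hh ?_ ?_
    · exact (hF'm _).1 ((minpoly F' K).coeff n).2
    · linear_combination -h2
  obtain ⟨T, hT⟩ := exists_tayHom d hh
  obtain ⟨T', hT'⟩ : ∃ T' : R →+* Ω, T' = (algebraMap (PowerSeries R) Ω).comp T := ⟨_, rfl⟩
  have hT'a : ∀ f, T' f = algebraMap _ Ω (tay d h f) := by
    intro f
    rw [hT', RingHom.comp_apply, hT]
  obtain ⟨φ, hφ⟩ : ∃ φ : F' →+* Ω, φ = σ.comp F'.subtype := ⟨_, rfl⟩
  have hmon : ((minpoly F' K).map φ).Monic := (minpoly.monic hKF.isIntegral).map φ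
  have hlift : (minpoly F' K).map φ ∈ Polynomial.lifts T' := by
    rw [Polynomial.lifts_iff_coeff_lifts]
    intro n
    obtain ⟨f, hf⟩ := hcoef n
    refine ⟨f, ?_⟩
    rw [hT'a, ← hf, Polynomial.coeff_map, hφ]
    rfl
  obtain ⟨p, hp, -, hpm⟩ := Polynomial.lifts_and_natDegree_eq_and_monic hlift hmon
  have hroot : (p.map T').IsRoot (σ K) := by
    rw [hp, Polynomial.IsRoot.def, Polynomial.eval_map, hφ]
    have h1 : Polynomial.eval₂ F'.subtype K (minpoly F' K) = 0 := minpoly.aeval F' K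
    rw [← Polynomial.hom_eval₂, h1, map_zero]
  have hsp : p.Splits := IsAlgClosed.splits p
  have hrm : σ K ∈ (p.map T').roots := by
    rw [Polynomial.mem_roots (hpm.map T').ne_zero]
    exact hroot
  rw [hsp.roots_map, Multiset.mem_map] at hrm
  obtain ⟨l, -, hl⟩ := hrm
  exact ⟨l, by rw [← hl, hT'a]⟩

end Pool.Agent.MP_ae5b4e_an_NB1C
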