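import Mathlib
import Pool.Agent.Lib.MP_ae5b4e_an_NB1C.BDefs
import Pool.Agent.Lib.MP_ae5b4e_an_NB1C.TCh
import Pool.Agent.Lib.MP_ae5b4e_an_NB1C.Step

/-!
# MP_ae5b4e_an, NB_1, formal part of case I: the conjugate chain
-/

noncomputable section

namespace Pool.Agent.MP_ae5b4e_an_NB1C

open Pool.Agent.MP_ae5b4e_an_NB1
open Pool.Agent.LAT (tay TChain)
open Pool.Agent.Lib.Puiseux (rot subst)
open PowerSeries (constantCoeff coeff derivative)

/-- restriction of a derivation to the algebraic closure of a stable subfield -/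
theorem bch_restr {Ω : Type*} [Field Ω] [CharZero Ω] {δ : Derivation ℤ Ω Ω} {F₀ : Subfield Ω}
    (hδ : ∀ y ∈ F₀, δ y ∈ F₀) :
    ∃ D : Derivation ℤ (algebraicClosure F₀ Ω) (algebraicClosure F₀ Ω),
      ∀ y : algebraicClosure F₀ Ω, ((D y : algebraicClosure F₀ Ω) : Ω) = δ (y : Ω) := by
  have hmem : ∀ y : algebraicClosure F₀ Ω, δ (y : Ω) ∈ algebraicClosure F₀ Ω := fun y =>
    mem_algebraicClosure_iff.mpr (der_algebraic hδ (mem_algebraicClosure_iff.mp y.2))
  refine ⟨Derivation.mk' ((AddMonoidHom.mk' (fun y : algebraicClosure F₀ Ω =>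
    (⟨δ (y : Ω), hmem y⟩ : algebraicClosure F₀ Ω)) (fun x y => ?_)).toIntLinearMap)
    (fun x y => ?_), fun y => rfl⟩
  · apply Subtype.ext
    simp
  · apply Subtype.ext
    change δ ((x : Ω) * (y : Ω)) = (x : Ω) * δ (y : Ω) + (y : Ω) * δ (x : Ω)
    rw [Derivation.leibniz]
    simp only [smul_eq_mul]

/-- algebraic over the image of the base field -/
theorem bch_isAlg {F E : Type*} [Field F] [Field E] [Algebra F E] {y : E} (hy : IsAlgebraic F y) :
    IsAlgebraic (algebraMap F E).fieldRange y := by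
  obtain ⟨p, hp, hpy⟩ := hy
  refine ⟨p.map (algebraMap F E).rangeRestrictField, ?_, ?_⟩
  · rwa [Polynomial.map_ne_zero_iff (algebraMap F E).rangeRestrictField.injective]
  · rw [Polynomial.aeval_def, Polynomial.eval₂_map]
    rw [Polynomial.aeval_def] at hpy
    exact hpy

/-- **The conjugate chain.**  For every root `l₀` of the minimal polynomial of the first kick over
the field `F₀` of the ends there is a formal chain with the same ends and first kick `l₀`. -/
theorem bchain {R : Type*} [Field R] [IsAlgClosed R] [CharZero R] {d : Derivation ℤ R R} {z : R}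
    (hz : d z = 1) {Ω : Type*} [Field Ω] [IsAlgClosed Ω] [Algebra (PowerSeries R) Ω]
    {dX dU : Derivation ℤ Ω Ω} (hΩ : DF d Ω dX dU) {M : ℕ} {F₀ : Subfield Ω}
    (hFX : ∀ y ∈ F₀, dX y ∈ F₀) (hFU : ∀ y ∈ F₀, dU y ∈ F₀) (hFK : F₀ ≤ KR R Ω)
    {x K : ℕ → PowerSeries R} (hne : ∀ i ≤ M + 1, x (i + 1) ≠ x i)
    (hrel : ∀ i ≤ M, (x (i + 1) - x i) - (x (i + 2) - x (i + 1)) =
      K i * (x (i + 2) - x (i + 1)) * (x (i + 1) - x i))
    (hwr : ∀ i ≤ M, Dc d (K i) * derivative R (x (i + 1)) =
      derivative R (K i) * Dc d (x (i + 1)))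
    (h1 : x 1 = PowerSeries.C z) (h0 : x 1 - x 0 = PowerSeries.X)
    (hm0 : algebraMap _ Ω (x 0) ∈ F₀) (hm1 : algebraMap _ Ω (x 1) ∈ F₀)
    (hmM : algebraMap _ Ω (x (M + 1)) ∈ F₀) (hmM' : algebraMap _ Ω (x (M + 2)) ∈ F₀)
    (halg : ∀ i ≤ M + 2, IsAlgebraic F₀ (algebraMap _ Ω (x i))) {l₀ : R}
    (hl₀ : Polynomial.aeval (algebraMap _ Ω (PowerSeries.C l₀))
      (minpoly F₀ (algebraMap _ Ω (K 0))) = 0) :
    ∃ (l : ℕ → R) (h P : ℕ → PowerSeries R), l 0 = l₀ ∧ TChain d l M h P ∧
      PowerSeries.C z + h M = x (M + 1) ∧ P (M + 1) = x (M + 2) - x (M + 1) := by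
  have _c0 : CharZero (PowerSeries R) :=
    charZero_of_injective_ringHom (PowerSeries.C_injective (R := R))
  have _c1 : CharZero Ω := charZero_of_injective_ringHom hΩ.inj
  set ι : PowerSeries R →+* Ω := algebraMap (PowerSeries R) Ω with hι
  have hinj : Function.Injective ι := hΩ.inj
  obtain ⟨δX, hδX⟩ := bch_restr hFX
  obtain ⟨δU, hδU⟩ := bch_restr hFU
  -- the kicks are algebraic
  have hKalg : ∀ i ≤ M, IsAlgebraic F₀ (ι (K i)) := by
    intro i hi
    have ha : ι (x (i + 1) - x i) ≠ 0 := by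
      rw [Ne, map_eq_zero_iff ι hinj, sub_eq_zero]
      exact hne i (by omega)
    have hb : ι (x (i + 2) - x (i + 1)) ≠ 0 := by
      rw [Ne, map_eq_zero_iff ι hinj, sub_eq_zero]
      exact hne (i + 1) (by omega)
    have h2 := congrArg ι (hrel i hi)
    rw [map_mul, map_mul, map_sub ι (x (i + 1) - x i)] at h2
    have h3 : ι (K i) = (ι (x (i + 1) - x i) - ι (x (i + 2) - x (i + 1))) *
        (ι (x (i + 2) - x (i + 1)))⁻¹ * (ι (x (i + 1) - x i))⁻¹ := by
      rw [h2]
      field_simp
    rw [h3]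
    have a0 := halg i (by omega)
    have a1 := halg (i + 1) (by omega)
    have a2 := halg (i + 2) (by omega)
    have b0 : IsAlgebraic F₀ (ι (x (i + 1) - x i)) := by rw [map_sub]; exact a1.sub a0
    have b1 : IsAlgebraic F₀ (ι (x (i + 2) - x (i + 1))) := by rw [map_sub]; exact a2.sub a1
    exact ((b0.sub b1).mul b1.inv).mul b0.inv
  -- lifts to the algebraic closure
  have hX' : ∃ X' : ℕ → algebraicClosure F₀ Ω, ∀ i ≤ M + 2, ((X' i : _) : Ω) = ι (x i) := by
    refine ⟨fun i => if hi : i ≤ M + 2 then ⟨ι (x i), mem_algebraicClosure_iff.mpr (halg i hi)⟩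
      else 0, fun i hi => ?_⟩
    simp only [dif_pos hi]
  obtain ⟨X', hX'⟩ := hX'
  have hK' : ∃ K' : ℕ → algebraicClosure F₀ Ω, ∀ i ≤ M, ((K' i : _) : Ω) = ι (K i) := by
    refine ⟨fun i => if hi : i ≤ M then ⟨ι (K i), mem_algebraicClosure_iff.mpr (hKalg i hi)⟩
      else 0, fun i hi => ?_⟩
    simp only [dif_pos hi]
  obtain ⟨K', hK'⟩ := hK'
  -- the conjugation
  have hs : ∃ s : algebraicClosure F₀ Ω →ₐ[F₀] Ω, s (K' 0) = ι (PowerSeries.C l₀) := by
    have e := Algebra.IsAlgebraic.range_eval_eq_rootSet_minpoly (F := F₀)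
      (K := algebraicClosure F₀ Ω) Ω (K' 0)
    have hmin : minpoly F₀ (K' 0) = minpoly F₀ (ι (K 0)) := by
      rw [← hK' 0 (Nat.zero_le _)]
      exact (minpoly.algebraMap_eq (algebraMap (algebraicClosure F₀ Ω) Ω).injective (K' 0)).symm
    have hmem : ι (PowerSeries.C l₀) ∈ (minpoly F₀ (K' 0)).rootSet Ω := by
      rw [Polynomial.mem_rootSet_of_ne
        (minpoly.ne_zero (Algebra.IsIntegral.isIntegral (R := F₀) (K' 0))), hmin]
      exact hl₀
    rw [← e] at hmem
    obtain ⟨s, hs⟩ := hmem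
    exact ⟨s, hs⟩
  obtain ⟨s, hs⟩ := hs
  set σ : algebraicClosure F₀ Ω →+* Ω := (s : algebraicClosure F₀ Ω →+* Ω) with hσ
  have hσF : ∀ y : F₀, σ (algebraMap F₀ (algebraicClosure F₀ Ω) y) = (y : Ω) := fun y =>
    s.commutes y
  have hσF' : ∀ y : algebraicClosure F₀ Ω, (y : Ω) ∈ F₀ → σ y = (y : Ω) := by
    intro y hy
    have : y = algebraMap F₀ (algebraicClosure F₀ Ω) ⟨(y : Ω), hy⟩ := Subtype.ext rfl
    rw [this, hσF]
    rfl
  have _c2 : CharZero F₀ := inferInstance
  have hσX : ∀ y, σ (δX y) = dX (σ y) := by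
    refine fun y => comm_der (F := F₀) σ (fun y => ?_) y
    rw [hσF, hσF' _ (by rw [hδX]; exact hFX _ y.2), hδX]
    rfl
  have hσU : ∀ y, σ (δU y) = dU (σ y) := by
    refine fun y => comm_der (F := F₀) σ (fun y => ?_) y
    rw [hσF, hσF' _ (by rw [hδU]; exact hFU _ y.2), hδU]
    rfl
  set F₁ : Subfield (algebraicClosure F₀ Ω) :=
    (algebraMap F₀ (algebraicClosure F₀ Ω)).fieldRange with hF₁
  have hF₁K : ∀ y ∈ F₁, σ y ∈ KR R Ω := by
    rintro _ ⟨y, rfl⟩
    rw [hσF]
    exact hFK y.2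
  have hF₁alg : ∀ y : algebraicClosure F₀ Ω, IsAlgebraic F₁ y := fun y =>
    bch_isAlg (Algebra.IsAlgebraic.isAlgebraic y)
  -- the relations in the closure
  have hrel' : ∀ i ≤ M, (X' (i + 1) - X' i) - (X' (i + 2) - X' (i + 1)) =
      K' i * (X' (i + 2) - X' (i + 1)) * (X' (i + 1) - X' i) := by
    intro i hi
    apply Subtype.ext
    have h2 := congrArg ι (hrel i hi)
    simp only [map_sub, map_mul] at h2
    push_cast
    rw [hX' i (by omega), hX' (i + 1) (by omega), hX' (i + 2) (by omega), hK' i hi]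
    exact h2
  have hwr' : ∀ i ≤ M, δX (K' i) * δU (X' (i + 1)) = δU (K' i) * δX (X' (i + 1)) := by
    intro i hi
    apply Subtype.ext
    have h2 := congrArg ι (hwr i hi)
    simp only [map_mul] at h2
    push_cast
    rw [hδX, hδX, hδU, hδU, hX' (i + 1) (by omega), hK' i hi, hι, hΩ.hX, hΩ.hX, hΩ.hU, hΩ.hU]
    exact h2
  -- the images of the relations
  have hrelσ : ∀ i ≤ M, (σ (X' (i + 1)) - σ (X' i)) - (σ (X' (i + 2)) - σ (X' (i + 1))) =
      σ (K' i) * (σ (X' (i + 2)) - σ (X' (i + 1))) * (σ (X' (i + 1)) - σ (X' i)) := by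
    intro i hi
    have := congrArg σ (hrel' i hi)
    simpa only [map_sub, map_mul] using this
  -- the next difference
  have hnext : ∀ i ≤ M, ∀ (l : R) (h P Q : PowerSeries R), constantCoeff P = 0 →
      σ (K' i) = ι (tay d h l) → σ (X' (i + 1)) - σ (X' i) = ι P →
      Q * (1 + tay d h l * P) = P → σ (X' (i + 2)) - σ (X' (i + 1)) = ι Q := by
    intro i hi l h P Q hP hk hp hQ
    have hu : ι (1 + tay d h l * P) ≠ 0 := by
      rw [Ne, map_eq_zero_iff ι hinj]
      intro hcon
      have := congrArg constantCoeff hcon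
      rw [map_add, map_mul, hP, mul_zero, map_one, add_zero, map_zero] at this
      exact one_ne_zero this
    have e1 := hrelσ i hi
    rw [hk, hp] at e1
    have e2 := congrArg ι hQ
    rw [map_mul] at e2
    apply mul_right_cancel₀ hu
    rw [e2, map_add, map_one, map_mul]
    linear_combination -e1
  -- the induction
  have key : ∀ n ≤ M, ∃ (l : ℕ → R) (h P : ℕ → PowerSeries R), l 0 = l₀ ∧ TChain d l n h P ∧
      (∀ i ≤ n, σ (X' (i + 1)) = ι (PowerSeries.C z + h i)) ∧
      (∀ i ≤ n + 1, σ (X' (i + 1)) - σ (X' i) = ι (P i)) ∧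
      (∀ i ≤ n, σ (K' i) = ι (tay d (h i) (l i))) := by
    intro n
    induction n with
    | zero =>
      intro _
      obtain ⟨h, P, hT⟩ := exists_tchain d (fun _ => l₀) 0
      have x1 : σ (X' 1) = ι (PowerSeries.C z) := by
        rw [hσF' _ (by rw [hX' 1 (by omega)]; exact hm1), hX' 1 (by omega), h1]
      have x0 : σ (X' 0) = ι (x 0) := by
        rw [hσF' _ (by rw [hX' 0 (by omega)]; exact hm0), hX' 0 (by omega)]
      have x10 : σ (X' 1) - σ (X' 0) = ι (P 0) := by
        rw [x1, x0, ← map_sub, ← h1, h0, hT.P0]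
      have k0 : σ (K' 0) = ι (tay d (h 0) l₀) := by
        rw [hT.h0, tay_zero]
        exact hs
      refine ⟨fun _ => l₀, h, P, rfl, hT, ?_, ?_, ?_⟩
      · intro i hi
        obtain rfl : i = 0 := by omega
        rw [hT.h0, add_zero]
        exact x1
      · intro i hi
        rcases (show i = 0 ∨ i = 1 by omega) with rfl | rfl
        · exact x10
        · exact hnext 0 (by omega) l₀ (h 0) (P 0) (P 1)
            ((tchain_const hT).2 0 (by omega)) k0 x10 (hT.stepP 0 le_rfl)
      · intro i hi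
        obtain rfl : i = 0 := by omega
        exact k0
    | succ n ih =>
      intro hn
      obtain ⟨l, h, P, hl0, hT, hx, hp, hk⟩ := ih (by omega)
      have hc := tchain_const hT
      have hhc : constantCoeff (h n + P (n + 1)) = 0 := by
        rw [map_add, hc.1 n le_rfl, hc.2 (n + 1) le_rfl, add_zero]
      have hxn : σ (X' (n + 2)) = ι (PowerSeries.C z + (h n + P (n + 1))) := by
        have e1 := hx n le_rfl
        have e2 := hp (n + 1) le_rfl
        rw [← add_assoc, map_add, ← e1, ← e2]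
        ring
      obtain ⟨f, hf⟩ := step hz hΩ σ hσX hσU hhc hxn (hwr' (n + 1) hn) hF₁K (hF₁alg _)
      set l' : ℕ → R := Function.update l (n + 1) f with hl'
      set h' : ℕ → PowerSeries R := Function.update h (n + 1) (h n + P (n + 1)) with hh'
      set P' : ℕ → PowerSeries R := Function.update P (n + 2)
        (P (n + 1) * (1 + tay d (h n + P (n + 1)) f * P (n + 1))⁻¹) with hP'
      have l1 : ∀ i ≤ n, l' i = l i := fun i hi => Function.update_of_ne (by omega) _ _
      have l2 : l' (n + 1) = f := Function.update_self _ _ _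
      have h1' : ∀ i ≤ n, h' i = h i := fun i hi => Function.update_of_ne (by omega) _ _
      have h2' : h' (n + 1) = h n + P (n + 1) := Function.update_self _ _ _
      have p1 : ∀ i ≤ n + 1, P' i = P i := fun i hi => Function.update_of_ne (by omega) _ _
      have p2 : P' (n + 2) = P (n + 1) * (1 + tay d (h n + P (n + 1)) f * P (n + 1))⁻¹ :=
        Function.update_self _ _ _
      have hunit : constantCoeff (1 + tay d (h n + P (n + 1)) f * P (n + 1)) ≠ 0 := by
        rw [map_add, map_mul, hc.2 (n + 1) le_rfl, mul_zero, map_one, add_zero]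
        exact one_ne_zero
      have hstep : P' (n + 2) * (1 + tay d (h' (n + 1)) (l' (n + 1)) * P' (n + 1)) =
          P' (n + 1) := by
        rw [p2, h2', l2, p1 (n + 1) le_rfl, mul_assoc, PowerSeries.inv_mul_cancel _ hunit,
          mul_one]
      have hT' : TChain d l' (n + 1) h' P' := by
        refine ⟨?_, ?_, ?_, ?_⟩
        · rw [h1' 0 (by omega), hT.h0]
        · rw [p1 0 (by omega), hT.P0]
        · intro i hi
          rcases Nat.lt_or_ge n i with hi' | hi'
          · obtain rfl : i = n + 1 := by omega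
            exact hstep
          · rw [p1 (i + 1) (by omega), h1' i hi', l1 i hi', p1 i (by omega)]
            exact hT.stepP i hi'
        · intro i hi
          rcases Nat.lt_or_ge i n with hi' | hi'
          · rw [h1' (i + 1) (by omega), h1' i (by omega), p1 (i + 1) (by omega)]
            exact hT.steph i hi'
          · obtain rfl : i = n := by omega
            rw [h2', h1' i le_rfl, p1 (i + 1) le_rfl]
      have hkn : σ (K' (n + 1)) = ι (tay d (h' (n + 1)) (l' (n + 1))) := by
        rw [h2', l2]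
        exact hf
      refine ⟨l', h', P', ?_, hT', ?_, ?_, ?_⟩
      · rw [l1 0 (by omega), hl0]
      · intro i hi
        rcases Nat.lt_or_ge n i with hi' | hi'
        · obtain rfl : i = n + 1 := by omega
          rw [h2']
          exact hxn
        · rw [h1' i hi']
          exact hx i hi'
      · intro i hi
        rcases Nat.lt_or_ge (n + 1) i with hi' | hi'
        · obtain rfl : i = n + 2 := by omega
          refine hnext (n + 1) hn (l' (n + 1)) (h' (n + 1)) (P' (n + 1)) (P' (n + 2)) ?_ hkn ?_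
            hstep
          · rw [p1 (n + 1) le_rfl]
            exact hc.2 (n + 1) le_rfl
          · rw [p1 (n + 1) le_rfl]
            exact hp (n + 1) le_rfl
        · rw [p1 i hi']
          exact hp i hi'
      · intro i hi
        rcases Nat.lt_or_ge n i with hi' | hi'
        · obtain rfl : i = n + 1 := by omega
          exact hkn
        · rw [h1' i hi', l1 i hi']
          exact hk i hi'
  obtain ⟨l, h, P, hl0, hT, hx, hp, -⟩ := key M le_rfl
  have xM : σ (X' (M + 1)) = ι (x (M + 1)) := by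
    rw [hσF' _ (by rw [hX' (M + 1) (by omega)]; exact hmM), hX' (M + 1) (by omega)]
  have xM' : σ (X' (M + 2)) = ι (x (M + 2)) := by
    rw [hσF' _ (by rw [hX' (M + 2) (by omega)]; exact hmM'), hX' (M + 2) (by omega)]
  refine ⟨l, h, P, hl0, hT, ?_, ?_⟩
  · apply hinj
    rw [← hx M le_rfl, xM]
  · apply hinj
    rw [← hp (M + 1) le_rfl, xM, xM', map_sub]

end Pool.Agent.MP_ae5b4e_an_NB1C
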