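import Mathlib
import Pool.Agent.Lib.MP_ae5b4e_an_NB1C.BDefs
import Pool.Agent.Lib.Puiseux.Main

/-!
# MP_ae5b4e_an, NB_1, formal part of case I: Puiseux series
-/

noncomputable section

namespace Pool.Agent.MP_ae5b4e_an_NB1C

open Pool.Agent.MP_ae5b4e_an_NB1
open Pool.Agent.LAT (tay TChain)
open Pool.Agent.Lib.Puiseux (rot subst)
open PowerSeries (constantCoeff coeff derivative)

/-- extension of a homomorphism to an algebraic extension -/
private lemma puis_lift {K R R' : Type*} [Field K] [Field R] [Field R'] [Algebra K R]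
    [Algebra.IsAlgebraic K R] [IsAlgClosed R'] (j : K →+* R') :
    ∃ Θ : R →+* R', ∀ x, Θ (algebraMap K R x) = j x := by
  let _ := j.toAlgebra
  exact ⟨((IsAlgClosed.lift : R →ₐ[K] R') : R →+* R'), fun x =>
    (IsAlgClosed.lift : R →ₐ[K] R').commutes x⟩

/-- finitely many algebraic elements become Laurent series after a substitution `w ↦ w ^ n` -/
theorem exists_puis {R : Type*} [Field R] [Algebra (LaurentSeries ℂ) R]
    [IsAlgClosure (LaurentSeries ℂ) R] (s : Finset R) :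
    ∃ (n : ℕ+) (Θ : R →+* R), (∀ f : LaurentSeries ℂ, Θ (algebraMap _ R f) =
      algebraMap _ R (subst n f)) ∧
      ∀ y ∈ s, ∃ g : LaurentSeries ℂ, Θ y = algebraMap _ R g := by
  have hac : IsAlgClosed R := IsAlgClosure.isAlgClosed (LaurentSeries ℂ)
  have halg : Algebra.IsAlgebraic (LaurentSeries ℂ) R := IsAlgClosure.isAlgebraic
  set P : Polynomial (LaurentSeries ℂ) := ∏ y ∈ s, minpoly (LaurentSeries ℂ) y with hP
  have hint : ∀ y : R, IsIntegral (LaurentSeries ℂ) y := fun y => (halg.isAlgebraic y).isIntegral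
  have hP0 : P ≠ 0 := Finset.prod_ne_zero_iff.mpr fun y _ => minpoly.ne_zero (hint y)
  obtain ⟨n, hn⟩ := Pool.Agent.Lib.Puiseux.puiseux P
  obtain ⟨Θ, hΘ⟩ := puis_lift (R := R) (R' := R)
    ((algebraMap (LaurentSeries ℂ) R).comp (subst n))
  refine ⟨n, Θ, fun f => hΘ f, fun y hy => ?_⟩
  have hdvd : minpoly (LaurentSeries ℂ) y ∣ P := Finset.dvd_prod_of_mem _ hy
  have hdvd2 : (minpoly (LaurentSeries ℂ) y).map (subst n) ∣ P.map (subst n) :=
    Polynomial.map_dvd _ hdvd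
  have hsp : ((minpoly (LaurentSeries ℂ) y).map (subst n)).Splits :=
    hn.of_dvd (Polynomial.map_ne_zero hP0) hdvd2
  have hroot : (((minpoly (LaurentSeries ℂ) y).map (subst n)).map
      (algebraMap (LaurentSeries ℂ) R)).IsRoot (Θ y) := by
    have h1 : Polynomial.eval₂ (algebraMap (LaurentSeries ℂ) R) y
        (minpoly (LaurentSeries ℂ) y) = 0 := minpoly.aeval (LaurentSeries ℂ) y
    have h2 : Polynomial.eval₂ (Θ.comp (algebraMap (LaurentSeries ℂ) R)) (Θ y)
        (minpoly (LaurentSeries ℂ) y) = 0 := by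
      rw [← Polynomial.hom_eval₂, h1, map_zero]
    have h3 : Θ.comp (algebraMap (LaurentSeries ℂ) R) =
        (algebraMap (LaurentSeries ℂ) R).comp (subst n) := RingHom.ext hΘ
    rw [h3, ← Polynomial.eval_map, ← Polynomial.map_map] at h2
    exact h2
  obtain ⟨g, hg⟩ := hsp.mem_range_of_isRoot
    (Polynomial.map_ne_zero (minpoly.ne_zero (hint y))) hroot
  exact ⟨g, hg.symm⟩

/-- the derivation `d/dz` after the substitution -/
theorem isDz_mul {N : ℕ} {d : Derivation ℂ (LaurentSeries ℂ) (LaurentSeries ℂ)} (hd : IsDz N d)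
    (n : ℕ+) : ∃ d' : Derivation ℂ (LaurentSeries ℂ) (LaurentSeries ℂ), IsDz (N * n) d' ∧
      ∀ f, subst n (d f) = d' (subst n f) := by
  have hN : (N : ℂ) ≠ 0 := by exact_mod_cast hd.pos.ne'
  have hn : ((n : ℕ) : ℂ) ≠ 0 := by exact_mod_cast n.ne_zero
  set c : LaurentSeries ℂ := HahnSeries.single ((N : ℤ) - N * (n : ℕ)) (1 / ((n : ℕ) : ℂ)) with hc
  obtain ⟨d', hd'⟩ : ∃ d' : Derivation ℂ (LaurentSeries ℂ) (LaurentSeries ℂ),
      ∀ f, d' f = c * d f := by
    have hs : ∀ (a : ℂ) (f : LaurentSeries ℂ),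
        (@HSMul.hSMul ℂ (LaurentSeries ℂ) (LaurentSeries ℂ)
          (@instHSMul _ _ Algebra.toSMul) a f) = HahnSeries.C a * f := by
      intro a f
      rw [Algebra.smul_def, HahnSeries.algebraMap_apply']
      congr 1
      exact HahnSeries.ofPowerSeries_C a
    have hd1 : ∀ (a : ℂ) (f : LaurentSeries ℂ), d (HahnSeries.C a * f) = HahnSeries.C a * d f := by
      intro a f
      rw [← hs, Derivation.map_smul, ← HahnSeries.C_mul_eq_smul]
    have hadd : ∀ f g, c * d (f + g) = c * d f + c * d g := fun f g => by rw [map_add, mul_add]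
    refine ⟨{
      toFun := fun f => c * d f
      map_add' := hadd
      map_smul' := fun a f => ?_
      map_one_eq_zero' := ?_
      leibniz' := fun f g => ?_ }, fun f => rfl⟩
    · show c * d _ = _
      rw [hs, hd1, RingHom.id_apply, ← HahnSeries.C_mul_eq_smul]
      ring
    · show c * d 1 = 0
      rw [Derivation.map_one_eq_zero, mul_zero]
    · show c * d (f * g) = f • (c * d g) + g • (c * d f)
      rw [Derivation.leibniz, smul_eq_mul, smul_eq_mul, smul_eq_mul, smul_eq_mul]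
      ring
  have hco : ∀ (f : LaurentSeries ℂ) (j : ℤ), (d' f).coeff j =
      ((j + (N * (n : ℕ) : ℕ) : ℂ) / (N * (n : ℕ) : ℕ)) * f.coeff (j + (N * (n : ℕ) : ℕ)) := by
    intro f j
    rw [hd', hc, HahnSeries.coeff_single_mul, hd.coeff]
    have h1 : j - ((N : ℤ) - N * (n : ℕ)) + N = j + ((N * (n : ℕ) : ℕ) : ℤ) := by
      push_cast; ring
    rw [h1]
    push_cast
    field_simp
    ring
  refine ⟨d', ⟨Nat.mul_pos hd.pos n.pos, hco⟩, fun f => ?_⟩
  ext j
  rw [hco]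
  by_cases h : ((n : ℕ) : ℤ) ∣ j
  · obtain ⟨i, rfl⟩ := h
    rw [Pool.Agent.Lib.Puiseux.subst_coeff, hd.coeff]
    have h1 : ((n : ℕ) : ℤ) * i + ((N * (n : ℕ) : ℕ) : ℤ) = ((n : ℕ) : ℤ) * (i + N) := by
      push_cast; ring
    rw [h1, Pool.Agent.Lib.Puiseux.subst_coeff]
    congr 1
    push_cast
    field_simp
  · rw [Pool.Agent.Lib.Puiseux.subst_coeff_of_not_dvd _ _ h,
      Pool.Agent.Lib.Puiseux.subst_coeff_of_not_dvd, mul_zero]
    rintro ⟨l, hl⟩
    apply h
    refine ⟨l - N, ?_⟩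
    push_cast at hl
    linear_combination hl

/-- rotation and substitution -/
theorem exists_rot_subst {N : ℕ} {ζ : ℂˣ} (hζ : ζ ^ N = 1) (n : ℕ+) :
    ∃ ζ' : ℂˣ, ζ' ^ (N * n) = 1 ∧
      ∀ f : LaurentSeries ℂ, rot ζ' (subst n f) = subst n (rot ζ f) := by
  obtain ⟨z, hz⟩ := IsAlgClosed.exists_pow_nat_eq (ζ : ℂ) n.pos
  have hz0 : z ≠ 0 := by
    rintro rfl
    rw [zero_pow n.ne_zero] at hz
    exact ζ.ne_zero hz.symm
  set ζ' : ℂˣ := Units.mk0 z hz0 with hζ'
  have hpow : ζ' ^ (n : ℕ) = ζ := by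
    apply Units.ext
    rw [Units.val_pow_eq_pow_val, hζ', Units.val_mk0, hz]
  refine ⟨ζ', ?_, fun f => ?_⟩
  · rw [mul_comm, pow_mul, hpow, hζ]
  · ext j
    rw [Pool.Agent.Lib.Puiseux.rot_coeff]
    by_cases h : ((n : ℕ) : ℤ) ∣ j
    · obtain ⟨i, rfl⟩ := h
      rw [Pool.Agent.Lib.Puiseux.subst_coeff, Pool.Agent.Lib.Puiseux.subst_coeff,
        Pool.Agent.Lib.Puiseux.rot_coeff, zpow_mul, zpow_natCast, hpow]
    · rw [Pool.Agent.Lib.Puiseux.subst_coeff_of_not_dvd _ _ h,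
        Pool.Agent.Lib.Puiseux.subst_coeff_of_not_dvd _ _ h, mul_zero]

theorem isDz_z {N : ℕ} {d : Derivation ℂ (LaurentSeries ℂ) (LaurentSeries ℂ)} (hd : IsDz N d)
    (e : ℂ) : d (HahnSeries.C e + HahnSeries.single (N : ℤ) 1) = 1 := by
  have hN : (N : ℂ) ≠ 0 := by exact_mod_cast hd.pos.ne'
  have h1 : (HahnSeries.C e : LaurentSeries ℂ) = algebraMap ℂ (LaurentSeries ℂ) e := by
    rw [HahnSeries.algebraMap_apply']
    exact (HahnSeries.ofPowerSeries_C e).symm
  rw [map_add, h1, Derivation.map_algebraMap, zero_add]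
  ext j
  rw [hd.coeff, HahnSeries.coeff_one, HahnSeries.coeff_single]
  by_cases hj : j = 0
  · subst hj
    simp [hN]
  · rw [if_neg hj, if_neg (by omega), mul_zero]

end Pool.Agent.MP_ae5b4e_an_NB1C
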