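import Mathlib
import Pool.Agent.Lib.MP_ae5b4e_an_NB1C.BDefs
import Pool.Agent.Lib.MP_ae5b4e_an_NB1C.MinP

/-!
# MP_ae5b4e_an, NB_1, formal part of case I: the conjugate of the first kick
-/

noncomputable section

namespace Pool.Agent.MP_ae5b4e_an_NB1C

open Pool.Agent.MP_ae5b4e_an_NB1
open Pool.Agent.LAT (tay TChain)
open Pool.Agent.Lib.Puiseux (rot subst)
open PowerSeries (constantCoeff coeff derivative)

private lemma mem_cl {S Ω : Type*} [CommRing S] [Field Ω] {S₀ : Subring S} {j : S →+* Ω}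
    {y : Ω} (hy : y ∈ Subfield.closure (j '' S₀)) :
    ∃ a ∈ S₀, ∃ b ∈ S₀, b ≠ 0 ∧ y = j a / j b := by
  rw [Subfield.mem_closure_iff] at hy
  have h : Subring.closure (j '' (S₀ : Set S)) = S₀.map j := by
    rw [← Subring.coe_map, Subring.closure_eq]
  rw [h] at hy
  obtain ⟨_, ⟨a, ha, rfl⟩, _, ⟨b, hb, rfl⟩, rfl⟩ := hy
  by_cases hb0 : b = 0
  · refine ⟨0, S₀.zero_mem, 1, S₀.one_mem, ?_, ?_⟩
    · intro h1
      have h2 := congrArg j h1
      rw [map_one, map_zero] at h2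
      exact one_ne_zero h2
    · rw [hb0]
      simp
  · exact ⟨a, ha, b, hb, hb0, rfl⟩

/-- if the elements of the field of fractions of `S₀` killed by `D2` are invariant under `ρ` then
`ρ κ` is a conjugate of `κ` -/
theorem root_rot {S Ω L : Type*} [CommRing S] [Field Ω] [Field L] {S₀ : Subring S}
    {j : S →+* Ω} (hj : Function.Injective j) (c : L →+* Ω) (ρ : L →+* L) {D2 : S → S}
    (hD2 : ∀ a ∈ S₀, D2 a ∈ S₀) {dU : Derivation ℤ Ω Ω} (hD : ∀ a, dU (j a) = j (D2 a))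
    (hc : ∀ g, dU (c g) = 0)
    (hinv : ∀ a ∈ S₀, ∀ b ∈ S₀, b ≠ 0 → D2 a * b = a * D2 b →
      ∃ g, ρ g = g ∧ j a = c g * j b) {κ : L}
    (halg : IsAlgebraic (Subfield.closure (j '' S₀)) (c κ)) :
    Polynomial.aeval (c (ρ κ)) (minpoly (Subfield.closure (j '' S₀)) (c κ)) = 0 := by
  have hin : ∀ a ∈ S₀, j a ∈ Subfield.closure (j '' (S₀ : Set S)) := fun a ha =>
    Subfield.subset_closure ⟨a, ha, rfl⟩
  have hst : ∀ y ∈ Subfield.closure (j '' (S₀ : Set S)),
      dU y ∈ Subfield.closure (j '' (S₀ : Set S)) := by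
    intro y hy
    obtain ⟨a, ha, b, hb, hb0, rfl⟩ := mem_cl hy
    rw [Derivation.leibniz_div, hD, hD]
    simp only [smul_eq_mul]
    exact mul_mem (pow_mem (inv_mem (hin b hb)) 2) (sub_mem
      (mul_mem (hin b hb) (hin _ (hD2 a ha))) (mul_mem (hin a ha) (hin _ (hD2 b hb))))
  have hco : ∀ n, ∃ g, ρ g = g ∧
      (((minpoly (Subfield.closure (j '' (S₀ : Set S))) (c κ)).coeff n :
        Subfield.closure (j '' (S₀ : Set S))) : Ω) = c g := by
    intro n
    have h0 := minpoly_der hst halg (hc κ) n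
    obtain ⟨a, ha, b, hb, hb0, hab⟩ := mem_cl
      ((minpoly (Subfield.closure (j '' (S₀ : Set S))) (c κ)).coeff n).2
    have hjb : j b ≠ 0 := fun h => hb0 (hj (h.trans (map_zero j).symm))
    rw [hab] at h0 ⊢
    rw [Derivation.leibniz_div, hD, hD] at h0
    simp only [smul_eq_mul] at h0
    have h1 : j b * j (D2 a) - j a * j (D2 b) = 0 :=
      (mul_eq_zero.1 h0).resolve_left (pow_ne_zero 2 (inv_ne_zero hjb))
    have h2 : D2 a * b = a * D2 b := by
      apply hj
      rw [map_mul, map_mul]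
      linear_combination h1
    obtain ⟨g, hg1, hg2⟩ := hinv a ha b hb hb0 h2
    exact ⟨g, hg1, by rw [hg2, mul_div_cancel_right₀ _ hjb]⟩
  choose g hg1 hg2 using hco
  have h3 := minpoly.aeval (Subfield.closure (j '' (S₀ : Set S))) (c κ)
  rw [Polynomial.aeval_eq_sum_range] at h3 ⊢
  simp only [Subfield.smul_def, hg2, smul_eq_mul] at h3 ⊢
  have h4 : c (∑ i ∈ Finset.range ((minpoly (Subfield.closure (j '' (S₀ : Set S)))
      (c κ)).natDegree + 1), g i * κ ^ i) = 0 := by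
    rw [map_sum, ← h3]
    exact Finset.sum_congr rfl fun i _ => by rw [map_mul, map_pow]
  have h5 := (map_eq_zero c).1 h4
  have h6 := congrArg (fun z => c (ρ z)) h5
  simp only [map_sum, map_mul, map_pow, map_zero, hg1] at h6
  exact h6

end Pool.Agent.MP_ae5b4e_an_NB1C
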