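import Mathlib
import Pool.Agent.Lib.MP_ae5b4e_an_NB1C.BDefs
import Pool.Agent.Lib.MP_ae5b4e_an_NB1C.DerC
import Pool.Agent.Lib.MP_ae5b4e_an_NB1C.TayR
import Pool.Agent.Lib.MP_ae5b4e_an_NB1C.TCh
import Pool.Agent.Lib.MP_ae5b4e_an_NB1C.MinP
import Pool.Agent.Lib.MP_ae5b4e_an_NB1C.BCh
import Pool.Agent.Lib.MP_ae5b4e_an_NB1C.Root
import Pool.Agent.Lib.MP_ae5b4e_an_NB1C.Puis
import Pool.Agent.Lib.MP_ae5b4e_an_NB1C.ACh
import Pool.Agent.Lib.MP_ae5b4e_an_LAT.AlgTop

/-!
# MP_ae5b4e_an, NB_1: the formal part of case I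
-/

noncomputable section

namespace Pool.Agent.MP_ae5b4e_an_NB1C

open Pool.Agent.MP_ae5b4e_an_NB1
open Pool.Agent.LAT (tay TChain)
open Pool.Agent.Lib.Puiseux (rot subst)
open PowerSeries (constantCoeff coeff derivative)

/-- derivations over `ℤ` from additive maps -/
def mkD {L : Type*} [Field L] (d : L → L) (hadd : ∀ a b, d (a + b) = d a + d b)
    (hmul : ∀ a b, d (a * b) = a * d b + b * d a) : Derivation ℤ L L :=
  Derivation.mk' ((AddMonoidHom.mk' d hadd).toIntLinearMap) hmul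

lemma mkD_apply {L : Type*} [Field L] (d : L → L) (hadd : ∀ a b, d (a + b) = d a + d b)
    (hmul : ∀ a b, d (a * b) = a * d b + b * d a) (a : L) : mkD d hadd hmul a = d a := rfl

/-- a derivation over `ℂ` as a derivation over `ℤ` (for the standard structure of algebra) -/
def toZ (d : Derivation ℂ (LaurentSeries ℂ) (LaurentSeries ℂ)) :=
  mkD (L := LaurentSeries ℂ) (fun a => d a) (fun a b => map_add d a b) (fun a b => d.leibniz a b)

lemma toZ_apply (d : Derivation ℂ (LaurentSeries ℂ) (LaurentSeries ℂ)) (a : LaurentSeries ℂ) :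
    toZ d a = d a := rfl

instance charZero_laurent : CharZero (LaurentSeries ℂ) :=
  charZero_of_injective_ringHom (HahnSeries.C_injective (Γ := ℤ) (R := ℂ))

lemma Dc_C {L : Type*} [CommRing L] (d : Derivation ℤ L L) (a : L) :
    Dc d (PowerSeries.C a) = PowerSeries.C (d a) := by
  ext n
  rw [coeff_Dc, PowerSeries.coeff_C, PowerSeries.coeff_C]
  split_ifs
  · rfl
  · exact map_zero _

lemma Dc_map {L R : Type*} [CommRing L] [CommRing R] {d : Derivation ℤ L L}
    {δ : Derivation ℤ R R} (φ : L →+* R) (h : ∀ a, φ (d a) = δ (φ a)) (f : PowerSeries L) :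
    PowerSeries.map φ (Dc d f) = Dc δ (PowerSeries.map φ f) := by
  ext n
  rw [PowerSeries.coeff_map, coeff_Dc, coeff_Dc, PowerSeries.coeff_map, h]

lemma derivative_map {L R : Type*} [CommRing L] [CommRing R] (φ : L →+* R) (f : PowerSeries L) :
    PowerSeries.map φ (derivative L f) = derivative R (PowerSeries.map φ f) := by
  ext n
  rw [PowerSeries.coeff_map, PowerSeries.coeff_derivative, PowerSeries.coeff_derivative,
    PowerSeries.coeff_map, map_mul, map_add, map_natCast, map_one]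

/-- the expansion of the polygon in `PExp` form -/
theorem pexp_of_fexp {S : Type*} [CommRing S] [Algebra ℂ S]
    {D1 D2 : Derivation ℂ S S} {M : ℕ} {x K : ℕ → S} {N : ℕ}
    {d : Derivation ℂ (LaurentSeries ℂ) (LaurentSeries ℂ)} {e : ℂ} {κ : LaurentSeries ℂ}
    {ι : S →ₐ[ℂ] PowerSeries (LaurentSeries ℂ)}
    (hP : Poly D1 D2 M x K) (hι : FExp D1 D2 M x K N d e κ ι) :
    PExp (toZ d) M (fun i => ι (x i)) (fun i => ι (K i))
      (HahnSeries.C e + HahnSeries.single (N : ℤ) 1) κ := by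
  have h1 : ∀ a, Dc (toZ d) (ι a) = ι (D1 a) := by
    intro a
    ext1 n
    rw [coeff_Dc, toZ_apply, hι.c1]
  have h2 : ∀ a, derivative (LaurentSeries ℂ) (ι a) = ι (D2 a) := by
    intro a
    ext1 n
    rw [PowerSeries.coeff_derivative, hι.c2, mul_comm]
  refine ⟨fun i hi h => hP.ne i hi (hι.inj h), fun i hi => ?_, fun i hi => ?_, hι.x1, ?_,
    fun i hi => hι.K0 i hi⟩
  · rw [← map_sub, ← map_sub, ← map_sub, ← map_mul, ← map_mul, hP.rel i hi]
  · rw [h1, h2, h2, h1, ← map_mul, ← map_mul, hP.wr i hi]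
  · rw [← map_sub, hι.u]

theorem caseI_aux {R : Type} [Field R] [Algebra (LaurentSeries ℂ) R]
    [IsAlgClosure (LaurentSeries ℂ) R] {S : Type*} [CommRing S] [IsDomain S] [Algebra ℂ S]
    {D1 D2 : Derivation ℂ S S} {M : ℕ} {x K : ℕ → S} {S₀ : Subalgebra ℂ S} {N : ℕ}
    {d : Derivation ℂ (LaurentSeries ℂ) (LaurentSeries ℂ)} {e : ℂ} {κ : LaurentSeries ℂ}
    {ι : S →ₐ[ℂ] PowerSeries (LaurentSeries ℂ)} {ζ : ℂˣ}
    (hP : Poly D1 D2 M x K) (hE : Ends D1 D2 M x S₀)
    (halg : ∀ i ≤ M + 2, IsAlgebraic S₀ (x i))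
    (hd : IsDz N d) (hι : FExp D1 D2 M x K N d e κ ι) (hζ : ζ ^ N = 1)
    (hinv : RInv D2 S₀ ζ ι) : rot ζ κ = κ := by
  classical
  have hRc : IsAlgClosed R := IsAlgClosure.isAlgClosed (LaurentSeries ℂ)
  have hRa : Algebra.IsAlgebraic (LaurentSeries ℂ) R := IsAlgClosure.isAlgebraic
  set z : LaurentSeries ℂ := HahnSeries.C e + HahnSeries.single (N : ℤ) 1 with hz
  set φ : LaurentSeries ℂ →+* R := algebraMap (LaurentSeries ℂ) R with hφ
  have hφinj : Function.Injective φ := φ.injective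
  have hR0 : CharZero R := charZero_of_injective_algebraMap hφinj
  have hdz : toZ d z = 1 := isDz_z hd e
  -- the derivation of `R`
  obtain ⟨δ, hδ⟩ := exists_ext_der (K := LaurentSeries ℂ) (L := R)
    (AddMonoidHom.mk' (fun a => φ (d a)) (fun a b => by rw [map_add, map_add])) (fun a b => by
      change φ (d (a * b)) = φ a * φ (d b) + φ b * φ (d a)
      rw [Derivation.leibniz, map_add, smul_eq_mul, smul_eq_mul, map_mul, map_mul])
  have hδ' : ∀ a, φ (toZ d a) = δ (φ a) := fun a => (hδ a).symm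
  obtain ⟨Ω, iΩ, iΩc, iΩa, dX, dU, hΩ⟩ := exists_DF δ
  have hpe := pexp_of_fexp hP hι
  -- the expansion over `R`
  let jR : S →+* PowerSeries R := (PowerSeries.map φ).comp ι.toRingHom
  have hjR : Function.Injective jR :=
    (PowerSeries.map_injective φ hφinj).comp hι.inj
  let j : S →+* Ω := (algebraMap (PowerSeries R) Ω).comp jR
  have hj : Function.Injective j := hΩ.inj.comp hjR
  have hj1 : ∀ a, dX (j a) = j (D1 a) := by
    intro a
    change dX (algebraMap (PowerSeries R) Ω (PowerSeries.map φ (ι a))) =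
      algebraMap (PowerSeries R) Ω (PowerSeries.map φ (ι (D1 a)))
    rw [hΩ.hX, ← Dc_map φ hδ']
    congr 2
    ext1 n
    rw [coeff_Dc, toZ_apply, hι.c1]
  have hj2 : ∀ a, dU (j a) = j (D2 a) := by
    intro a
    change dU (algebraMap (PowerSeries R) Ω (PowerSeries.map φ (ι a))) =
      algebraMap (PowerSeries R) Ω (PowerSeries.map φ (ι (D2 a)))
    rw [hΩ.hU, ← derivative_map]
    congr 2
    ext1 n
    rw [PowerSeries.coeff_derivative, hι.c2, mul_comm]
  set F₀ : Subfield Ω := Subfield.closure (j '' (S₀.toSubring : Set S)) with hF₀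
  have hjmem : ∀ a ∈ S₀, j a ∈ F₀ := fun a ha => Subfield.subset_closure ⟨a, ha, rfl⟩
  have hFcl : ∀ (D : Derivation ℤ Ω Ω) (D' : S → S), (∀ a, D (j a) = j (D' a)) →
      (∀ a ∈ S₀, D' a ∈ S₀) → ∀ y ∈ F₀, D y ∈ F₀ := by
    intro D D' h1 h2 y hy
    rw [hF₀] at hy
    induction hy using Subfield.closure_induction with
    | mem y hy =>
      obtain ⟨a, ha, rfl⟩ := hy
      rw [h1]
      exact hjmem _ (h2 a ha)
    | one =>
      rw [Derivation.map_one_eq_zero]
      exact F₀.zero_mem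
    | add a b _ _ ha hb =>
      rw [map_add]
      exact F₀.add_mem ha hb
    | neg a _ ha =>
      rw [map_neg]
      exact F₀.neg_mem ha
    | inv a ha' ha =>
      rw [Derivation.leibniz_inv, smul_eq_mul]
      exact F₀.mul_mem (F₀.neg_mem (F₀.pow_mem (F₀.inv_mem ha') 2)) ha
    | mul a b ha' hb' ha hb =>
      rw [Derivation.leibniz]
      exact F₀.add_mem (F₀.mul_mem ha' hb) (F₀.mul_mem hb' ha)
  have halgF : ∀ s : S, IsAlgebraic S₀ s → IsAlgebraic F₀ (j s) := by
    rintro s ⟨p, hp0, hp⟩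
    let j₀ : S₀ →+* F₀ := (j.comp S₀.val.toRingHom).codRestrict F₀ (fun a => hjmem a a.2)
    have hj₀ : Function.Injective j₀ := by
      intro a b hab
      have h1 : j (a : S) = j (b : S) := congrArg (fun y : F₀ => (y : Ω)) hab
      exact Subtype.ext (hj h1)
    refine ⟨p.map j₀, (Polynomial.map_ne_zero_iff hj₀).2 hp0, ?_⟩
    have h1 : j (Polynomial.aeval s p) = 0 := by rw [hp, map_zero]
    rw [Polynomial.aeval_def, Polynomial.hom_eval₂] at h1
    rw [Polynomial.aeval_def, Polynomial.eval₂_map]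
    exact h1
  -- the first kick
  let c : LaurentSeries ℂ →+* Ω := (algebraMap (PowerSeries R) Ω).comp
    ((PowerSeries.C (R := R)).comp φ)
  have hK0 : ι (K 0) = PowerSeries.C κ := by
    have h1 := (hpe.wr 0 (Nat.zero_le _))
    rw [zero_add, hpe.x1, Dc_C, hdz, PowerSeries.derivative_C, mul_zero, map_one, mul_one] at h1
    have h2 := hpe.K0 0 (Nat.zero_le _)
    ext1 n
    rcases n with _ | n
    · rw [PowerSeries.coeff_zero_eq_constantCoeff_apply,
        PowerSeries.coeff_zero_eq_constantCoeff_apply, PowerSeries.constantCoeff_C]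
      exact h2
    · have h3 := congrArg (coeff n) h1
      rw [map_zero, PowerSeries.coeff_derivative] at h3
      have h4 := (mul_eq_zero.1 h3.symm).resolve_right (by exact_mod_cast Nat.succ_ne_zero n)
      rw [h4, PowerSeries.coeff_C, if_neg (Nat.succ_ne_zero n)]
  have hK0' : j (K 0) = c κ := by
    change algebraMap (PowerSeries R) Ω (PowerSeries.map φ (ι (K 0))) =
      algebraMap (PowerSeries R) Ω (PowerSeries.C (φ κ))
    rw [hK0, PowerSeries.map_C]
  have hKalg : ∀ i ≤ M, IsAlgebraic F₀ (j (K i)) := by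
    intro i hi
    have h0 := halgF _ (halg i (by omega))
    have h1 := halgF _ (halg (i + 1) (by omega))
    have h2 := halgF _ (halg (i + 2) (by omega))
    have hn0 : j (x (i + 1)) - j (x i) ≠ 0 := fun h =>
      hP.ne i (by omega) (hj (sub_eq_zero.1 h))
    have hn1 : j (x (i + 2)) - j (x (i + 1)) ≠ 0 := fun h =>
      hP.ne (i + 1) (by omega) (hj (sub_eq_zero.1 h))
    have h3 : j (K i) = ((j (x (i + 1)) - j (x i)) - (j (x (i + 2)) - j (x (i + 1)))) *
        ((j (x (i + 2)) - j (x (i + 1))) * (j (x (i + 1)) - j (x i)))⁻¹ := by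
      have h4 := congrArg j (hP.rel i hi)
      rw [map_sub, map_sub, map_sub, map_mul, map_mul, map_sub, map_sub] at h4
      rw [h4]
      field_simp
    rw [h3]
    exact ((h1.sub h0).sub (h2.sub h1)).mul (((h2.sub h1).mul (h1.sub h0)).inv)
  have hroot := root_rot (S₀ := S₀.toSubring) hj c (rot ζ) (D2 := D2) (fun a ha => hE.d2 a ha)
    hj2 (fun g => by
      change dU (algebraMap (PowerSeries R) Ω (PowerSeries.C (φ g))) = 0
      rw [hΩ.hU, PowerSeries.derivative_C, map_zero]) (fun a ha b hb hb0 hab => by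
      obtain ⟨g, hg1, hg2⟩ := hinv a ha b hb hb0 hab
      refine ⟨g, hg1, ?_⟩
      change algebraMap (PowerSeries R) Ω (PowerSeries.map φ (ι a)) =
        algebraMap (PowerSeries R) Ω (PowerSeries.C (φ g)) *
          algebraMap (PowerSeries R) Ω (PowerSeries.map φ (ι b))
      rw [hg2, map_mul, PowerSeries.map_C, map_mul]) (κ := κ) (by
      rw [← hK0']
      exact hKalg 0 (Nat.zero_le _))
  rw [← hF₀] at hroot
  -- the conjugate chain
  obtain ⟨l, h, P, hl0, hT, hh, hPP⟩ := bchain (d := δ) (z := φ z)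
    (by rw [← hδ', hdz, map_one]) hΩ (M := M) (F₀ := F₀) (hFcl dX D1 hj1 hE.d1)
    (hFcl dU D2 hj2 hE.d2) (by
      rw [hF₀, Subfield.closure_le]
      rintro _ ⟨a, _, rfl⟩
      exact Subfield.subset_closure ⟨jR a, rfl⟩)
    (x := fun i => jR (x i)) (K := fun i => jR (K i)) (fun i hi h => hP.ne i hi (hjR h))
    (fun i hi => by
      rw [← map_sub, ← map_sub, ← map_sub, ← map_mul, ← map_mul, hP.rel i hi])
    (fun i hi => by
      change Dc δ (PowerSeries.map φ (ι (K i))) * derivative R (PowerSeries.map φ (ι (x (i + 1))))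
        = derivative R (PowerSeries.map φ (ι (K i))) * Dc δ (PowerSeries.map φ (ι (x (i + 1))))
      rw [← Dc_map φ hδ', ← derivative_map, ← derivative_map, ← Dc_map φ hδ', ← map_mul,
        ← map_mul, hpe.wr i hi])
    (by
      change PowerSeries.map φ (ι (x 1)) = _
      rw [hι.x1, PowerSeries.map_C])
    (by
      rw [← map_sub]
      change PowerSeries.map φ (ι (x 1 - x 0)) = _
      rw [hι.u, PowerSeries.map_X])
    (hjmem _ hE.m0) (hjmem _ hE.m1) (hjmem _ hE.mM) (hjmem _ hE.mM')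
    (fun i hi => halgF _ (halg i hi)) (l₀ := φ (rot ζ κ)) (by
      have h1 : algebraMap (PowerSeries R) Ω (jR (K 0)) = c κ := hK0'
      rw [h1]
      exact hroot)
  -- Puiseux
  obtain ⟨n, Θ, hΘ, hΘl⟩ := exists_puis (R := R) ((Finset.range (M + 1)).image l)
  obtain ⟨d', hd', hdd'⟩ := isDz_mul hd n
  obtain ⟨ζ', hζ', hrot⟩ := exists_rot_subst hζ n
  obtain ⟨δ', hδ2⟩ := exists_ext_der (K := LaurentSeries ℂ) (L := R)
    (AddMonoidHom.mk' (fun a => φ (d' a)) (fun a b => by rw [map_add, map_add])) (fun a b => by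
      change φ (d' (a * b)) = φ a * φ (d' b) + φ b * φ (d' a)
      rw [Derivation.leibniz, map_add, smul_eq_mul, smul_eq_mul, map_mul, map_mul])
  have hδ2' : ∀ a, φ (toZ d' a) = δ' (φ a) := fun a => (hδ2 a).symm
  have hΘδ : ∀ y, Θ (δ y) = δ' (Θ y) := by
    refine comm_der (F := LaurentSeries ℂ) Θ (fun a => ?_)
    change Θ (δ (φ a)) = δ' (Θ (φ a))
    rw [← hδ', hΘ, hΘ, ← hδ2', toZ_apply, toZ_apply, hdd']
  -- the Laurent series of the kicks
  have hex : ∀ i, ∃ g : LaurentSeries ℂ, i ≤ M → Θ (l i) = φ g := by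
    intro i
    by_cases hi : i ≤ M
    · obtain ⟨g, hg⟩ := hΘl (l i) (Finset.mem_image_of_mem _ (Finset.mem_range.2 (by omega)))
      exact ⟨g, fun _ => hg⟩
    · exact ⟨0, fun h => absurd h hi⟩
  choose l' hl' using hex
  have hl'0 : l' 0 = subst n (rot ζ κ) := by
    apply hφinj
    rw [← hl' 0 (Nat.zero_le _), hl0, hΘ]
  obtain ⟨h', P', hT'⟩ := exists_tchain (toZ d') l' M
  have hTR := tchain_map φ hδ2' hT'
  have hTΘ := tchain_map Θ hΘδ hT
  have hTΘ' : TChain δ' (fun i => φ (l' i)) M (fun i => PowerSeries.map Θ (h i))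
      (fun i => PowerSeries.map Θ (P i)) := by
    refine ⟨hTΘ.h0, hTΘ.P0, fun i hi => ?_, hTΘ.steph⟩
    have h1 := hTΘ.stepP i hi
    rw [← hl' i hi]
    exact h1
  have huniq := tchain_unique hTR hTΘ'
  have hSub : ∀ a, subst n (toZ d a) = toZ d' (subst n a) := fun a => hdd' a
  have hTa := tchain_map (subst n) hSub (hpe.tchain hdz)
  have hinjm : Function.Injective (PowerSeries.map φ) := PowerSeries.map_injective φ hφinj
  -- comparison of the two substitutions
  have hcomp : ∀ f : PowerSeries (LaurentSeries ℂ), PowerSeries.map Θ (PowerSeries.map φ f) =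
      PowerSeries.map φ (PowerSeries.map (subst n) f) := by
    intro f
    ext1 m
    rw [PowerSeries.coeff_map, PowerSeries.coeff_map, PowerSeries.coeff_map,
      PowerSeries.coeff_map, hΘ]
  have e1 : PowerSeries.map (subst n) (ι (x (M + 1)) - ι (x 1)) = h' M := by
    apply hinjm
    have h1 := huniq.1 M le_rfl
    rw [h1, ← hcomp, hι.x1]
    congr 1
    have h2 : PowerSeries.C (φ z) + h M = PowerSeries.map φ (ι (x (M + 1))) := hh
    rw [map_sub, PowerSeries.map_C, ← h2, add_sub_cancel_left]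
  have e2 : PowerSeries.map (subst n) (ι (x (M + 2)) - ι (x (M + 1))) = P' (M + 1) := by
    apply hinjm
    have h1 := huniq.2 (M + 1) le_rfl
    rw [h1, ← hcomp]
    congr 1
    have h2 : P (M + 1) = PowerSeries.map φ (ι (x (M + 2))) - PowerSeries.map φ (ι (x (M + 1))) :=
      hPP
    rw [h2, map_sub]
  have key := Pool.Agent.LAT.alg_tchain (N := N * n) (M := M) (Nat.mul_pos hd.pos n.pos) d'
    (fun f m => hd'.coeff f m) (kap := subst n κ) (l := l') (h := fun i =>
      PowerSeries.map (subst n) (ι (x (i + 1)) - ι (x 1))) (P := fun i =>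
      PowerSeries.map (subst n) (ι (x (i + 1)) - ι (x i))) (h' := h') (P' := P') hTa hT' e1 e2
    hζ' (by rw [hl'0, ← hrot])
  rw [hl'0] at key
  exact Pool.Agent.Lib.Puiseux.subst_injective n key

/-- **Formal part of case I.** -/
theorem caseI_formal {S : Type*} [CommRing S] [IsDomain S] [Algebra ℂ S]
    {D1 D2 : Derivation ℂ S S} {M : ℕ} {x K : ℕ → S} {S₀ : Subalgebra ℂ S} {N : ℕ}
    {d : Derivation ℂ (LaurentSeries ℂ) (LaurentSeries ℂ)} {e : ℂ} {κ : LaurentSeries ℂ}
    {ι : S →ₐ[ℂ] PowerSeries (LaurentSeries ℂ)} {ζ : ℂˣ}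
    (hM : 2 ≤ M) (hP : Poly D1 D2 M x K) (hcomm : ∀ a, D1 (D2 a) = D2 (D1 a))
    (hE : Ends D1 D2 M x S₀)
    (halg : ∀ i ≤ M + 2, IsAlgebraic S₀ (x i))
    (hd : IsDz N d) (hι : FExp D1 D2 M x K N d e κ ι) (hζ : ζ ^ N = 1)
    (hinv : RInv D2 S₀ ζ ι) : rot ζ κ = κ :=
  caseI_aux (R := AlgebraicClosure (LaurentSeries ℂ)) hP hE halg hd hι hζ hinv

end Pool.Agent.MP_ae5b4e_an_NB1C
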